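import Pool.Agent.K6.H5.PL.Box

/-! Amplification over many groups of rows. -/

set_option autoImplicit false
set_option linter.unusedSectionVars false

open scoped BigOperators Matrix InnerProductSpace
open Finset Matrix Complex Pool.Agent.TH235.PP

namespace Pool.Agent.K6.H5.PL

section basic
variable {X : Type*} [Fintype X] [DecidableEq X]

lemma overlap_of_dist (ψ : X → ℂ) (hψ : normSq ψ = 1) (W : Submodule ℂ (X → ℂ)) (δ : ℝ) (hδ : 0 ≤ δ)
    (h : ∀ φ ∈ W, normSq φ ≤ 1 → δ ≤ nr (ψ - φ)) (φ : X → ℂ) (hφ : φ ∈ W) :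
    ‖ip ψ φ‖ ^ 2 ≤ (1 - δ ^ 2) * normSq φ := by
  have hcs : ‖ip ψ φ‖ ^ 2 ≤ normSq φ := by
    have h1 := ip_cs ψ φ
    rw [hψ, Real.sqrt_one, one_mul] at h1
    calc ‖ip ψ φ‖ ^ 2 ≤ (Real.sqrt (normSq φ)) ^ 2 := pow_le_pow_left₀ (norm_nonneg _) h1 2
      _ = normSq φ := Real.sq_sqrt (nSq_nonneg φ)
  rcases (nSq_nonneg φ).lt_or_eq with hpos | h0
  · set N := normSq φ with hN
    set c : ℂ := ip φ ψ / (N : ℂ) with hc
    have hNc : (N : ℂ) ≠ 0 := by exact_mod_cast hpos.ne'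
    have hip : ‖ip φ ψ‖ = ‖ip ψ φ‖ := by rw [← ip_conj ψ φ, Complex.norm_conj]
    have hcn : ‖c‖ = ‖ip ψ φ‖ / N := by
      rw [hc, norm_div, hip, Complex.norm_real, Real.norm_eq_abs, abs_of_pos hpos]
    have h1 : normSq (c • φ) = ‖ip ψ φ‖ ^ 2 / N := by
      rw [← nr_sq, nr_smul, mul_pow, nr_sq, ← hN, hcn]
      field_simp
    have h2 := h (c • φ) (W.smul_mem c hφ) (by
      rw [h1, div_le_one hpos]; exact hcs)
    have h3 : normSq (ψ - c • φ) = 1 - ‖ip ψ φ‖ ^ 2 / N := by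
      have e1 := ip_self (ψ - c • φ)
      rw [ip_sub_l, ip_sub_r, ip_sub_r, ip_self, hψ, ip_smul_r, ip_smul_l, ip_smul_l, ip_smul_r,
        ip_self, ← hN] at e1
      have e2 : c * (N : ℂ) = ip φ ψ := by rw [hc]; field_simp
      rw [e2] at e1
      have e3 : c * ip ψ φ = ((‖ip ψ φ‖ ^ 2 / N : ℝ) : ℂ) := by
        rw [hc, ← ip_conj ψ φ]
        have : (starRingEnd ℂ) (ip ψ φ) * ip ψ φ = ((‖ip ψ φ‖ ^ 2 : ℝ) : ℂ) := by
          rw [mul_comm, Complex.mul_conj, Complex.normSq_eq_norm_sq]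
        push_cast at this ⊢
        rw [div_mul_eq_mul_div, this]
      rw [e3] at e1
      have e4 : ((1 - ‖ip ψ φ‖ ^ 2 / N : ℝ) : ℂ) = ((normSq (ψ - c • φ) : ℝ) : ℂ) := by
        rw [← e1]
        push_cast
        ring
      exact_mod_cast e4.symm
    have h4 : δ ^ 2 ≤ 1 - ‖ip ψ φ‖ ^ 2 / N := by
      rw [← h3, ← nr_sq]
      exact pow_le_pow_left₀ hδ h2 2
    have h5 : ‖ip ψ φ‖ ^ 2 / N ≤ 1 - δ ^ 2 := by linarith
    rwa [div_le_iff₀ hpos] at h5
  · rw [← h0] at hcs ⊢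
    rw [mul_zero]
    exact hcs

theorem amplify (ψ : X → ℂ) (τ : ℝ) (hτ : 0 ≤ τ) : ∀ (n : ℕ) (W : Fin n → Submodule ℂ (X → ℂ))
    (_ : ∀ g, ∀ φ ∈ W g, ‖ip ψ φ‖ ^ 2 ≤ τ * normSq φ) (Φ : (Fin n → X) → ℂ)
    (_ : ∀ g x, (fun a => Φ (Function.update x g a)) ∈ W g),
    ‖ip (fun x : Fin n → X => ∏ g, ψ (x g)) Φ‖ ^ 2 ≤ τ ^ n * normSq Φ := by
  intro n
  induction n with
  | zero =>
    intro W _ Φ _
    unfold ip Pool.Agent.TH235.PP.normSq
    simp
  | succ n ih =>
    intro W hW Φ hΦ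
    set Φ' : (Fin n → X) → ℂ := fun x => ip ψ (fun a => Φ (Fin.cons a x)) with hΦ'
    have h1 : ip (fun x : Fin (n + 1) → X => ∏ g, ψ (x g)) Φ =
        ip (fun x : Fin n → X => ∏ g, ψ (x g)) Φ' := by
      unfold ip
      rw [← (Fin.consEquiv (fun _ : Fin (n + 1) => X)).sum_comp, Fintype.sum_prod_type, Finset.sum_comm]
      refine Finset.sum_congr rfl fun x _ => ?_
      rw [hΦ']
      simp only []
      unfold ip
      rw [Finset.mul_sum]
      refine Finset.sum_congr rfl fun a _ => ?_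
      show (starRingEnd ℂ) (∏ g, ψ ((Fin.cons a x : Fin (n + 1) → X) g)) * Φ (Fin.cons a x) = _
      rw [Fin.prod_univ_succ, map_mul]
      simp only [Fin.cons_zero, Fin.cons_succ]
      ring
    have h2 : normSq Φ = ∑ x : Fin n → X, normSq (fun a => Φ (Fin.cons a x)) := by
      unfold Pool.Agent.TH235.PP.normSq
      rw [← (Fin.consEquiv (fun _ : Fin (n + 1) => X)).sum_comp, Fintype.sum_prod_type, Finset.sum_comm]
      rfl
    have h3 : ∀ x : Fin n → X, (fun a => Φ (Fin.cons a x)) ∈ W 0 := by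
      intro x
      rcases isEmpty_or_nonempty X with hX | ⟨⟨a₀⟩⟩
      · have : (fun a => Φ (Fin.cons a x)) = (0 : X → ℂ) := Subsingleton.elim _ _
        rw [this]
        exact (W 0).zero_mem
      · have := hΦ 0 (Fin.cons a₀ x : Fin (n + 1) → X)
        simpa only [Fin.update_cons_zero] using this
    have h4 : normSq Φ' ≤ τ * normSq Φ := by
      rw [h2, Finset.mul_sum]
      have : normSq Φ' = ∑ x, ‖ip ψ (fun a => Φ (Fin.cons a x))‖ ^ 2 := rfl
      rw [this]
      exact Finset.sum_le_sum fun x _ => hW 0 _ (h3 x)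
    have h5 := ih (fun g => W g.succ) (fun g => hW g.succ) Φ' (by
      intro g x
      have : (fun a => Φ' (Function.update x g a)) =
          ∑ b, (starRingEnd ℂ) (ψ b) • (fun a => Φ (Function.update (Fin.cons b x : Fin (n + 1) → X) g.succ a)) := by
        funext a
        rw [Finset.sum_apply, hΦ']
        simp only []
        unfold ip
        refine Finset.sum_congr rfl fun b _ => ?_
        rw [Pi.smul_apply, smul_eq_mul, ← Fin.cons_update]
      rw [this]
      exact Submodule.sum_mem _ fun b _ => (W g.succ).smul_mem _ (hΦ g.succ _))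
    rw [h1]
    calc _ ≤ τ ^ n * normSq Φ' := h5
      _ ≤ τ ^ n * (τ * normSq Φ) := mul_le_mul_of_nonneg_left h4 (pow_nonneg hτ n)
      _ = _ := by ring

end basic

section torus

variable {Y J R' : Type*} [Fintype Y] [DecidableEq Y] [Fintype J] [DecidableEq J] [Fintype R']
  [DecidableEq R'] {n w : ℕ}

/-- regrouping of the rows -/
def cfg (e : (Fin n × Fin w) ⊕ R' ≃ Y) :
    (Y × J → Fin 2) ≃ (Fin n → (Fin w × J → Fin 2)) × (R' × J → Fin 2) where
  toFun s := (fun g v => s (e (Sum.inl (g, v.1)), v.2), fun v => s (e (Sum.inr v.1), v.2))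
  invFun p := fun v => Sum.elim (fun gi => p.1 gi.1 (gi.2, v.2)) (fun r => p.2 (r, v.2)) (e.symm v.1)
  left_inv s := by
    funext v
    obtain ⟨y, j⟩ := v
    obtain ⟨x, rfl⟩ := e.surjective y
    simp only [Equiv.symm_apply_apply]
    rcases x with x | x <;> rfl
  right_inv p := by
    ext
    · simp
    · simp

lemma cfg_inl (e : (Fin n × Fin w) ⊕ R' ≃ Y) (x : Fin n → (Fin w × J → Fin 2)) (zz : R' × J → Fin 2)
    (g : Fin n) (i : Fin w) (j : J) : (cfg e).symm (x, zz) (e (Sum.inl (g, i)), j) = x g (i, j) := by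
  show Sum.elim _ _ (e.symm (e _)) = _
  rw [Equiv.symm_apply_apply]; rfl

lemma cfg_inr (e : (Fin n × Fin w) ⊕ R' ≃ Y) (x : Fin n → (Fin w × J → Fin 2)) (zz : R' × J → Fin 2)
    (r : R') (j : J) : (cfg e).symm (x, zz) (e (Sum.inr r), j) = zz (r, j) := by
  show Sum.elim _ _ (e.symm (e _)) = _
  rw [Equiv.symm_apply_apply]; rfl

lemma cfg_flp (e : (Fin n × Fin w) ⊕ R' ≃ Y) (x : Fin n → (Fin w × J → Fin 2)) (zz : R' × J → Fin 2)
    (g : Fin n) (a : Fin w × J → Fin 2) (i : Fin w) (j : J) :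
    (cfg e).symm (Function.update x g (flp (i, j) a), zz) =
      flp (e (Sum.inl (g, i)), j) ((cfg e).symm (Function.update x g a, zz)) := by
  funext v
  obtain ⟨y, j'⟩ := v
  obtain ⟨p, rfl⟩ := e.surjective y
  rcases p with ⟨g', i'⟩ | r
  · by_cases h : (e (Sum.inl (g', i')), j') = (e (Sum.inl (g, i)), j)
    · rw [h, flp_same, cfg_inl, cfg_inl, Function.update_self, Function.update_self, flp_same]
    · rw [flp_ne h, cfg_inl, cfg_inl]
      by_cases hg : g' = g
      · subst hg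
        rw [Function.update_self, Function.update_self, flp_ne]
        intro hh
        rw [Prod.mk.injEq] at hh
        exact h (by rw [hh.1, hh.2])
      · rw [Function.update_of_ne hg, Function.update_of_ne hg]
  · rw [flp_ne, cfg_inr, cfg_inr]
    intro hh
    have := e.injective (Prod.mk.inj hh).1
    exact absurd this (by simp)

/-- the box of the group `g` -/
def bx (e : (Fin n × Fin w) ⊕ R' ≃ Y) (q : J → Prop) (g : Fin n) (v : Y × J) : Prop :=
  (∃ i, v.1 = e (Sum.inl (g, i))) ∧ q v.2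

lemma tv_cfg (e : (Fin n × Fin w) ⊕ R' ≃ Y) (Ω : (J → Fin 2) → ℂ)
    (x : Fin n → (Fin w × J → Fin 2)) (zz : R' × J → Fin 2) :
    tv (fun _ : Y => Ω) ((cfg e).symm (x, zz)) =
      (∏ g, tv (fun _ : Fin w => Ω) (x g)) * tv (fun _ : R' => Ω) zz := by
  rw [tv_ap, ← e.prod_comp, Fintype.prod_sum_type, Fintype.prod_prod_type]
  congr 1
  · refine Finset.prod_congr rfl fun g _ => ?_
    rw [tv_ap]
    refine Finset.prod_congr rfl fun i _ => ?_
    congr 1
    funext j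
    exact cfg_inl e x zz g i j
  · rw [tv_ap]
    refine Finset.prod_congr rfl fun r _ => ?_
    congr 1
    funext j
    exact cfg_inr e x zz r j

/-- vectors of the form `∑ b, F b * H b` with `H b` depending on the outer spins only -/
def Wsub {V ι : Type*} [Fintype V] [DecidableEq V] [Fintype ι] (q : V → Prop)
    (F : ι → (V → Fin 2) → ℂ) : Submodule ℂ ((V → Fin 2) → ℂ) where
  carrier := {φ | ∃ H : ι → (V → Fin 2) → ℂ, (∀ b, Dep (fun v => ¬ q v) (H b)) ∧ φ = ∑ b, F b * H b}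
  add_mem' := by
    rintro _ _ ⟨H, hH, rfl⟩ ⟨H', hH', rfl⟩
    refine ⟨fun b => H b + H' b, fun b j hj s => ?_, ?_⟩
    · simp only [Pi.add_apply]
      rw [hH b j hj, hH' b j hj]
    · rw [← Finset.sum_add_distrib]
      exact Finset.sum_congr rfl fun b _ => by ring
  zero_mem' := ⟨fun _ => 0, fun _ _ _ _ => rfl, by simp⟩
  smul_mem' := by
    rintro c _ ⟨H, hH, rfl⟩
    refine ⟨fun b => c • H b, fun b j hj s => ?_, ?_⟩
    · simp only [Pi.smul_apply]
      rw [hH b j hj]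
    · rw [Finset.smul_sum]
      exact Finset.sum_congr rfl fun b _ => by rw [mul_smul_comm]

/-- the overlap of a product of rows with a vector of small Schmidt rank across many boxes -/
theorem overlap_bound (e : (Fin n × Fin w) ⊕ R' ≃ Y) {S : Type*} [Fintype S] [DecidableEq S]
    {q : J → Prop} {Ω : (J → Fin 2) → ℂ} {κ : ℝ} (hκ : 0 ≤ κ)
    {A B : S → Matrix (J → Fin 2) (J → Fin 2) ℂ} (h : RowData q Ω κ A B)
    (hS : 0 < Fintype.card S)
    (ι : Fin n → Type) [∀ g, Fintype (ι g)]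
    (hcard : ∀ g, Fintype.card (ι g) ^ 2 < Fintype.card S ^ w)
    (Φ : (Y × J → Fin 2) → ℂ)
    (hΦ : ∀ g, ∃ F H : ι g → (Y × J → Fin 2) → ℂ, (∀ b, Dep (bx e q g) (F b)) ∧
      (∀ b, Dep (fun v => ¬ bx e q g v) (H b)) ∧ Φ = ∑ b, F b * H b)
    (hδ : κ ^ w ≤ (Fintype.card S ^ w : ℕ) * 2) :
    ‖ip (tv (fun _ : Y => Ω)) Φ‖ ^ 2 ≤
      (1 - (κ ^ w / ((Fintype.card S ^ w : ℕ) * 2)) ^ 2) ^ n * normSq Φ := by
  classical
  set δ := κ ^ w / ((Fintype.card S ^ w : ℕ) * 2) with hδdef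
  have hSw : (0 : ℝ) < (Fintype.card S ^ w : ℕ) * 2 := by
    have : 0 < Fintype.card S ^ w := pow_pos hS w
    have h2 : (0 : ℝ) < ((Fintype.card S ^ w : ℕ) : ℝ) := by exact_mod_cast this
    linarith
  have hδ0 : 0 ≤ δ := div_nonneg (pow_nonneg hκ w) hSw.le
  have hδ1 : δ ≤ 1 := by rw [hδdef, div_le_one hSw]; exact hδ
  choose F H hF hH hΦ2 using hΦ
  set X := (Fin w × J → Fin 2)
  set x0 : Fin n → X := fun _ _ => 0
  set z0 : R' × J → Fin 2 := fun _ => 0
  set F' : ∀ g, ι g → X → ℂ := fun g b a => F g b ((cfg e).symm (Function.update x0 g a, z0)) with hF'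
  set W : Fin n → Submodule ℂ (X → ℂ) := fun g => Wsub (fun v : Fin w × J => q v.2) (F' g) with hW
  set ψ := tv (fun _ : Fin w => Ω) with hψ
  have hψ1 : normSq ψ = 1 := normSq_tv fun _ => h.unit
  have hbxin : ∀ (g : Fin n) (i : Fin w) (j : J), q j → bx e q g (e (Sum.inl (g, i)), j) :=
    fun g i j hj => ⟨⟨i, rfl⟩, hj⟩
  have hF'dep : ∀ g b, Dep (fun v : Fin w × J => q v.2) (F' g b) := by
    intro g b v hv a
    obtain ⟨i, j⟩ := v
    rw [hF']
    simp only []
    rw [cfg_flp]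
    apply hF g b
    intro hh
    exact hv hh.2
  have hWb : ∀ g, ∀ φ ∈ W g, ‖ip ψ φ‖ ^ 2 ≤ (1 - δ ^ 2) * normSq φ := by
    intro g
    apply overlap_of_dist ψ hψ1 (W g) δ hδ0
    rintro φ ⟨K, hK, rfl⟩ hn
    have := box_dist (Y := Fin w) hκ h (ι := ι g) (by rw [Fintype.card_fin]; exact hcard g) (F' g) K
      (hF'dep g) hK hn
    rw [Fintype.card_fin] at this
    rw [hδdef, div_le_iff₀ hSw]
    calc κ ^ w ≤ _ := this
      _ = _ := by ring
  have hslice : ∀ (zz : R' × J → Fin 2) (g : Fin n) (x : Fin n → X),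
      (fun a => Φ ((cfg e).symm (Function.update x g a, zz))) ∈ W g := by
    intro zz g x
    refine ⟨fun b a => H g b ((cfg e).symm (Function.update x g a, zz)), ?_, ?_⟩
    · intro b v hv a
      obtain ⟨i, j⟩ := v
      simp only []
      rw [cfg_flp]
      apply hH g b
      intro hh
      apply hh
      exact hbxin g i j (not_not.1 hv)
    · funext a
      rw [Finset.sum_apply]
      conv_lhs => rw [hΦ2 g]
      rw [Finset.sum_apply]
      refine Finset.sum_congr rfl fun b _ => ?_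
      rw [Pi.mul_apply, Pi.mul_apply]
      congr 1
      rw [hF']
      apply (hF g b).eq
      rintro ⟨y, j⟩ ⟨⟨i, hi⟩, hj⟩
      simp only [] at hi hj
      subst hi
      rw [cfg_inl, cfg_inl, Function.update_self, Function.update_self]
  have hamp : ∀ zz : R' × J → Fin 2, ‖ip (fun x : Fin n → X => ∏ g, ψ (x g))
      (fun x => Φ ((cfg e).symm (x, zz)))‖ ^ 2 ≤ (1 - δ ^ 2) ^ n *
        normSq (fun x : Fin n → X => Φ ((cfg e).symm (x, zz))) := by
    intro zz
    apply amplify ψ (1 - δ ^ 2) (by nlinarith) n W hWb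
    intro g x
    exact hslice zz g x
  have e1 : ip (tv (fun _ : Y => Ω)) Φ = ip (tv (fun _ : R' => Ω)) (fun zz =>
      ip (fun x : Fin n → X => ∏ g, ψ (x g)) (fun x => Φ ((cfg e).symm (x, zz)))) := by
    unfold ip
    rw [← (cfg e).symm.sum_comp, Fintype.sum_prod_type, Finset.sum_comm]
    refine Finset.sum_congr rfl fun zz _ => ?_
    rw [Finset.mul_sum]
    refine Finset.sum_congr rfl fun x _ => ?_
    rw [tv_cfg, map_mul]
    ring
  have e2 : normSq Φ = ∑ zz : R' × J → Fin 2, normSq (fun x : Fin n → X => Φ ((cfg e).symm (x, zz))) := by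
    unfold Pool.Agent.TH235.PP.normSq
    rw [← (cfg e).symm.sum_comp, Fintype.sum_prod_type, Finset.sum_comm]
  have hχ : normSq (tv (fun _ : R' => Ω)) = 1 := normSq_tv fun _ => h.unit
  have e3 := ip_cs (tv (fun _ : R' => Ω)) (fun zz =>
      ip (fun x : Fin n → X => ∏ g, ψ (x g)) (fun x => Φ ((cfg e).symm (x, zz))))
  rw [hχ, Real.sqrt_one, one_mul] at e3
  rw [e1]
  calc _ ≤ (Real.sqrt (normSq fun zz => ip (fun x : Fin n → X => ∏ g, ψ (x g))
        (fun x => Φ ((cfg e).symm (x, zz))))) ^ 2 := pow_le_pow_left₀ (norm_nonneg _) e3 2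
    _ = normSq fun zz => ip (fun x : Fin n → X => ∏ g, ψ (x g)) (fun x => Φ ((cfg e).symm (x, zz))) :=
        Real.sq_sqrt (nSq_nonneg _)
    _ ≤ ∑ zz : R' × J → Fin 2, (1 - δ ^ 2) ^ n *
        normSq (fun x : Fin n → X => Φ ((cfg e).symm (x, zz))) :=
        Finset.sum_le_sum fun zz _ => hamp zz
    _ = _ := by rw [← Finset.mul_sum, ← e2]

end torus

end Pool.Agent.K6.H5.PL
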