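import Pool.Agent.K6.H5.PL.Loc

/-! Distance of a product of rows from the vectors of small Schmidt rank. -/

set_option autoImplicit false
set_option linter.unusedSectionVars false

open scoped BigOperators Matrix InnerProductSpace
open Finset Matrix Complex Pool.Agent.TH235.PP

namespace Pool.Agent.K6.H5.PL

/-- A diagonal matrix with large entries is far from matrices of small rank. -/
lemma rank_lemma {S κ : Type*} [Fintype S] [DecidableEq S] [Fintype κ] (α β : κ → S → ℂ)
    (X : S → S → ℂ) (c η : ℝ) (hcard : Fintype.card κ < Fintype.card S)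
    (hd : ∀ s, c ≤ ‖X s s‖) (ho : ∀ s t, s ≠ t → X s t = 0)
    (hc : ∀ s t, ‖X s t - ∑ k, α k s * β k t‖ ≤ η) : c ≤ Fintype.card S * η := by
  classical
  set f : (S → ℂ) →ₗ[ℂ] (κ → ℂ) := Matrix.mulVecLin (Matrix.of fun k t => β k t) with hf
  have hker : LinearMap.ker f ≠ ⊥ := by
    apply LinearMap.ker_ne_bot_of_finrank_lt
    rw [Module.finrank_fintype_fun_eq_card, Module.finrank_fintype_fun_eq_card]
    exact hcard
  obtain ⟨v, hv, hv0⟩ := (Submodule.ne_bot_iff _).1 hker
  have hv1 : ∀ k, ∑ t, β k t * v t = 0 := fun k => congrFun (LinearMap.mem_ker.1 hv) k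
  have hne : Nonempty S := by
    by_contra hemp
    rw [not_nonempty_iff] at hemp
    exact hv0 (Subsingleton.elim _ _)
  obtain ⟨s, -, hs⟩ := Finset.exists_max_image Finset.univ (fun t => ‖v t‖) Finset.univ_nonempty
  have hpos : 0 < ‖v s‖ := by
    rcases (norm_nonneg (v s)).lt_or_eq with h | h
    · exact h
    · exfalso
      apply hv0
      funext t
      have := hs t (Finset.mem_univ t)
      rw [← h] at this
      simpa using this
  have h1 : X s s * v s = ∑ t, (X s t - ∑ k, α k s * β k t) * v t := by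
    have h2 : ∑ t, (∑ k, α k s * β k t) * v t = 0 := by
      calc ∑ t, (∑ k, α k s * β k t) * v t = ∑ t, ∑ k, α k s * (β k t * v t) := by
            refine Finset.sum_congr rfl fun t _ => ?_
            rw [Finset.sum_mul]
            exact Finset.sum_congr rfl fun k _ => by ring
        _ = ∑ k, α k s * ∑ t, β k t * v t := by
            rw [Finset.sum_comm]
            exact Finset.sum_congr rfl fun k _ => by rw [Finset.mul_sum]
        _ = 0 := Finset.sum_eq_zero fun k _ => by rw [hv1, mul_zero]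
    have h3 : ∑ t, X s t * v t = X s s * v s := by
      rw [Finset.sum_eq_single s]
      · intro t _ ht; rw [ho s t (Ne.symm ht), zero_mul]
      · intro h; exact absurd (Finset.mem_univ _) h
    rw [← h3, ← sub_zero (∑ t, X s t * v t), ← h2, ← Finset.sum_sub_distrib]
    exact Finset.sum_congr rfl fun t _ => by ring
  have h4 : c * ‖v s‖ ≤ (Fintype.card S * η) * ‖v s‖ := by
    calc c * ‖v s‖ ≤ ‖X s s‖ * ‖v s‖ := mul_le_mul_of_nonneg_right (hd s) (norm_nonneg _)
      _ = ‖∑ t, (X s t - ∑ k, α k s * β k t) * v t‖ := by rw [← norm_mul, h1]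
      _ ≤ ∑ t, ‖(X s t - ∑ k, α k s * β k t) * v t‖ := norm_sum_le _ _
      _ ≤ ∑ _t : S, η * ‖v s‖ := by
          refine Finset.sum_le_sum fun t _ => ?_
          rw [norm_mul]
          exact mul_le_mul (hc s t) (hs t (Finset.mem_univ t)) (norm_nonneg _)
            ((norm_nonneg _).trans (hc s t))
      _ = (Fintype.card S * η) * ‖v s‖ := by
          rw [Finset.sum_const, Finset.card_univ, nsmul_eq_mul]; ring
  exact le_of_mul_le_mul_right h4 hpos

section tens

variable {Y J : Type*} [Fintype Y] [DecidableEq Y] [Fintype J] [DecidableEq J]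

/-- a row of a configuration -/
def row (s : Y × J → Fin 2) (r : Y) : J → Fin 2 := fun j => s (r, j)

/-- tensor product of row operators -/
noncomputable def tens (X : Y → Matrix (J → Fin 2) (J → Fin 2) ℂ) :
    Matrix (Y × J → Fin 2) (Y × J → Fin 2) ℂ := fun s t => ∏ r, X r (row s r) (row t r)

/-- tensor product of row vectors -/
noncomputable def tv (x : Y → (J → Fin 2) → ℂ) : (Y × J → Fin 2) → ℂ := fun s => ∏ r, x r (row s r)

lemma tens_ap (X : Y → Matrix (J → Fin 2) (J → Fin 2) ℂ) (s t : Y × J → Fin 2) :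
    tens X s t = ∏ r, X r (row s r) (row t r) := rfl

lemma tv_ap (x : Y → (J → Fin 2) → ℂ) (s : Y × J → Fin 2) : tv x s = ∏ r, x r (row s r) := rfl

lemma sum_rows {R : Type*} [CommSemiring R] (f : Y → (J → Fin 2) → R) :
    ∑ s : Y × J → Fin 2, ∏ r, f r (row s r) = ∏ r, ∑ σ, f r σ := by
  rw [Finset.prod_univ_sum, Fintype.piFinset_univ, ← (Equiv.curry Y J (Fin 2)).sum_comp]
  rfl

lemma tens_mul (X X' : Y → Matrix (J → Fin 2) (J → Fin 2) ℂ) :
    tens X * tens X' = tens (fun r => X r * X' r) := by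
  ext s t
  rw [Matrix.mul_apply, tens_ap]
  simp only [Matrix.mul_apply]
  rw [← sum_rows]
  refine Finset.sum_congr rfl fun u _ => ?_
  rw [tens_ap, tens_ap, ← Finset.prod_mul_distrib]

lemma tens_mulVec (X : Y → Matrix (J → Fin 2) (J → Fin 2) ℂ) (x : Y → (J → Fin 2) → ℂ) :
    tens X *ᵥ tv x = tv (fun r => X r *ᵥ x r) := by
  funext s
  rw [mv, tv_ap]
  simp only [mv]
  rw [← sum_rows]
  refine Finset.sum_congr rfl fun u _ => ?_
  rw [tens_ap, tv_ap, ← Finset.prod_mul_distrib]

lemma ip_tv (x y : Y → (J → Fin 2) → ℂ) : ip (tv x) (tv y) = ∏ r, ip (x r) (y r) := by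
  unfold ip
  rw [← sum_rows]
  refine Finset.sum_congr rfl fun u _ => ?_
  rw [tv_ap, tv_ap, map_prod, ← Finset.prod_mul_distrib]

lemma tens_conj (X : Y → Matrix (J → Fin 2) (J → Fin 2) ℂ) :
    (tens X)ᴴ = tens (fun r => (X r)ᴴ) := by
  ext s t
  rw [Matrix.conjTranspose_apply, tens_ap, tens_ap, star_prod]
  rfl

lemma row_ext {s t : Y × J → Fin 2} (h : ∀ r, row s r = row t r) : s = t := by
  funext v
  exact congrFun (h v.1) v.2

lemma tens_one : tens (fun _ : Y => (1 : Matrix (J → Fin 2) (J → Fin 2) ℂ)) = 1 := by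
  ext s t
  rw [tens_ap]
  by_cases h : s = t
  · subst h; simp
  · rw [Matrix.one_apply_ne h]
    obtain ⟨r, hr⟩ : ∃ r, row s r ≠ row t r := by
      by_contra hall
      push Not at hall
      exact h (row_ext hall)
    exact Finset.prod_eq_zero (Finset.mem_univ r) (Matrix.one_apply_ne hr)

lemma row_flp (r r' : Y) (j : J) (s : Y × J → Fin 2) :
    row (flp (r, j) s) r' = if r' = r then flp j (row s r') else row s r' := by
  funext i
  by_cases h : r' = r
  · subst h
    rw [if_pos rfl]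
    by_cases hi : i = j
    · subst hi
      rw [flp_same]
      show flp (r', i) s (r', i) = _
      rw [flp_same]; rfl
    · rw [flp_ne hi]
      show flp (r', j) s (r', i) = _
      rw [flp_ne (by intro hh; exact hi (Prod.ext_iff.1 hh).2)]; rfl
  · rw [if_neg h]
    show flp (r, j) s (r', i) = _
    rw [flp_ne (by intro hh; exact h (Prod.ext_iff.1 hh).1)]; rfl

lemma loc_tens {q : J → Prop} {X : Y → Matrix (J → Fin 2) (J → Fin 2) ℂ} (h : ∀ r, Loc q (X r)) :
    Loc (fun v : Y × J => q v.2) (tens X) where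
  inv v hv s t := by
    obtain ⟨r, j⟩ := v
    rw [tens_ap, tens_ap]
    refine Finset.prod_congr rfl fun r' _ => ?_
    rw [row_flp, row_flp]
    split_ifs with hr
    · exact (h r').inv j hv _ _
    · rfl
  van v hv s t hst := by
    obtain ⟨r, j⟩ := v
    rw [tens_ap]
    exact Finset.prod_eq_zero (Finset.mem_univ r) ((h r).van j hv _ _ hst)

end tens

/-- Operators on both sides of a cut of a row whose expectation values form a diagonal matrix. -/
structure RowData {J S : Type*} [Fintype J] [DecidableEq J] (q : J → Prop)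
    (Ω : (J → Fin 2) → ℂ) (κ : ℝ) (A B : S → Matrix (J → Fin 2) (J → Fin 2) ℂ) : Prop where
  unit : normSq Ω = 1
  uA : ∀ s, (A s)ᴴ * A s = 1
  uB : ∀ s, (B s)ᴴ * B s = 1
  lA : ∀ s, Loc q (A s)
  lB : ∀ s, Loc (fun j => ¬ q j) (B s)
  diag : ∀ s, κ ≤ ‖om Ω (A s * B s)‖
  off : ∀ s t, s ≠ t → om Ω (A s * B t) = 0

section box

variable {Y J S : Type*} [Fintype Y] [DecidableEq Y] [Fintype J] [DecidableEq J] [Fintype S]
  [DecidableEq S]

lemma normSq_tv {x : Y → (J → Fin 2) → ℂ} (h : ∀ r, normSq (x r) = 1) : normSq (tv x) = 1 := by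
  have h1 := ip_self (tv x)
  rw [ip_tv, Finset.prod_congr rfl fun r _ => by rw [ip_self, h r]] at h1
  simp only [Complex.ofReal_one, Finset.prod_const_one] at h1
  exact_mod_cast h1.symm

lemma nr_unit {n : Type*} [Fintype n] [DecidableEq n] {U : Matrix n n ℂ} (hU : Uᴴ * U = 1)
    (x : n → ℂ) : nr (U *ᵥ x) = nr x := by
  have h := nSq_unit hU x
  rw [← nr_sq, ← nr_sq] at h
  exact (sq_eq_sq₀ (nr_nonneg _) (nr_nonneg _)).1 h

lemma ip_le_nr {n : Type*} [Fintype n] [DecidableEq n] (x y : n → ℂ) : ‖ip x y‖ ≤ nr x * nr y := by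
  have h := ip_cs x y
  rw [← nr_sq, ← nr_sq, Real.sqrt_sq (nr_nonneg x), Real.sqrt_sq (nr_nonneg y)] at h
  exact h

theorem box_dist {q : J → Prop} {Ω : (J → Fin 2) → ℂ} {κ : ℝ} (hκ : 0 ≤ κ)
    {A B : S → Matrix (J → Fin 2) (J → Fin 2) ℂ} (h : RowData q Ω κ A B)
    {ι : Type*} [Fintype ι] (hcard : Fintype.card ι ^ 2 < Fintype.card S ^ Fintype.card Y)
    (F H : ι → (Y × J → Fin 2) → ℂ) (hF : ∀ b, Dep (fun v : Y × J => q v.2) (F b))
    (hH : ∀ b, Dep (fun v : Y × J => ¬ q v.2) (H b))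
    (hn : normSq (∑ b, F b * H b) ≤ 1) :
    κ ^ Fintype.card Y ≤ (Fintype.card S ^ Fintype.card Y : ℕ) *
      (2 * nr (tv (fun _ : Y => Ω) - ∑ b, F b * H b)) := by
  classical
  set ψ := tv (fun _ : Y => Ω) with hψ
  set φ := ∑ b, F b * H b with hφ
  set AA : (Y → S) → Matrix (Y × J → Fin 2) (Y × J → Fin 2) ℂ := fun s => tens fun r => A (s r) with hAA
  set BB : (Y → S) → Matrix (Y × J → Fin 2) (Y × J → Fin 2) ℂ := fun s => tens fun r => B (s r) with hBB
  have hAu : ∀ s, (AA s)ᴴ * AA s = 1 := by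
    intro s
    rw [hAA]
    simp only []
    rw [tens_conj, tens_mul, ← tens_one]
    congr 1
    funext r
    exact h.uA _
  have hBu : ∀ s, (BB s)ᴴ * BB s = 1 := by
    intro s
    rw [hBB]
    simp only []
    rw [tens_conj, tens_mul, ← tens_one]
    congr 1
    funext r
    exact h.uB _
  have hAl : ∀ s, Loc (fun v : Y × J => q v.2) (AA s) := fun s => loc_tens fun r => h.lA _
  have hBl : ∀ s, Loc (fun v : Y × J => ¬ q v.2) (BB s) := fun s => loc_tens fun r => h.lB _
  have hψ1 : normSq ψ = 1 := normSq_tv fun _ => h.unit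
  have hX : ∀ s t, om ψ (AA s * BB t) = ∏ r, om Ω (A (s r) * B (t r)) := by
    intro s t
    rw [hAA, hBB]
    simp only []
    unfold om
    rw [tens_mul, hψ, tens_mulVec, ip_tv]
  -- the low rank form
  set c0 : ℂ := (Fintype.card (Y × J → Fin 2) : ℂ) with hc0
  have hc0ne : c0 ≠ 0 := by
    rw [hc0]
    exact_mod_cast Fintype.card_ne_zero
  have hlow : ∀ s t, om φ (AA s * BB t) = ∑ k : ι × ι,
      (c0⁻¹ * ip (F k.1) (AA s *ᵥ F k.2)) * ip (H k.1) (BB t *ᵥ H k.2) := by
    intro s t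
    have e1 : (AA s * BB t) *ᵥ φ = ∑ b, (AA s *ᵥ F b) * (BB t *ᵥ H b) := by
      rw [hφ, Matrix.mulVec_sum]
      refine Finset.sum_congr rfl fun b _ => ?_
      rw [← Matrix.mulVec_mulVec, mul_comm (F b) (H b), (hBl t).mul, mul_comm _ (F b), (hAl s).mul]
      · exact (hBl t).dep (hH b)
      · intro j hj
        exact hF b j (fun hh => hj (not_not.2 hh))
    have e2 : ∀ x : (Y × J → Fin 2) → ℂ, ip φ x = ∑ b, ip (F b * H b) x := by
      intro x
      rw [hφ, ← ip_conj, ip_sum_r, map_sum]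
      exact Finset.sum_congr rfl fun b _ => by rw [ip_conj]
    unfold om
    rw [e1, e2, Fintype.sum_prod_type]
    refine Finset.sum_congr rfl fun b _ => ?_
    rw [ip_sum_r]
    refine Finset.sum_congr rfl fun b' _ => ?_
    have e3 := indep (q := fun v : Y × J => q v.2) (f := fun x => (starRingEnd ℂ) (F b x) * (AA s *ᵥ F b') x)
      (g := fun x => (starRingEnd ℂ) (H b x) * (BB t *ᵥ H b') x)
      ((hF b).conj.mul ((hAl s).dep (hF b'))) ((hH b).conj.mul ((hBl t).dep (hH b')))
    have e4 : ip (F b * H b) (AA s *ᵥ F b' * BB t *ᵥ H b') = ∑ x, ((starRingEnd ℂ) (F b x) * (AA s *ᵥ F b') x) *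
        ((starRingEnd ℂ) (H b x) * (BB t *ᵥ H b') x) := by
      unfold ip
      refine Finset.sum_congr rfl fun x _ => ?_
      rw [Pi.mul_apply, Pi.mul_apply, map_mul]
      ring
    rw [e4]
    have e5 : ∑ x, ((starRingEnd ℂ) (F b x) * (AA s *ᵥ F b') x) * ((starRingEnd ℂ) (H b x) * (BB t *ᵥ H b') x) =
        c0⁻¹ * (c0 * ∑ x, ((starRingEnd ℂ) (F b x) * (AA s *ᵥ F b') x) * ((starRingEnd ℂ) (H b x) * (BB t *ᵥ H b') x)) := by
      rw [← mul_assoc, inv_mul_cancel₀ hc0ne, one_mul]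
    rw [e5, hc0, e3]
    unfold ip
    ring
  have hclose : ∀ s t, ‖om ψ (AA s * BB t) - om φ (AA s * BB t)‖ ≤ 2 * nr (ψ - φ) := by
    intro s t
    set O := AA s * BB t with hO
    have hOu : Oᴴ * O = 1 := by
      rw [hO, conjTranspose_mul, Matrix.mul_assoc, ← Matrix.mul_assoc (AA s)ᴴ, hAu, Matrix.one_mul, hBu]
    have e1 : om ψ O - om φ O = ip (ψ - φ) (O *ᵥ ψ) + ip φ (O *ᵥ (ψ - φ)) := by
      unfold om
      rw [Matrix.mulVec_sub, ip_sub_r, ip_sub_l]
      ring
    have hn1 : nr ψ = 1 := by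
      have := nr_sq ψ
      rw [hψ1] at this
      nlinarith [nr_nonneg ψ]
    have hn2 : nr φ ≤ 1 := by
      have := nr_sq φ
      nlinarith [nr_nonneg φ]
    rw [e1]
    refine (norm_add_le _ _).trans ?_
    have e2 := ip_le_nr (ψ - φ) (O *ᵥ ψ)
    have e3 := ip_le_nr φ (O *ᵥ (ψ - φ))
    rw [nr_unit hOu, hn1] at e2
    rw [nr_unit hOu] at e3
    nlinarith [nr_nonneg (ψ - φ), nr_nonneg φ]
  have key := rank_lemma (S := Y → S) (κ := ι × ι) (fun k s => c0⁻¹ * ip (F k.1) (AA s *ᵥ F k.2))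
    (fun k t => ip (H k.1) (BB t *ᵥ H k.2)) (fun s t => om ψ (AA s * BB t)) (κ ^ Fintype.card Y)
    (2 * nr (ψ - φ)) ?_ ?_ ?_ ?_
  · rw [Fintype.card_fun] at key
    exact key
  · rw [Fintype.card_prod, Fintype.card_fun, ← pow_two]; exact hcard
  · intro s
    rw [hX, norm_prod, ← Finset.card_univ, ← Finset.prod_const]
    exact Finset.prod_le_prod (fun _ _ => hκ) fun r _ => h.diag _
  · intro s t hst
    rw [hX]
    obtain ⟨r, hr⟩ : ∃ r, s r ≠ t r := by
      by_contra hall
      push Not at hall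
      exact hst (funext hall)
    exact Finset.prod_eq_zero (Finset.mem_univ r) (h.off _ _ hr)
  · intro s t
    rw [← hlow]
    exact hclose s t

end box

end Pool.Agent.K6.H5.PL
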