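import Mathlib

/-! Clifford systems of matrices and the implementation of rotations. -/

set_option autoImplicit false
set_option linter.unusedSectionVars false

open scoped BigOperators Matrix InnerProductSpace
open Finset Matrix

namespace Pool.Agent.K6.H5.PL

variable {n K : Type*} [Fintype n] [DecidableEq n] [Fintype K] [DecidableEq K]

/-- Hermitian anticommuting involutions -/
structure Cliff (e : K → Matrix n n ℂ) : Prop where
  herm : ∀ k, (e k)ᴴ = e k
  anti : ∀ k l, e k * e l + e l * e k = if k = l then 2 else 0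

/-- the Clifford element of a vector -/
noncomputable def cl (e : K → Matrix n n ℂ) (v : EuclideanSpace ℝ K) : Matrix n n ℂ :=
  ∑ k, ((v k : ℝ) : ℂ) • e k

lemma cl_add (e : K → Matrix n n ℂ) (v w : EuclideanSpace ℝ K) :
    cl e (v + w) = cl e v + cl e w := by
  unfold cl
  rw [← Finset.sum_add_distrib]
  refine Finset.sum_congr rfl fun k _ => ?_
  rw [← add_smul]
  congr 1
  push_cast [PiLp.add_apply]
  rfl

lemma cl_smul (e : K → Matrix n n ℂ) (a : ℝ) (v : EuclideanSpace ℝ K) :
    cl e (a • v) = (a : ℂ) • cl e v := by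
  unfold cl
  rw [Finset.smul_sum]
  refine Finset.sum_congr rfl fun k _ => ?_
  rw [smul_smul]
  congr 1
  push_cast [PiLp.smul_apply, smul_eq_mul]
  rfl

lemma cl_sub (e : K → Matrix n n ℂ) (v w : EuclideanSpace ℝ K) :
    cl e (v - w) = cl e v - cl e w := by
  rw [sub_eq_add_neg, ← neg_one_smul ℝ w, cl_add, cl_smul]
  simp [sub_eq_add_neg]

lemma cl_zero (e : K → Matrix n n ℂ) : cl e 0 = 0 := by
  unfold cl; simp

lemma cl_sum {ι : Type*} (e : K → Matrix n n ℂ) (s : Finset ι) (f : ι → EuclideanSpace ℝ K) :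
    cl e (∑ i ∈ s, f i) = ∑ i ∈ s, cl e (f i) := by
  classical
  induction s using Finset.induction_on with
  | empty => simp [cl_zero]
  | insert a s ha ih => rw [Finset.sum_insert ha, Finset.sum_insert ha, cl_add, ih]

lemma cl_single (e : K → Matrix n n ℂ) (k : K) :
    cl e (EuclideanSpace.single k 1) = e k := by
  unfold cl
  rw [Finset.sum_eq_single k]
  · simp
  · intro l _ hl
    simp [hl]
  · intro h; exact absurd (Finset.mem_univ k) h

lemma cl_herm {e : K → Matrix n n ℂ} (he : Cliff e) (v : EuclideanSpace ℝ K) :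
    (cl e v)ᴴ = cl e v := by
  unfold cl
  rw [conjTranspose_sum]
  refine Finset.sum_congr rfl fun k _ => ?_
  rw [conjTranspose_smul, he.herm]
  congr 1
  exact Complex.conj_ofReal _

lemma cl_anti {e : K → Matrix n n ℂ} (he : Cliff e) (v w : EuclideanSpace ℝ K) :
    cl e v * cl e w + cl e w * cl e v = ((2 * ⟪v, w⟫_ℝ : ℝ) : ℂ) • (1 : Matrix n n ℂ) := by
  have h1 : cl e v * cl e w = ∑ k, ∑ l, (((v k : ℝ) : ℂ) * ((w l : ℝ) : ℂ)) • (e k * e l) := by
    unfold cl
    rw [Finset.sum_mul_sum]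
    refine Finset.sum_congr rfl fun k _ => Finset.sum_congr rfl fun l _ => ?_
    rw [smul_mul_smul_comm]
  have h2 : cl e w * cl e v = ∑ k, ∑ l, (((v k : ℝ) : ℂ) * ((w l : ℝ) : ℂ)) • (e l * e k) := by
    unfold cl
    rw [Finset.sum_mul_sum, Finset.sum_comm]
    refine Finset.sum_congr rfl fun k _ => Finset.sum_congr rfl fun l _ => ?_
    rw [smul_mul_smul_comm, mul_comm]
  rw [h1, h2, ← Finset.sum_add_distrib]
  have h3 : ∀ k, ((∑ l, (((v k : ℝ) : ℂ) * ((w l : ℝ) : ℂ)) • (e k * e l)) +
      ∑ l, (((v k : ℝ) : ℂ) * ((w l : ℝ) : ℂ)) • (e l * e k)) =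
      ((2 * (v k * w k) : ℝ) : ℂ) • (1 : Matrix n n ℂ) := by
    intro k
    rw [← Finset.sum_add_distrib, Finset.sum_eq_single k]
    · rw [← smul_add, he.anti, if_pos rfl]
      have : (2 : Matrix n n ℂ) = (2 : ℂ) • (1 : Matrix n n ℂ) := by
        rw [two_smul]; norm_num
      rw [this, smul_smul]
      congr 1
      push_cast; ring
    · intro l _ hl
      rw [← smul_add, he.anti, if_neg (Ne.symm hl), smul_zero]
    · intro h; exact absurd (Finset.mem_univ k) h
  rw [Finset.sum_congr rfl fun k _ => h3 k, ← Finset.sum_smul]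
  congr 1
  rw [← Complex.ofReal_sum, ← Finset.mul_sum]
  congr 2
  rw [PiLp.inner_apply]
  refine Finset.sum_congr rfl fun k _ => ?_
  simp [mul_comm]

lemma cl_sq {e : K → Matrix n n ℂ} (he : Cliff e) (v : EuclideanSpace ℝ K) :
    cl e v * cl e v = ((⟪v, v⟫_ℝ : ℝ) : ℂ) • (1 : Matrix n n ℂ) := by
  have h := cl_anti he v v
  have h2 : (2 : ℂ) • (cl e v * cl e v) = (2 : ℂ) • (((⟪v, v⟫_ℝ : ℝ) : ℂ) • (1 : Matrix n n ℂ)) := by
    rw [two_smul, h, smul_smul]
    push_cast; rfl
  have h3 := congrArg (fun M => (2 : ℂ)⁻¹ • M) h2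
  simpa [smul_smul] using h3

lemma cl_anti_of {e : K → Matrix n n ℂ} {N : Matrix n n ℂ} (hN : ∀ k, N * e k = -(e k * N))
    (v : EuclideanSpace ℝ K) : N * cl e v = -(cl e v * N) := by
  unfold cl
  rw [Finset.mul_sum, Finset.sum_mul, ← Finset.sum_neg_distrib]
  refine Finset.sum_congr rfl fun k _ => ?_
  rw [mul_smul_comm, hN, smul_mul_assoc, smul_neg]

/-- Rotations are implemented by unitary matrices which are products of Clifford elements. -/
theorem rot {e : K → Matrix n n ℂ} (he : Cliff e)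
    (φ : EuclideanSpace ℝ K ≃ₗᵢ[ℝ] EuclideanSpace ℝ K) :
    ∃ (U : Matrix n n ℂ) (s : ℝ), Uᴴ * U = 1 ∧ U * Uᴴ = 1 ∧
      s = LinearMap.det φ.toLinearEquiv.toLinearMap ∧ s * s = 1 ∧
      (∀ v, U * cl e v = (s : ℂ) • (cl e (φ v) * U)) ∧
      ∀ N : Matrix n n ℂ, (∀ k, N * e k = -(e k * N)) → U * N = (s : ℂ) • (N * U) := by
  obtain ⟨l, -, rfl⟩ := φ.reflections_generate_dim
  induction l with
  | nil =>
    refine ⟨1, 1, by simp, by simp, ?_, by simp, ?_, ?_⟩
    · simp only [List.map_nil, List.prod_nil]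
      symm
      exact LinearMap.det_id
    · intro v
      simp only [List.map_nil, List.prod_nil, one_mul, mul_one, Complex.ofReal_one, one_smul]
      rfl
    · intro N _
      simp
  | cons v₀ l ih =>
    obtain ⟨U, s, hU1, hU2, hs, hss, hUc, hUN⟩ := ih
    set ψ := (l.map fun v => (ℝ ∙ v)ᗮ.reflection).prod with hψ
    have hcons : (List.map (fun v => (ℝ ∙ v)ᗮ.reflection) (v₀ :: l)).prod =
        (ℝ ∙ v₀)ᗮ.reflection * ψ := by
      rw [List.map_cons, List.prod_cons]
    rw [hcons]
    have hdet : LinearMap.det ((ℝ ∙ v₀)ᗮ.reflection * ψ).toLinearEquiv.toLinearMap =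
        LinearMap.det (ℝ ∙ v₀)ᗮ.reflection.toLinearMap * LinearMap.det ψ.toLinearEquiv.toLinearMap := by
      rw [← LinearMap.det_comp]
      rfl
    by_cases hv : v₀ = 0
    · subst hv
      refine ⟨U, s, hU1, hU2, ?_, hss, ?_, hUN⟩
      · rw [hdet, ← hs, Submodule.det_reflection]
        have : ((ℝ ∙ (0 : EuclideanSpace ℝ K))ᗮ)ᗮ = ⊥ := by simp
        rw [this]
        simp
      · intro v
        rw [hUc]
        congr 3
        have : (ℝ ∙ (0 : EuclideanSpace ℝ K))ᗮ = ⊤ := by simp
        show ψ v = (ℝ ∙ (0 : EuclideanSpace ℝ K))ᗮ.reflection (ψ v)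
        rw [Submodule.reflection_mem_subspace_eq_self]
        rw [this]
        exact Submodule.mem_top
    · have hn : ‖v₀‖ ≠ 0 := norm_ne_zero_iff.2 hv
      set u := (‖v₀‖⁻¹ : ℝ) • v₀ with hu
      have huu : ⟪u, u⟫_ℝ = 1 := by
        rw [hu, inner_smul_left, inner_smul_right, real_inner_self_eq_norm_sq]
        simp only [conj_trivial]
        field_simp
      have hrefl : ∀ w, (ℝ ∙ v₀)ᗮ.reflection w = w - (2 * ⟪u, w⟫_ℝ) • u := by
        intro w
        rw [Submodule.reflection_orthogonal_apply, Submodule.reflection_singleton_apply, hu,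
          inner_smul_left, smul_smul]
        simp only [conj_trivial, RCLike.ofReal_real_eq_id, id]
        rw [neg_sub, ← smul_assoc]
        congr 2
        simp only [nsmul_eq_mul, Nat.cast_ofNat]
        field_simp
      clear_value u
      have hcu : cl e u * cl e u = 1 := by rw [cl_sq he, huu]; simp
      have hcr : ∀ w, cl e u * cl e w = (-1 : ℂ) • (cl e ((ℝ ∙ v₀)ᗮ.reflection w) * cl e u) := by
        intro w
        rw [hrefl, cl_sub, cl_smul, sub_mul, smul_mul_assoc, hcu]
        have := cl_anti he u w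
        rw [← this]
        simp
      refine ⟨cl e u * U, -s, ?_, ?_, ?_, by simpa using hss, ?_, ?_⟩
      · rw [conjTranspose_mul, cl_herm he, Matrix.mul_assoc, ← Matrix.mul_assoc (cl e u), hcu,
          Matrix.one_mul, hU1]
      · rw [conjTranspose_mul, cl_herm he, Matrix.mul_assoc, ← Matrix.mul_assoc U, hU2,
          Matrix.one_mul, hcu]
      · rw [hdet, ← hs, Submodule.det_reflection, Submodule.orthogonal_orthogonal,
          finrank_span_singleton hv]
        simp
      · intro v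
        rw [Matrix.mul_assoc, hUc, mul_smul_comm, ← Matrix.mul_assoc, hcr, smul_mul_assoc, smul_smul,
          Matrix.mul_assoc]
        congr 1
        push_cast; ring
      · intro N hN
        rw [Matrix.mul_assoc, hUN N hN, mul_smul_comm, ← Matrix.mul_assoc, ← Matrix.mul_assoc,
          cl_anti_of hN]
        simp

end Pool.Agent.K6.H5.PL
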