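import Pool.Agent.K6.H5.PL.Ent

/-! Lower bound for the determinant of a block of the correlation matrix. -/

set_option autoImplicit false
set_option linter.unusedSectionVars false

open scoped BigOperators Matrix InnerProductSpace
open Finset Matrix

namespace Pool.Agent.K6.H5.PL

/-! ### binomial coefficients -/

lemma dd_binom (n : ℕ) : dd n * 4 ^ n = ((2 * n).choose n : ℝ) := by
  induction n with
  | zero => simp [dd_zero]
  | succ n ih =>
    have h1 := Nat.succ_mul_centralBinom_succ n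
    unfold Nat.centralBinom at h1
    have h2 : ((n : ℝ) + 1) * ((2 * (n + 1)).choose (n + 1) : ℝ) = 2 * (2 * n + 1) * ((2 * n).choose n : ℝ) := by
      exact_mod_cast h1
    have h3 := dd_succ n
    have h4 : ((n : ℝ) + 1) ≠ 0 := by positivity
    apply mul_left_cancel₀ h4
    rw [h2, ← ih, pow_succ]
    linear_combination 2 * 4 ^ n * h3

/-- coefficients of the triangular factor -/
def Bc (i k : ℕ) : ℕ := (2 * i + 1).choose (i + 1 + k)

lemma Bc_zero {i k : ℕ} (h : i < k) : Bc i k = 0 := Nat.choose_eq_zero_of_lt (by omega)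

lemma Bc_diag (i : ℕ) : Bc i i = 1 := by
  unfold Bc
  have : i + 1 + i = 2 * i + 1 := by omega
  rw [this, Nat.choose_self]

lemma binom_split (i j : ℕ) : (2 * (i + j + 1)).choose (i + j + 1) =
    2 * ∑ k ∈ Finset.range (i + j + 1), Bc i k * Bc j k := by
  have h0 : 2 * (i + j + 1) = (2 * i + 1) + (2 * j + 1) := by omega
  rw [h0, Nat.add_choose_eq, Finset.Nat.sum_antidiagonal_eq_sum_range_succ_mk]
  simp only []
  have h1 : (i + j + 1).succ = (i + 1) + (j + 1) := by omega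
  rw [h1, Finset.sum_range_add, two_mul (∑ k ∈ Finset.range (i + j + 1), Bc i k * Bc j k)]
  have trunc : ∀ (m M : ℕ) (f : ℕ → ℕ), m ≤ M → (∀ k, m ≤ k → f k = 0) →
      ∑ k ∈ Finset.range M, f k = ∑ k ∈ Finset.range m, f k := by
    intro m M f hm hf
    symm
    apply Finset.sum_subset (Finset.range_mono hm)
    intro k _ hk
    rw [Finset.mem_range, not_lt] at hk
    exact hf k hk
  congr 1
  · rw [trunc (i + 1) (i + j + 1) (fun k => Bc i k * Bc j k) (by omega)
      (fun k hk => by rw [Bc_zero (by omega), zero_mul]),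
      ← Finset.sum_range_reflect (fun k => Bc i k * Bc j k) (i + 1)]
    refine Finset.sum_congr rfl fun k hk => ?_
    rw [Finset.mem_range] at hk
    unfold Bc
    have a1 : i + 1 - 1 - k = i - k := by omega
    have a2 : i + j + 1 - k = j + 1 + (i - k) := by omega
    rw [a1, a2]
    congr 1
    apply Nat.choose_symm_of_eq_add
    omega
  · rw [trunc (j + 1) (i + j + 1) (fun k => Bc i k * Bc j k) (by omega)
      (fun k hk => by rw [Bc_zero (i := j) (by omega), mul_zero])]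
    refine Finset.sum_congr rfl fun k hk => ?_
    rw [Finset.mem_range] at hk
    unfold Bc
    congr 1
    have a1 : i + j + 1 - (i + 1 + k) = j - k := by omega
    rw [a1]
    apply Nat.choose_symm_of_eq_add
    omega

lemma dd_fac {w i j : ℕ} (hi : i < w) (hj : j < w) :
    dd (i + j + 1) * (2 * 4 ^ (i + j)) = ∑ k : Fin w, (Bc i k : ℝ) * (Bc j k : ℝ) := by
  have h1 := dd_binom (i + j + 1)
  rw [binom_split] at h1
  have h2 : ∑ k ∈ Finset.range (i + j + 1), Bc i k * Bc j k = ∑ k : Fin w, Bc i k * Bc j k := by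
    rw [Fin.sum_univ_eq_sum_range (fun k => Bc i k * Bc j k) w]
    rcases le_total w (i + j + 1) with h | h
    · symm
      apply Finset.sum_subset (Finset.range_mono h)
      intro k _ hk
      rw [Finset.mem_range, not_lt] at hk
      rw [Bc_zero (by omega), zero_mul]
    · apply Finset.sum_subset (Finset.range_mono h)
      intro k _ hk
      rw [Finset.mem_range, not_lt] at hk
      rw [Bc_zero (by omega), zero_mul]
  rw [h2] at h1
  push_cast at h1
  have h3 : (4 : ℝ) ^ (i + j + 1) = 4 * 4 ^ (i + j) := by rw [pow_succ]; ring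
  rw [h3] at h1
  linear_combination h1 / 2

/-! ### positivity of Hankel forms -/

open Real in
lemma hank_int {w : ℕ} (y : Fin w → ℝ) (c : ℕ) :
    π * ∑ i, ∑ j, y i * y j * dd (c + i + j) =
      ∫ x in (0 : ℝ)..π, (∑ i : Fin w, y i * sin x ^ (2 * (i : ℕ))) ^ 2 * sin x ^ (2 * c) := by
  have h1 : ∀ x : ℝ, (∑ i : Fin w, y i * sin x ^ (2 * (i : ℕ))) ^ 2 * sin x ^ (2 * c) =
      ∑ i : Fin w, ∑ j : Fin w, y i * y j * sin x ^ (2 * (c + i + j)) := by
    intro x
    rw [pow_two, Finset.sum_mul_sum, Finset.sum_mul]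
    refine Finset.sum_congr rfl fun i _ => ?_
    rw [Finset.sum_mul]
    refine Finset.sum_congr rfl fun j _ => ?_
    have : 2 * (c + (i : ℕ) + j) = 2 * (i : ℕ) + 2 * (j : ℕ) + 2 * c := by ring
    rw [this, pow_add, pow_add]
    ring
  simp_rw [h1]
  have hc : ∀ (n : ℕ) (r : ℝ), IntervalIntegrable (fun x => r * sin x ^ n) MeasureTheory.volume 0 π := by
    intro n r
    apply Continuous.intervalIntegrable
    fun_prop
  rw [intervalIntegral.integral_finsetSum]
  · rw [Finset.mul_sum]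
    refine Finset.sum_congr rfl fun i _ => ?_
    rw [intervalIntegral.integral_finsetSum]
    · rw [Finset.mul_sum]
      refine Finset.sum_congr rfl fun j _ => ?_
      rw [intervalIntegral.integral_const_mul, integral_sin_pow_even]
      unfold dd
      ring
    · intro j _
      exact hc _ _
  · intro i _
    apply Continuous.intervalIntegrable
    fun_prop

lemma hank_nonneg {w : ℕ} (y : Fin w → ℝ) (c : ℕ) : 0 ≤ ∑ i, ∑ j, y i * y j * dd (c + i + j) := by
  have h := hank_int y c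
  have h2 : 0 ≤ ∫ x in (0 : ℝ)..Real.pi, (∑ i : Fin w, y i * Real.sin x ^ (2 * (i : ℕ))) ^ 2 *
      Real.sin x ^ (2 * c) := by
    apply intervalIntegral.integral_nonneg Real.pi_pos.le
    intro x _
    apply mul_nonneg (sq_nonneg _)
    rw [pow_mul]
    positivity
  rw [← h] at h2
  exact nonneg_of_mul_nonneg_right (by linarith) Real.pi_pos

lemma hank_diff {w : ℕ} (y : Fin w → ℝ) (c : ℕ) :
    0 ≤ ∑ i, ∑ j, y i * y j * (dd (c + i + j) - dd (c + i + j + 1)) := by
  have h := hank_int y c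
  have h' := hank_int y (c + 1)
  have h2 : (∫ x in (0 : ℝ)..Real.pi, (∑ i : Fin w, y i * Real.sin x ^ (2 * (i : ℕ))) ^ 2 *
      Real.sin x ^ (2 * (c + 1))) ≤ ∫ x in (0 : ℝ)..Real.pi, (∑ i : Fin w, y i * Real.sin x ^ (2 * (i : ℕ))) ^ 2 *
      Real.sin x ^ (2 * c) := by
    apply intervalIntegral.integral_mono_on Real.pi_pos.le
    · apply Continuous.intervalIntegrable
      fun_prop
    · apply Continuous.intervalIntegrable
      fun_prop
    · intro x _
      apply mul_le_mul_of_nonneg_left _ (sq_nonneg _)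
      rw [mul_add, pow_add, mul_one]
      have h3 : Real.sin x ^ 2 ≤ 1 := Real.sin_sq_le_one x
      have h4 : 0 ≤ Real.sin x ^ (2 * c) := by rw [pow_mul]; positivity
      nlinarith
  rw [← h, ← h'] at h2
  have h5 : ∑ i, ∑ j, y i * y j * dd (c + 1 + i + j) ≤ ∑ i, ∑ j, y i * y j * dd (c + i + j) :=
    le_of_mul_le_mul_left h2 Real.pi_pos
  have h6 : ∑ i, ∑ j, y i * y j * (dd (c + i + j) - dd (c + i + j + 1)) =
      ∑ i, ∑ j, y i * y j * dd (c + i + j) - ∑ i, ∑ j, y i * y j * dd (c + 1 + i + j) := by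
    rw [← Finset.sum_sub_distrib]
    refine Finset.sum_congr rfl fun i _ => ?_
    rw [← Finset.sum_sub_distrib]
    refine Finset.sum_congr rfl fun j _ => ?_
    have : c + 1 + (i : ℕ) + j = c + i + j + 1 := by ring
    rw [this]
    ring
  rw [h6]
  linarith

/-- the approximate block -/
noncomputable def Tm (lam : ℝ) (N w : ℕ) : Matrix (Fin w) (Fin w) ℝ := fun i j => Tn lam N (i + j + 1)

/-- the triangular factor -/
noncomputable def Fm (lam : ℝ) (w : ℕ) : Matrix (Fin w) (Fin w) ℝ := fun i k =>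
  Real.sqrt (lam * (1 - lam ^ 2) / 2) * (lam / 4) ^ (i : ℕ) * (Bc i k : ℝ)

lemma Fm_mul {lam : ℝ} (h0 : 0 < lam) (h1 : lam < 1) {w : ℕ} (i j : Fin w) :
    (Fm lam w * (Fm lam w)ᵀ) i j = lam * (1 - lam ^ 2) * lam ^ ((i : ℕ) + j) * dd (i + j + 1) := by
  have hc : 0 ≤ lam * (1 - lam ^ 2) / 2 := by
    have : lam ^ 2 < 1 := by nlinarith
    have : 0 < lam * (1 - lam ^ 2) := mul_pos h0 (by linarith)
    linarith
  rw [Matrix.mul_apply]
  have e : ∀ k : Fin w, Fm lam w i k * (Fm lam w)ᵀ k j =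
      (lam * (1 - lam ^ 2) / 2) * (lam / 4) ^ ((i : ℕ) + j) * ((Bc i k : ℝ) * (Bc j k : ℝ)) := by
    intro k
    rw [Matrix.transpose_apply]
    unfold Fm
    have := Real.mul_self_sqrt hc
    rw [pow_add]
    linear_combination ((lam / 4) ^ (i : ℕ) * (lam / 4) ^ (j : ℕ) * (Bc i k : ℝ) * (Bc j k : ℝ)) * this
  rw [Finset.sum_congr rfl fun k _ => e k, ← Finset.mul_sum, ← dd_fac i.2 j.2, div_pow]
  have h4 : (4 : ℝ) ^ ((i : ℕ) + j) ≠ 0 := by positivity
  field_simp

lemma Fm_det {lam : ℝ} {w : ℕ} :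
    (Fm lam w).det = ∏ i : Fin w, (Real.sqrt (lam * (1 - lam ^ 2) / 2) * (lam / 4) ^ (i : ℕ)) := by
  rw [Matrix.det_of_isLowerTriangular]
  · refine Finset.prod_congr rfl fun i _ => ?_
    unfold Fm
    rw [Bc_diag]
    simp
  · intro i j hij
    unfold Fm
    have : (i : ℕ) < j := hij
    rw [Bc_zero this]
    simp

lemma Fm_det_sq {lam : ℝ} (h0 : 0 < lam) (h1 : lam < 1) (w : ℕ) :
    (lam * (1 - lam ^ 2) / 4) ^ (w ^ 2) ≤ (Fm lam w).det ^ 2 := by
  have hl2 : lam ^ 2 < 1 := by nlinarith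
  have hc : 0 < lam * (1 - lam ^ 2) := mul_pos h0 (by linarith)
  set θ := lam * (1 - lam ^ 2) / 4 with hθ
  have hθ0 : 0 < θ := by rw [hθ]; linarith
  have hθ1 : θ ≤ lam / 4 := by
    rw [hθ]
    nlinarith [mul_pos h0 (sq_pos_of_pos h0)]
  rw [Fm_det, ← Finset.prod_pow]
  have h2 : ∀ i : Fin w, θ ^ (2 * (i : ℕ) + 1) ≤
      (Real.sqrt (lam * (1 - lam ^ 2) / 2) * (lam / 4) ^ (i : ℕ)) ^ 2 := by
    intro i
    rw [mul_pow, Real.sq_sqrt (by linarith), ← pow_mul, pow_succ, mul_comm (i : ℕ) 2]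
    rw [mul_comm]
    apply mul_le_mul
    · rw [hθ]; linarith
    · exact pow_le_pow_left₀ hθ0.le hθ1 _
    · positivity
    · linarith
  calc θ ^ (w ^ 2) = ∏ i : Fin w, θ ^ (2 * (i : ℕ) + 1) := by
        rw [Finset.prod_pow_eq_pow_sum]
        congr 1
        rw [Fin.sum_univ_eq_sum_range (fun i => 2 * i + 1) w]
        clear h2 hθ1 hθ0
        induction w with
        | zero => simp
        | succ n ih => rw [Finset.sum_range_succ, ← ih]; ring
    _ ≤ _ := Finset.prod_le_prod (fun i _ => by positivity) fun i _ => h2 i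

lemma Tm_form {lam : ℝ} (h0 : 0 < lam) (h1 : lam < 1) {N w : ℕ} (hN : 1 ≤ N) (x : Fin w → ℝ) :
    ∑ i, ∑ j, x i * x j * (Fm lam w * (Fm lam w)ᵀ) i j ≤ ∑ i, ∑ j, x i * x j * Tm lam N w i j := by
  have hl2 : 0 ≤ 1 - lam ^ 2 := by nlinarith
  set y : Fin w → ℝ := fun i => lam ^ (i : ℕ) * x i with hy
  have e1 : ∑ i, ∑ j, x i * x j * (Fm lam w * (Fm lam w)ᵀ) i j =
      lam * (1 - lam ^ 2) * ∑ i, ∑ j, y i * y j * dd (1 + i + j) := by
    rw [Finset.mul_sum]
    refine Finset.sum_congr rfl fun i _ => ?_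
    rw [Finset.mul_sum]
    refine Finset.sum_congr rfl fun j _ => ?_
    rw [Fm_mul h0 h1, hy]
    simp only []
    have : 1 + (i : ℕ) + j = i + j + 1 := by ring
    rw [this, pow_add]
    ring
  have e2 : ∑ i, ∑ j, x i * x j * Tm lam N w i j = ∑ a ∈ Finset.range N, lam ^ (2 * a + 1) * dd a *
      ((1 - lam ^ 2) * ∑ i, ∑ j, y i * y j * dd ((a + 1) + i + j) +
        lam ^ 2 * ∑ i, ∑ j, y i * y j * (dd ((a + 1) + i + j) - dd ((a + 1) + i + j + 1))) := by
    have f1 : ∀ i j : Fin w, x i * x j * Tm lam N w i j = ∑ a ∈ Finset.range N, lam ^ (2 * a + 1) * dd a *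
        ((1 - lam ^ 2) * (y i * y j * dd ((a + 1) + i + j)) +
        lam ^ 2 * (y i * y j * (dd ((a + 1) + i + j) - dd ((a + 1) + i + j + 1)))) := by
      intro i j
      unfold Tm Tn
      rw [Finset.mul_sum]
      refine Finset.sum_congr rfl fun a _ => ?_
      have g1 : a + ((i : ℕ) + j + 1) = a + 1 + i + j := by ring
      have g2 : 2 * a + ((i : ℕ) + j + 1) = (2 * a + 1) + (i : ℕ) + j := by ring
      rw [g1, g2, hy]
      simp only []
      rw [pow_add, pow_add]
      ring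
    calc _ = ∑ i : Fin w, ∑ j : Fin w, ∑ a ∈ Finset.range N, lam ^ (2 * a + 1) * dd a *
        ((1 - lam ^ 2) * (y i * y j * dd ((a + 1) + i + j)) +
        lam ^ 2 * (y i * y j * (dd ((a + 1) + i + j) - dd ((a + 1) + i + j + 1)))) :=
          Finset.sum_congr rfl fun i _ => Finset.sum_congr rfl fun j _ => f1 i j
      _ = ∑ i : Fin w, ∑ a ∈ Finset.range N, ∑ j : Fin w, lam ^ (2 * a + 1) * dd a *
        ((1 - lam ^ 2) * (y i * y j * dd ((a + 1) + i + j)) +
        lam ^ 2 * (y i * y j * (dd ((a + 1) + i + j) - dd ((a + 1) + i + j + 1)))) :=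
          Finset.sum_congr rfl fun i _ => Finset.sum_comm
      _ = _ := by
          rw [Finset.sum_comm]
          refine Finset.sum_congr rfl fun a _ => ?_
          simp only [← Finset.mul_sum, Finset.sum_add_distrib]
  rw [e1, e2]
  have hnn : ∀ a, 0 ≤ lam ^ (2 * a + 1) * dd a *
      ((1 - lam ^ 2) * ∑ i, ∑ j, y i * y j * dd ((a + 1) + i + j) +
        lam ^ 2 * ∑ i, ∑ j, y i * y j * (dd ((a + 1) + i + j) - dd ((a + 1) + i + j + 1))) := by
    intro a
    have k1 := hank_nonneg y (a + 1)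
    have k2 := hank_diff y (a + 1)
    have k3 := dd_pos a
    have k4 : 0 < lam ^ (2 * a + 1) := pow_pos h0 _
    have k5 : 0 ≤ lam ^ 2 := sq_nonneg _
    exact mul_nonneg (mul_nonneg k4.le k3.le) (add_nonneg (mul_nonneg hl2 k1) (mul_nonneg k5 k2))
  calc lam * (1 - lam ^ 2) * ∑ i, ∑ j, y i * y j * dd (1 + i + j)
      ≤ lam ^ (2 * 0 + 1) * dd 0 * ((1 - lam ^ 2) * ∑ i, ∑ j, y i * y j * dd ((0 + 1) + i + j) +
        lam ^ 2 * ∑ i, ∑ j, y i * y j * (dd ((0 + 1) + i + j) - dd ((0 + 1) + i + j + 1))) := by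
        have k2 := hank_diff y (0 + 1)
        have k5 : 0 ≤ lam ^ 2 := sq_nonneg _
        rw [dd_zero]
        simp only [mul_zero, zero_add, pow_one, mul_one]
        simp only [zero_add] at k2
        nlinarith [mul_nonneg h0.le (mul_nonneg k5 k2)]
    _ ≤ _ := Finset.single_le_sum (f := fun a => lam ^ (2 * a + 1) * dd a *
      ((1 - lam ^ 2) * ∑ i, ∑ j, y i * y j * dd ((a + 1) + i + j) +
        lam ^ 2 * ∑ i, ∑ j, y i * y j * (dd ((a + 1) + i + j) - dd ((a + 1) + i + j + 1))))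
        (fun a _ => hnn a) (Finset.mem_range.2 (by omega))

/-! ### determinants -/

lemma form_eq {w : ℕ} (A : Matrix (Fin w) (Fin w) ℝ) (x : Fin w → ℝ) :
    x ⬝ᵥ (A *ᵥ x) = ∑ i, ∑ j, x i * x j * A i j := by
  unfold dotProduct Matrix.mulVec dotProduct
  refine Finset.sum_congr rfl fun i _ => ?_
  rw [Finset.mul_sum]
  exact Finset.sum_congr rfl fun j _ => by ring

lemma det_one_add {w : ℕ} (X : Matrix (Fin w) (Fin w) ℝ) (hX : Xᵀ = X)
    (h : ∀ x : Fin w → ℝ, 0 ≤ x ⬝ᵥ (X *ᵥ x)) : 1 ≤ (1 + X).det := by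
  have hH : (1 + X).IsHermitian := by
    unfold Matrix.IsHermitian
    rw [Matrix.conjTranspose_eq_transpose_of_trivial, Matrix.transpose_add, Matrix.transpose_one, hX]
  rw [hH.det_eq_prod_eigenvalues]
  have h1 : ∀ i, 1 ≤ hH.eigenvalues i := by
    intro i
    set v := hH.eigenvectorBasis i with hv
    have hn : v.ofLp ⬝ᵥ v.ofLp = 1 := by
      rw [← inner_dot, real_inner_self_eq_norm_sq, hv, hH.eigenvectorBasis.norm_eq_one]; norm_num
    have h2 := hH.mulVec_eigenvectorBasis i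
    rw [← hv] at h2
    have h3 : v.ofLp ⬝ᵥ ((1 + X) *ᵥ v.ofLp) = hH.eigenvalues i := by
      rw [h2, dotProduct_smul, hn]; simp
    rw [Matrix.add_mulVec, Matrix.one_mulVec, dotProduct_add, hn] at h3
    rw [← h3]
    linarith [h v.ofLp]
  simp only [RCLike.ofReal_real_eq_id, id]
  calc (1 : ℝ) = ∏ _i : Fin w, (1 : ℝ) := by simp
    _ ≤ _ := Finset.prod_le_prod (fun _ _ => zero_le_one) fun i _ => h1 i

lemma det_mono {w : ℕ} (T F : Matrix (Fin w) (Fin w) ℝ) (hT : Tᵀ = T) (hF : F.det ≠ 0)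
    (h : ∀ x : Fin w → ℝ, ∑ i, ∑ j, x i * x j * (F * Fᵀ) i j ≤ ∑ i, ∑ j, x i * x j * T i j) :
    F.det ^ 2 ≤ T.det := by
  have hu : IsUnit F.det := isUnit_iff_ne_zero.2 hF
  set X := F⁻¹ * (T - F * Fᵀ) * (F⁻¹)ᵀ with hX
  have hXt : Xᵀ = X := by
    rw [hX, Matrix.transpose_mul, Matrix.transpose_mul, Matrix.transpose_transpose, Matrix.transpose_sub,
      Matrix.transpose_mul, Matrix.transpose_transpose, hT, Matrix.mul_assoc]
  have hXn : ∀ x : Fin w → ℝ, 0 ≤ x ⬝ᵥ (X *ᵥ x) := by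
    intro x
    have e1 : x ⬝ᵥ (X *ᵥ x) = ((F⁻¹)ᵀ *ᵥ x) ⬝ᵥ ((T - F * Fᵀ) *ᵥ ((F⁻¹)ᵀ *ᵥ x)) := by
      rw [hX, ← Matrix.mulVec_mulVec, ← Matrix.mulVec_mulVec, Matrix.dotProduct_mulVec,
        ← Matrix.mulVec_transpose]
    rw [e1, Matrix.sub_mulVec, dotProduct_sub, form_eq, form_eq]
    linarith [h ((F⁻¹)ᵀ *ᵥ x)]
  have e2 : T = F * (1 + X) * Fᵀ := by
    rw [Matrix.mul_add, Matrix.mul_one, Matrix.add_mul, hX, ← Matrix.mul_assoc, ← Matrix.mul_assoc,
      Matrix.mul_nonsing_inv F hu, Matrix.one_mul, Matrix.mul_assoc (T - F * Fᵀ), ← Matrix.transpose_mul,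
      Matrix.mul_nonsing_inv F hu, Matrix.transpose_one, Matrix.mul_one]
    abel
  rw [e2, Matrix.det_mul, Matrix.det_mul, Matrix.det_transpose]
  have := det_one_add X hXt hXn
  nlinarith [sq_nonneg F.det]

lemma Tm_det {lam : ℝ} (h0 : 0 < lam) (h1 : lam < 1) {N w : ℕ} (hN : 1 ≤ N) :
    (lam * (1 - lam ^ 2) / 4) ^ (w ^ 2) ≤ (Tm lam N w).det := by
  have h2 := Fm_det_sq h0 h1 w
  refine h2.trans ?_
  apply det_mono
  · ext i j
    rw [Matrix.transpose_apply]
    unfold Tm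
    rw [Nat.add_comm (j : ℕ) i]
  · intro h
    rw [h] at h2
    have : 0 < (lam * (1 - lam ^ 2) / 4) ^ (w ^ 2) := by
      have : 0 < lam * (1 - lam ^ 2) := mul_pos h0 (by nlinarith)
      positivity
    simp at h2
    linarith
  · exact Tm_form h0 h1 hN

lemma prod_diff {ι : Type*} (s : Finset ι) (x y : ι → ℝ) (b η : ℝ) (hb : 1 ≤ b)
    (hx : ∀ i ∈ s, |x i| ≤ b) (hy : ∀ i ∈ s, |y i| ≤ b) (hxy : ∀ i ∈ s, |x i - y i| ≤ η) :
    |∏ i ∈ s, x i - ∏ i ∈ s, y i| ≤ s.card * b ^ s.card * η ∧ |∏ i ∈ s, y i| ≤ b ^ s.card := by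
  classical
  induction s using Finset.induction_on with
  | empty => simp
  | insert a s ha ih =>
    obtain ⟨i1, i2⟩ := ih (fun i hi => hx i (by simp [hi])) (fun i hi => hy i (by simp [hi]))
      (fun i hi => hxy i (by simp [hi]))
    rw [Finset.prod_insert ha, Finset.prod_insert ha, Finset.card_insert_of_notMem ha]
    have hxa := hx a (by simp)
    have hya := hy a (by simp)
    have hda := hxy a (by simp)
    have hη : 0 ≤ η := (abs_nonneg _).trans hda
    have hbp : 0 ≤ b ^ s.card := by positivity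
    constructor
    · have e1 : x a * ∏ i ∈ s, x i - y a * ∏ i ∈ s, y i =
          x a * (∏ i ∈ s, x i - ∏ i ∈ s, y i) + (x a - y a) * ∏ i ∈ s, y i := by ring
      rw [e1]
      refine (abs_add_le _ _).trans ?_
      rw [abs_mul, abs_mul]
      have h1 : |x a| * |∏ i ∈ s, x i - ∏ i ∈ s, y i| ≤ b * (s.card * b ^ s.card * η) :=
        mul_le_mul hxa i1 (abs_nonneg _) (by linarith)
      have h2 : |x a - y a| * |∏ i ∈ s, y i| ≤ η * b ^ s.card := mul_le_mul hda i2 (abs_nonneg _) hη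
      have h3 : η * b ^ s.card ≤ η * b ^ (s.card + 1) := by
        apply mul_le_mul_of_nonneg_left _ hη
        exact pow_le_pow_right₀ hb (by omega)
      push_cast
      calc _ ≤ b * (s.card * b ^ s.card * η) + η * b ^ (s.card + 1) := by linarith
        _ = _ := by ring
    · rw [abs_mul, pow_succ, mul_comm (b ^ s.card)]
      exact mul_le_mul hya i2 (abs_nonneg _) (by linarith)

lemma det_diff {w : ℕ} (G T : Matrix (Fin w) (Fin w) ℝ) (b η : ℝ) (hb : 1 ≤ b)
    (hG : ∀ i j, |G i j| ≤ b) (hT : ∀ i j, |T i j| ≤ b) (h : ∀ i j, |G i j - T i j| ≤ η) :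
    |G.det - T.det| ≤ w.factorial * (w * b ^ w * η) := by
  rw [Matrix.det_apply, Matrix.det_apply, ← Finset.sum_sub_distrib]
  refine (Finset.abs_sum_le_sum_abs _ _).trans ?_
  calc _ ≤ ∑ _σ : Equiv.Perm (Fin w), w * b ^ w * η := by
        refine Finset.sum_le_sum fun σ _ => ?_
        have h1 := (prod_diff Finset.univ (fun i => G (σ i) i) (fun i => T (σ i) i) b η hb
          (fun i _ => hG _ _) (fun i _ => hT _ _) (fun i _ => h _ _)).1
        rw [Finset.card_univ, Fintype.card_fin] at h1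
        rw [← smul_sub]
        rcases Int.units_eq_one_or (Equiv.Perm.sign σ) with hs | hs
        · rw [hs, one_smul]; exact h1
        · rw [hs, Units.neg_smul, one_smul, abs_neg]; exact h1
    _ = _ := by
        rw [Finset.sum_const, Finset.card_univ, Fintype.card_perm, Fintype.card_fin, nsmul_eq_mul]

end Pool.Agent.K6.H5.PL
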