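import Pool.Agent.K6.H5.PL.Svd

/-! Entries of the orthogonal matrix `Mm (Sh L s) lam`. -/

set_option autoImplicit false
set_option linter.unusedSectionVars false

open scoped BigOperators Matrix InnerProductSpace
open Finset Matrix

namespace Pool.Agent.K6.H5.PL

open scoped Matrix.Norms.L2Operator

section series

variable {J : Type*} [Fintype J] [DecidableEq J]

/-- partial sums of `Wm` -/
noncomputable def Wf (S : Matrix J J ℝ) (lam : ℝ) (N : ℕ) : Matrix J J ℝ :=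
  ∑ a ∈ Finset.range N, (dd a * lam ^ a) • S ^ a

lemma Wf_norm {S : Matrix J J ℝ} (hS : Sᵀ * S = 1) {lam : ℝ} (h0 : 0 ≤ lam) (h1 : lam < 1) (N : ℕ) :
    ‖Wf S lam N‖ ≤ (1 - lam)⁻¹ := by
  unfold Wf
  refine (norm_sum_le _ _).trans ?_
  calc ∑ a ∈ Finset.range N, ‖(dd a * lam ^ a) • S ^ a‖ ≤ ∑ a ∈ Finset.range N, lam ^ a :=
        Finset.sum_le_sum fun a _ => W_term hS h0 a
    _ ≤ ∑' a : ℕ, lam ^ a := (summable_geometric_of_lt_one h0 h1).sum_le_tsum _ fun _ _ => pow_nonneg h0 _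
    _ = (1 - lam)⁻¹ := tsum_geometric_of_lt_one h0 h1

lemma Wm_norm {S : Matrix J J ℝ} (hS : Sᵀ * S = 1) {lam : ℝ} (h0 : 0 ≤ lam) (h1 : lam < 1) :
    ‖Wm S lam‖ ≤ (1 - lam)⁻¹ := by
  unfold Wm
  refine (norm_tsum_le_tsum_norm (W_summable hS h0 h1)).trans ?_
  rw [← tsum_geometric_of_lt_one h0 h1]
  exact (W_summable hS h0 h1).tsum_le_tsum (W_term hS h0) (summable_geometric_of_lt_one h0 h1)

lemma W_diff {S : Matrix J J ℝ} (hS : Sᵀ * S = 1) {lam : ℝ} (h0 : 0 ≤ lam) (h1 : lam < 1) (N : ℕ) :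
    ‖Wm S lam - Wf S lam N‖ ≤ lam ^ N * (1 - lam)⁻¹ := by
  have hs := (W_summable hS h0 h1).of_norm
  have h2 : Wm S lam - Wf S lam N = ∑' a : ℕ, (dd (a + N) * lam ^ (a + N)) • S ^ (a + N) := by
    unfold Wm Wf
    rw [← hs.sum_add_tsum_nat_add N]
    abel
  rw [h2]
  have h3 : Summable fun a : ℕ => lam ^ (a + N) := (summable_nat_add_iff N).2 (summable_geometric_of_lt_one h0 h1)
  have h4 : Summable fun a : ℕ => ‖(dd (a + N) * lam ^ (a + N)) • S ^ (a + N)‖ :=
    (summable_nat_add_iff N).2 (W_summable hS h0 h1)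
  refine (norm_tsum_le_tsum_norm h4).trans ?_
  refine (h4.tsum_le_tsum (fun a => W_term hS h0 (a + N)) h3).trans ?_
  have : ∀ a : ℕ, lam ^ (a + N) = lam ^ N * lam ^ a := fun a => by rw [pow_add]; ring
  simp_rw [this]
  rw [tsum_mul_left, tsum_geometric_of_lt_one h0 h1]

lemma norm_tr (X : Matrix J J ℝ) : ‖Xᵀ‖ = ‖X‖ := by
  rw [← Matrix.conjTranspose_eq_transpose_of_trivial, Matrix.l2_opNorm_conjTranspose]

lemma entry_le (X : Matrix J J ℝ) (j k : J) : |X j k| ≤ ‖X‖ := by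
  have h1 := Matrix.l2_opNorm_mulVec X (EuclideanSpace.single k (1 : ℝ))
  rw [EuclideanSpace.norm_single, norm_one, mul_one] at h1
  have h2 := PiLp.norm_apply_le (WithLp.toLp 2 (X *ᵥ (EuclideanSpace.single k (1:ℝ)).ofLp) : EuclideanSpace ℝ J) j
  refine le_trans ?_ (h2.trans h1)
  rw [Real.norm_eq_abs]
  apply le_of_eq
  congr 1
  show X j k = (X *ᵥ (EuclideanSpace.single k (1:ℝ)).ofLp) j
  unfold Matrix.mulVec dotProduct
  simp

lemma M_diff {S : Matrix J J ℝ} (hS : Sᵀ * S = 1) {lam : ℝ} (h0 : 0 ≤ lam) (h1 : lam < 1)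
    {N₁ N : ℕ} (hN : N₁ ≤ N) :
    ‖Mm S lam - (1 - lam • S) * (Wf S lam N₁ * (Wf S lam N)ᵀ)‖ ≤ 4 * lam ^ N₁ * ((1 - lam)⁻¹) ^ 2 := by
  set c := (1 - lam)⁻¹ with hc
  have hc0 : 0 < c := inv_pos.2 (by linarith)
  have e1 : Mm S lam - (1 - lam • S) * (Wf S lam N₁ * (Wf S lam N)ᵀ) =
      (1 - lam • S) * ((Wm S lam - Wf S lam N₁) * (Wm S lam)ᵀ + Wf S lam N₁ * (Wm S lam - Wf S lam N)ᵀ) := by
    unfold Mm
    rw [← Matrix.mul_sub]
    congr 1
    rw [Matrix.transpose_sub, Matrix.sub_mul, Matrix.mul_sub]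
    abel
  rw [e1]
  have hA : ‖(1 : Matrix J J ℝ) - lam • S‖ ≤ 2 := by
    have h2 : ‖(1 : Matrix J J ℝ)‖ ≤ 1 := norm_orth (by simp)
    have h3 : ‖lam • S‖ ≤ 1 := by
      rw [norm_smul, Real.norm_eq_abs, abs_of_nonneg h0]
      have := norm_orth hS
      nlinarith [norm_nonneg S]
    exact (norm_sub_le _ _).trans (by linarith)
  have h2 := W_diff hS h0 h1 N₁
  have h3 := W_diff hS h0 h1 N
  have h4 := Wm_norm hS h0 h1
  have h5 := Wf_norm hS h0 h1 N₁
  have h6 : lam ^ N ≤ lam ^ N₁ := pow_le_pow_of_le_one h0 h1.le hN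
  have hp : 0 ≤ lam ^ N₁ := pow_nonneg h0 _
  rw [← hc] at h2 h3 h4 h5
  have b1 : ‖(Wm S lam - Wf S lam N₁) * (Wm S lam)ᵀ‖ ≤ lam ^ N₁ * c * c := by
    refine (norm_mul_le _ _).trans ?_
    rw [norm_tr]
    exact mul_le_mul h2 h4 (norm_nonneg _) (by positivity)
  have b2 : ‖Wf S lam N₁ * (Wm S lam - Wf S lam N)ᵀ‖ ≤ c * (lam ^ N₁ * c) := by
    refine (norm_mul_le _ _).trans ?_
    rw [norm_tr]
    exact mul_le_mul h5 (h3.trans (mul_le_mul_of_nonneg_right h6 hc0.le)) (norm_nonneg _) hc0.le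
  refine (norm_mul_le _ _).trans ?_
  calc _ ≤ 2 * (lam ^ N₁ * c * c + c * (lam ^ N₁ * c)) :=
        mul_le_mul hA ((norm_add_le _ _).trans (add_le_add b1 b2)) (norm_nonneg _) (by norm_num)
    _ = _ := by ring

end series

section ring

variable {L : ℕ} [NeZero L]

lemma Sh_pow (s : ℝ) {p : ℕ} (hp : p < L) (a : ℕ) (ha : a ≤ p) (m : ZMod L) :
    (Sh L s ^ a) ((p : ℕ) : ZMod L) m = if m = ((p - a : ℕ) : ZMod L) then 1 else 0 := by
  induction a generalizing m with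
  | zero =>
    rw [pow_zero, Matrix.one_apply, Nat.sub_zero]
    by_cases h : m = ((p : ℕ) : ZMod L)
    · rw [if_pos h, if_pos h.symm]
    · rw [if_neg h, if_neg (fun hh => h hh.symm)]
  | succ a ih =>
    rw [pow_succ, Matrix.mul_apply]
    have h1 : ∀ k : ZMod L, (Sh L s ^ a) ((p : ℕ) : ZMod L) k * Sh L s k m =
        if k = ((p - a : ℕ) : ZMod L) then Sh L s k m else 0 := by
      intro k
      rw [ih (by omega)]
      split_ifs <;> simp
    rw [Finset.sum_congr rfl fun k _ => h1 k, Finset.sum_ite_eq' Finset.univ, if_pos (Finset.mem_univ _)]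
    have h2 : ((p - a : ℕ) : ZMod L) = ((p - (a + 1) : ℕ) : ZMod L) + 1 := by
      have : p - a = (p - (a + 1)) + 1 := by omega
      rw [this]; push_cast; rfl
    unfold Sh
    rw [h2]
    by_cases h : m = ((p - (a + 1) : ℕ) : ZMod L)
    · rw [if_pos h, if_pos (by rw [h]), if_neg]
      rw [h, ZMod.val_natCast, Nat.mod_eq_of_lt (by omega)]
      omega
    · rw [if_neg h, if_neg]
      intro hh
      exact h (add_right_cancel hh).symm

lemma cast_inj {x y : ℕ} (hx : x < L) (hy : y < L) : ((x : ℕ) : ZMod L) = ((y : ℕ) : ZMod L) ↔ x = y := by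
  constructor
  · intro h
    have h1 := congrArg ZMod.val h
    rwa [ZMod.val_natCast, ZMod.val_natCast, Nat.mod_eq_of_lt hx, Nat.mod_eq_of_lt hy] at h1
  · intro h; rw [h]

lemma prod_entry (s : ℝ) (c : ℕ → ℝ) (t r p N₁ N : ℕ) (h1 : N₁ + t ≤ p + 1) (h2 : N ≤ p + r + 1)
    (h3 : N₁ + t + r ≤ N) (h4 : p + r < L) :
    ((∑ a ∈ Finset.range N₁, c a • Sh L s ^ (a + t)) * (∑ b ∈ Finset.range N, c b • Sh L s ^ b)ᵀ)
      ((p : ℕ) : ZMod L) ((p + r : ℕ) : ZMod L) = ∑ a ∈ Finset.range N₁, c a * c (a + t + r) := by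
  rw [Matrix.mul_apply]
  have e1 : ∀ m : ZMod L, (∑ a ∈ Finset.range N₁, c a • Sh L s ^ (a + t)) ((p : ℕ) : ZMod L) m =
      ∑ a ∈ Finset.range N₁, c a * (if m = ((p - (a + t) : ℕ) : ZMod L) then 1 else 0) := by
    intro m
    rw [Matrix.sum_apply]
    refine Finset.sum_congr rfl fun a ha => ?_
    rw [Finset.mem_range] at ha
    rw [Matrix.smul_apply, Sh_pow s (by omega) _ (by omega), smul_eq_mul]
  have e2 : ∀ m : ZMod L, (∑ b ∈ Finset.range N, c b • Sh L s ^ b)ᵀ m ((p + r : ℕ) : ZMod L) =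
      ∑ b ∈ Finset.range N, c b * (if m = ((p + r - b : ℕ) : ZMod L) then 1 else 0) := by
    intro m
    rw [Matrix.transpose_apply, Matrix.sum_apply]
    refine Finset.sum_congr rfl fun b hb => ?_
    rw [Finset.mem_range] at hb
    rw [Matrix.smul_apply, Sh_pow s (by omega) _ (by omega), smul_eq_mul]
  calc _ = ∑ m : ZMod L, (∑ a ∈ Finset.range N₁, c a * (if m = ((p - (a + t) : ℕ) : ZMod L) then 1 else 0)) *
        ∑ b ∈ Finset.range N, c b * (if m = ((p + r - b : ℕ) : ZMod L) then 1 else 0) :=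
        Finset.sum_congr rfl fun m _ => by rw [e1, e2]
    _ = ∑ a ∈ Finset.range N₁, ∑ m : ZMod L, (c a * (if m = ((p - (a + t) : ℕ) : ZMod L) then 1 else 0)) *
        ∑ b ∈ Finset.range N, c b * (if m = ((p + r - b : ℕ) : ZMod L) then 1 else 0) := by
        rw [Finset.sum_comm]
        exact Finset.sum_congr rfl fun m _ => by rw [Finset.sum_mul]
    _ = _ := by
      refine Finset.sum_congr rfl fun a ha => ?_
      rw [Finset.mem_range] at ha
      rw [Finset.sum_eq_single ((p - (a + t) : ℕ) : ZMod L)]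
      · rw [if_pos rfl, mul_one]
        congr 1
        rw [Finset.sum_eq_single (a + t + r)]
        · rw [if_pos, mul_one]
          congr 1
          omega
        · intro b hb hne
          rw [Finset.mem_range] at hb
          rw [if_neg, mul_zero]
          intro hh
          rw [cast_inj (by omega) (by omega)] at hh
          omega
        · intro hh
          rw [Finset.mem_range] at hh
          omega
      · intro m _ hm
        rw [if_neg hm]; simp
      · intro h; exact absurd (Finset.mem_univ _) h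

/-- the approximate entries -/
noncomputable def Tn (lam : ℝ) (N r : ℕ) : ℝ :=
  ∑ a ∈ Finset.range N, lam ^ (2 * a + r) * (dd a * (dd (a + r) - lam ^ 2 * dd (a + r + 1)))

theorem entry_approx {lam s : ℝ} (h0 : 0 ≤ lam) (h1 : lam < 1) (hs : (Sh L s)ᵀ * Sh L s = 1)
    (r p N : ℕ) (hp : N ≤ p) (hL : p + r < L) :
    |Mm (Sh L s) lam ((p : ℕ) : ZMod L) ((p + r : ℕ) : ZMod L) - Tn lam N r| ≤
      4 * lam ^ N * ((1 - lam)⁻¹) ^ 2 := by
  have e1 : ((1 - lam • Sh L s) * (Wf (Sh L s) lam N * (Wf (Sh L s) lam (N + r + 1))ᵀ))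
      ((p : ℕ) : ZMod L) ((p + r : ℕ) : ZMod L) = Tn lam N r := by
    set c : ℕ → ℝ := fun a => dd a * lam ^ a with hc
    have f1 := prod_entry (L := L) s c 0 r p N (N + r + 1) (by omega) (by omega) (by omega) hL
    have f2 := prod_entry (L := L) s c 1 r p N (N + r + 1) (by omega) (by omega) (by omega) hL
    have g1 : (1 - lam • Sh L s) * (Wf (Sh L s) lam N * (Wf (Sh L s) lam (N + r + 1))ᵀ) =
        (∑ a ∈ Finset.range N, c a • Sh L s ^ (a + 0)) * (∑ b ∈ Finset.range (N + r + 1), c b • Sh L s ^ b)ᵀ -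
        lam • ((∑ a ∈ Finset.range N, c a • Sh L s ^ (a + 1)) *
          (∑ b ∈ Finset.range (N + r + 1), c b • Sh L s ^ b)ᵀ) := by
      rw [Matrix.sub_mul, Matrix.one_mul]
      congr 1
      rw [smul_mul_assoc, ← Matrix.mul_assoc]
      congr 2
      unfold Wf
      rw [Finset.mul_sum]
      exact Finset.sum_congr rfl fun a _ => by rw [mul_smul_comm, ← pow_succ']
    rw [g1, Matrix.sub_apply, Matrix.smul_apply, f1, f2, smul_eq_mul, Finset.mul_sum, ← Finset.sum_sub_distrib]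
    unfold Tn
    refine Finset.sum_congr rfl fun a _ => ?_
    rw [hc]
    simp only []
    have : a + 1 + r = a + r + 1 := by omega
    rw [this]
    ring
  rw [← e1, ← Matrix.sub_apply]
  exact (entry_le _ _ _).trans (M_diff hs h0 h1 (by omega))

end ring

end Pool.Agent.K6.H5.PL
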