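import Mathlib

/-! Choice of the parameters. -/

set_option autoImplicit false

open Real

namespace Pool.Agent.K6.H5.PL

lemma cube_root {x : ℝ} (hx : 0 ≤ x) : (x ^ (1 / 3 : ℝ)) ^ 3 = x := by
  rw [← Real.rpow_natCast, ← Real.rpow_mul hx]
  norm_num

/-- parameters at the scale `t` -/
lemma floor_facts {b t : ℝ} (hb : 0 < b) (ht : 2 / b ≤ t) :
    (1 : ℕ) ≤ ⌊b * t⌋₊ ∧ ((⌊b * t⌋₊ : ℕ) : ℝ) ≤ b * t ∧ b * t / 2 ≤ ((⌊b * t⌋₊ : ℕ) : ℝ) := by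
  have h1 : 2 ≤ b * t := by
    rw [div_le_iff₀ hb] at ht; linarith
  have h2 := Nat.floor_le (show 0 ≤ b * t by linarith)
  have h3 := Nat.lt_floor_add_one (b * t)
  refine ⟨?_, h2, by linarith⟩
  rw [Nat.one_le_floor_iff]
  linarith

lemma D_bound {b t : ℝ} (_hb : 0 < b) {m : ℕ} (hm : 1 ≤ m) (h : b * t / 2 ≤ m) {D : ℕ}
    (hD : (D : ℝ) ≤ exp (b / 16 * t)) : D ^ 8 < 4 ^ m := by
  have h1 : (D : ℝ) ^ 8 ≤ exp (b * t / 2) := by
    calc (D : ℝ) ^ 8 ≤ (exp (b / 16 * t)) ^ 8 := pow_le_pow_left₀ (by positivity) hD 8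
      _ = exp (b * t / 2) := by
        rw [← Real.exp_nat_mul]
        congr 1
        push_cast
        ring
  have h2 : exp (b * t / 2) < 4 ^ m := by
    calc exp (b * t / 2) ≤ exp (m : ℝ) := Real.exp_le_exp.2 h
      _ = (exp 1) ^ m := by rw [← Real.exp_nat_mul]; simp
      _ < 4 ^ m := by
        apply pow_lt_pow_left₀ _ (exp_pos 1).le (by omega)
        have := Real.exp_one_lt_d9
        linarith
  have h3 : ((D ^ 8 : ℕ) : ℝ) < ((4 ^ m : ℕ) : ℝ) := by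
    push_cast
    exact lt_of_le_of_lt h1 h2
  exact_mod_cast h3

lemma pow_bound {ϑ : ℝ} (hϑ : 0 < ϑ) (hϑ1 : ϑ < 1) {b t : ℝ} {m : ℕ} (hm : (m : ℝ) ≤ b * t) :
    exp (-(128 * b ^ 3 * (-log ϑ) * t ^ 3)) ≤ ϑ ^ (2 * (4 * m) ^ 3) := by
  have h1 : ϑ ^ (2 * (4 * m) ^ 3) = exp (-(128 * (m : ℝ) ^ 3 * (-log ϑ))) := by
    rw [← Real.exp_log (pow_pos hϑ _), Real.log_pow]
    congr 1
    push_cast
    ring
  rw [h1, Real.exp_le_exp]
  have h2 : 0 < -log ϑ := by have := Real.log_neg hϑ hϑ1; linarith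
  have h3 : (m : ℝ) ^ 3 ≤ (b * t) ^ 3 := pow_le_pow_left₀ (by positivity) hm 3
  nlinarith [mul_le_mul_of_nonneg_right h3 h2.le]

theorem part2 (K : ℕ) (ϑ : ℝ) (hK : 1 ≤ K) (hϑ : 0 < ϑ) (hϑ1 : ϑ < 1) (a : ℝ) (ha : a < 1) :
    ∃ c : ℝ, 0 < c ∧ ∃ L₀ : ℕ, ∀ L : ℕ, L₀ ≤ L → ∃ m : ℕ, 1 ≤ m ∧ K * (4 * m) ^ 2 ≤ L ∧
      (∀ D : ℕ, (D : ℝ) ≤ exp (c * log L ^ (1 / 3 : ℝ)) → D ^ 8 < 4 ^ m) ∧
      (1 - ϑ ^ (2 * (4 * m) ^ 3)) ^ (L / (4 * m)) ≤ exp (-(2 * (L : ℝ) ^ a)) := by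
  -- reduce to `0 ≤ a`
  set a' := max a 0 with ha'
  have ha1 : a' < 1 := max_lt ha one_pos
  have ha0 : 0 ≤ a' := le_max_right _ _
  set γ := (1 - a') / 2 with hγ
  have hγ0 : 0 < γ := by rw [hγ]; linarith
  set Λ := -log ϑ with hΛ
  have hΛ0 : 0 < Λ := by have := Real.log_neg hϑ hϑ1; rw [hΛ]; linarith
  set b := min 1 (γ / (128 * Λ)) with hb
  have hb0 : 0 < b := lt_min one_pos (by positivity)
  have hb1 : b ≤ 1 := min_le_left _ _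
  have hb2 : 128 * b ^ 3 * Λ ≤ γ := by
    have h1 : b ≤ γ / (128 * Λ) := min_le_right _ _
    rw [le_div_iff₀ (by positivity)] at h1
    have h2 : b ^ 3 ≤ b := by
      have : b ^ 2 ≤ 1 := pow_le_one₀ hb0.le hb1
      nlinarith
    nlinarith
  set T₀ := max (max (2 / b) (16 * K)) (max 1 (16 / γ)) with hT₀
  refine ⟨b / 16, by positivity, ⌈exp (T₀ ^ 3)⌉₊ + 1, ?_⟩
  intro L hL
  have hL1 : 1 ≤ L := by omega
  have hLr : (1 : ℝ) ≤ L := by exact_mod_cast hL1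
  have hLexp : exp (T₀ ^ 3) ≤ L := by
    have h1 := Nat.le_ceil (exp (T₀ ^ 3))
    have h2 : ((⌈exp (T₀ ^ 3)⌉₊ : ℕ) : ℝ) ≤ (L : ℝ) := by exact_mod_cast (by omega : ⌈exp (T₀ ^ 3)⌉₊ ≤ L)
    linarith
  have hT1 : 1 ≤ T₀ := (le_max_left _ _).trans (le_max_right _ _)
  have hlog : T₀ ^ 3 ≤ log L := by
    rw [Real.le_log_iff_exp_le (by linarith)]; exact hLexp
  have hlog0 : 0 ≤ log L := Real.log_nonneg hLr
  obtain ⟨t, ht⟩ : ∃ t : ℝ, t = log L ^ (1 / 3 : ℝ) := ⟨_, rfl⟩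
  have ht3 : t ^ 3 = log L := by rw [ht]; exact cube_root hlog0
  have ht0 : 0 ≤ t := by rw [ht]; exact Real.rpow_nonneg hlog0 _
  rw [← ht]
  have htT : T₀ ≤ t := by
    by_contra h
    push Not at h
    have : t ^ 3 < T₀ ^ 3 := pow_lt_pow_left₀ h ht0 (by norm_num)
    linarith
  have k1 : 2 / b ≤ t := ((le_max_left _ _).trans (le_max_left _ _)).trans htT
  have k2 : 16 * (K : ℝ) ≤ t := ((le_max_right _ _).trans (le_max_left _ _)).trans htT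
  have k3 : 1 ≤ t := hT1.trans htT
  have k4 : 16 / γ ≤ t := ((le_max_right _ _).trans (le_max_right _ _)).trans htT
  obtain ⟨m, hm1, hm2, hm3⟩ : ∃ m : ℕ, 1 ≤ m ∧ (m : ℝ) ≤ b * t ∧ b * t / 2 ≤ m :=
    ⟨_, floor_facts hb0 k1⟩
  have hmt : (m : ℝ) ≤ t := hm2.trans (by nlinarith)
  have hLe : (L : ℝ) = exp (t ^ 3) := by rw [ht3, Real.exp_log (by linarith)]
  have hKm : K * (4 * m) ^ 2 ≤ L := by
    have h1 : (K : ℝ) * (4 * m) ^ 2 ≤ L := by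
      have h2 : t ^ 3 ≤ L := by
        rw [hLe]
        linarith [Real.add_one_le_exp (t ^ 3)]
      calc (K : ℝ) * (4 * m) ^ 2 = 16 * K * (m : ℝ) ^ 2 := by ring
        _ ≤ t * t ^ 2 := by
          apply mul_le_mul k2 _ (by positivity) ht0
          exact pow_le_pow_left₀ (by positivity) hmt 2
        _ = t ^ 3 := by ring
        _ ≤ L := h2
    exact_mod_cast h1
  refine ⟨m, hm1, hKm, fun D hD => D_bound hb0 hm1 hm3 hD, ?_⟩
  -- the exponential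
  obtain ⟨y, hy⟩ : ∃ y : ℝ, y = ϑ ^ (2 * (4 * m) ^ 3) := ⟨_, rfl⟩
  rw [← hy]
  have hy0 : 0 < y := by rw [hy]; exact pow_pos hϑ _
  have hy1 : y ≤ 1 := by rw [hy]; exact pow_le_one₀ hϑ.le hϑ1.le
  have hyl : exp (-(γ * t ^ 3)) ≤ y := by
    rw [hy]
    refine le_trans ?_ (pow_bound hϑ hϑ1 hm2)
    rw [Real.exp_le_exp]
    have : 0 ≤ t ^ 3 := by positivity
    rw [← hΛ]
    nlinarith
  have hmr : (1 : ℝ) ≤ m := by exact_mod_cast hm1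
  have hn : (L : ℝ) / (8 * m) ≤ ((L / (4 * m) : ℕ) : ℝ) := by
    have h1 : L < 4 * m * (L / (4 * m) + 1) := by
      have := Nat.lt_mul_div_succ L (show 0 < 4 * m by omega)
      exact this
    have h2 : (L : ℝ) < 4 * m * (((L / (4 * m) : ℕ) : ℝ) + 1) := by exact_mod_cast h1
    have h3 : 8 * m ≤ L := by nlinarith
    have h4 : (8 : ℝ) * m ≤ L := by exact_mod_cast h3
    rw [div_le_iff₀ (by positivity)]
    nlinarith
  have hLpos : (0 : ℝ) < L := by linarith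
  have hgrow : 16 * (m : ℝ) * (L : ℝ) ^ a' * exp (γ * t ^ 3) ≤ L := by
    have h1 : (L : ℝ) ^ a' = exp (a' * t ^ 3) := by
      rw [Real.rpow_def_of_pos hLpos, ht3, mul_comm]
    have h2 : 16 * (m : ℝ) ≤ exp (γ * t ^ 3) := by
      have h3 : 16 ≤ γ * t := by
        rw [div_le_iff₀ hγ0] at k4; linarith
      have h4 : 16 * t ≤ γ * t ^ 3 := by
        have : 16 * t ≤ γ * t * t := mul_le_mul_of_nonneg_right h3 ht0
        have h5 : γ * t * t ≤ γ * t ^ 3 := by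
          have : t * t ≤ t ^ 3 := by nlinarith [mul_nonneg ht0 ht0]
          calc γ * t * t = γ * (t * t) := by ring
            _ ≤ γ * t ^ 3 := mul_le_mul_of_nonneg_left this hγ0.le
        linarith
      linarith [Real.add_one_le_exp (γ * t ^ 3)]
    rw [h1]
    calc 16 * (m : ℝ) * exp (a' * t ^ 3) * exp (γ * t ^ 3)
        ≤ exp (γ * t ^ 3) * exp (a' * t ^ 3) * exp (γ * t ^ 3) := by
          apply mul_le_mul_of_nonneg_right _ (exp_pos _).le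
          exact mul_le_mul_of_nonneg_right h2 (exp_pos _).le
      _ = exp (t ^ 3) := by
          rw [← Real.exp_add, ← Real.exp_add]
          congr 1
          rw [hγ]
          ring
      _ = L := hLe.symm
  have hny : 2 * (L : ℝ) ^ a' ≤ ((L / (4 * m) : ℕ) : ℝ) * y := by
    calc 2 * (L : ℝ) ^ a' ≤ (L : ℝ) / (8 * m) * exp (-(γ * t ^ 3)) := by
          rw [div_mul_eq_mul_div, le_div_iff₀ (by positivity), Real.exp_neg, ← div_eq_mul_inv,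
            le_div_iff₀ (exp_pos _)]
          calc 2 * (L : ℝ) ^ a' * (8 * m) * exp (γ * t ^ 3) = 16 * (m : ℝ) * (L : ℝ) ^ a' * exp (γ * t ^ 3) := by ring
            _ ≤ L := hgrow
      _ ≤ ((L / (4 * m) : ℕ) : ℝ) * y := mul_le_mul hn hyl (exp_pos _).le (by positivity)
  have haa : (L : ℝ) ^ a ≤ (L : ℝ) ^ a' := Real.rpow_le_rpow_of_exponent_le hLr (le_max_left _ _)
  calc (1 - y) ^ (L / (4 * m)) ≤ (exp (-y)) ^ (L / (4 * m)) :=
        pow_le_pow_left₀ (by linarith) (Real.one_sub_le_exp_neg y) _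
    _ = exp (-(((L / (4 * m) : ℕ) : ℝ) * y)) := by
        rw [← Real.exp_nat_mul]
        congr 1
        ring
    _ ≤ exp (-(2 * (L : ℝ) ^ a)) := by
        rw [Real.exp_le_exp]
        linarith

/-- the parameters for very small errors -/
theorem part3 (K : ℕ) (ϑ : ℝ) (hK : 1 ≤ K) (hϑ : 0 < ϑ) (hϑ1 : ϑ < 1) :
    ∃ c : ℝ, 0 < c ∧ ∃ Y₀ : ℝ, ∀ (L : ℕ) (Y : ℝ), Y₀ ≤ Y → Y ≤ (L : ℝ) ^ (3 / 2 : ℝ) → ∃ m : ℕ,
      1 ≤ m ∧ K * (4 * m) ^ 2 ≤ L ∧ (∀ D : ℕ, (D : ℝ) ≤ exp (c * Y ^ (1 / 3 : ℝ)) → D ^ 8 < 4 ^ m) ∧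
      exp (-Y) < ϑ ^ (2 * (4 * m) ^ 3) := by
  set Λ := -log ϑ with hΛ
  have hΛ0 : 0 < Λ := by have := Real.log_neg hϑ hϑ1; rw [hΛ]; linarith
  have hK0 : (1 : ℝ) ≤ K := by exact_mod_cast hK
  set b : ℝ := min (1 / (4 * (K : ℝ))) (1 / (256 * Λ)) with hb
  have hb0 : 0 < b := lt_min (by positivity) (by positivity)
  have hb1 : b ≤ 1 / (4 * (K : ℝ)) := min_le_left _ _
  have hb11 : b ≤ 1 := by
    refine hb1.trans ?_
    rw [div_le_one (by positivity)]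
    linarith
  have hb2 : 128 * b ^ 3 * Λ ≤ 1 / 2 := by
    have h1 : b ≤ 1 / (256 * Λ) := min_le_right _ _
    rw [le_div_iff₀ (by positivity)] at h1
    have h2 : b ^ 3 ≤ b := by
      have : b ^ 2 ≤ 1 := pow_le_one₀ hb0.le hb11
      nlinarith
    nlinarith
  refine ⟨b / 16, by positivity, max 1 ((2 / b) ^ 3), ?_⟩
  intro L Y hY hYL
  have hY1 : 1 ≤ Y := (le_max_left _ _).trans hY
  have hY2 : (2 / b) ^ 3 ≤ Y := (le_max_right _ _).trans hY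
  have hY0 : 0 ≤ Y := by linarith
  set t := Y ^ (1 / 3 : ℝ) with ht
  have ht3 : t ^ 3 = Y := cube_root hY0
  have ht0 : 0 ≤ t := Real.rpow_nonneg hY0 _
  have htT : 2 / b ≤ t := by
    by_contra h
    push Not at h
    have : t ^ 3 < (2 / b) ^ 3 := pow_lt_pow_left₀ h ht0 (by norm_num)
    linarith
  obtain ⟨m, hm1, hm2, hm3⟩ : ∃ m : ℕ, 1 ≤ m ∧ (m : ℝ) ≤ b * t ∧ b * t / 2 ≤ m :=
    ⟨_, floor_facts hb0 htT⟩
  have ht2 : t ^ 2 ≤ L := by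
    have h1 : t ^ 2 = Y ^ (2 / 3 : ℝ) := by
      rw [ht, ← Real.rpow_natCast, ← Real.rpow_mul hY0]
      norm_num
    rw [h1]
    have h2 : Y ^ (2 / 3 : ℝ) ≤ ((L : ℝ) ^ (3 / 2 : ℝ)) ^ (2 / 3 : ℝ) :=
      Real.rpow_le_rpow hY0 hYL (by norm_num)
    rw [← Real.rpow_mul (by positivity)] at h2
    norm_num at h2
    exact h2
  refine ⟨m, hm1, ?_, fun D hD => D_bound hb0 hm1 hm3 hD, ?_⟩
  · have h1 : (K : ℝ) * (4 * m) ^ 2 ≤ L := by
      have h2 : (m : ℝ) ^ 2 ≤ (b * t) ^ 2 := pow_le_pow_left₀ (by positivity) hm2 2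
      have h3 : 16 * (K : ℝ) * b ^ 2 ≤ 1 := by
        have h4 : b * (4 * K) ≤ 1 := by
          rw [le_div_iff₀ (by positivity)] at hb1; exact hb1
        have h5 : (b * (4 * K)) ^ 2 ≤ 1 := pow_le_one₀ (by positivity) h4
        nlinarith [sq_nonneg b]
      calc (K : ℝ) * (4 * m) ^ 2 = 16 * K * (m : ℝ) ^ 2 := by ring
        _ ≤ 16 * K * (b * t) ^ 2 := mul_le_mul_of_nonneg_left h2 (by positivity)
        _ = (16 * K * b ^ 2) * t ^ 2 := by ring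
        _ ≤ 1 * t ^ 2 := mul_le_mul_of_nonneg_right h3 (by positivity)
        _ ≤ L := by linarith
    exact_mod_cast h1
  · refine lt_of_lt_of_le ?_ (pow_bound hϑ hϑ1 hm2)
    rw [Real.exp_lt_exp, ← hΛ, ht3]
    nlinarith

end Pool.Agent.K6.H5.PL
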