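import Pool.Agent.K6.H5.PL.Master
import Pool.Agent.K6.H5.PL.Num
import Pool.Agent.Results.MP_953b23_mp.OverlapBoosting

/-! The gapped family and the overlap of its ground states with PEPS. -/

set_option autoImplicit false
set_option linter.unusedSectionVars false

open scoped BigOperators Matrix InnerProductSpace
open Finset Matrix Pool.Agent.TH235.PP
open Pool.Agent.Results.MP_953b23_mp.OverlapBoosting (GappedFamily IsPurified)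

namespace Pool.Agent.K6.H5.PL

/-- `Ψ` is the product of the ground states of the rings -/
def IsRows {L : ℕ} [NeZero L] (lam : ℝ) (Ψ : (Site L → Fin 2) → ℂ) : Prop :=
  ∃ Ω : (ZMod L → Fin 2) → ℂ, Ψ = (tv fun _ : ZMod L => Ω) ∧
    Exch (ga (ZMod.val : ZMod L → ℕ)) (gb (ZMod.val : ZMod L → ℕ)) Ω
        (fun v => WithLp.toLp 2 (Mm (Sh L 1) lam *ᵥ v.ofLp))

theorem exists_rows {lam : ℝ} (h0 : 0 < lam) (h1 : lam < 1 / 2) :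
    ∃ Ψ : ∀ L : ℕ, (Site L → Fin 2) → ℂ, GappedFamily (hbox lam) (2 - 4 * lam) Ψ ∧
      ∀ (L : ℕ) [NeZero L], 2 ≤ L → normSq (Ψ L) = 1 ∧ IsRows lam (Ψ L) := by
  classical
  have key : ∀ (L : ℕ) (hL : 2 ≤ L), ∃ Ψ : (Site L → Fin 2) → ℂ, ∀ [NeZero L],
      normSq Ψ = 1 ∧ IsGappedGround (ham (hbox lam) L) (2 - 4 * lam) Ψ ∧ IsRows lam Ψ := by
    intro L hL
    have : NeZero L := ⟨by omega⟩
    obtain ⟨Ω, E, hΩ, hE, hform, hex⟩ := row_ground hL lam h0.le (by linarith)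
    obtain ⟨g1, g2⟩ := torus_ground hL lam h1 Ω E hΩ hE hform
    exact ⟨tv fun _ : ZMod L => Ω, ⟨g1, g2, Ω, rfl, hex⟩⟩
  choose Ψ hΨ using key
  refine ⟨fun L => if hL : 2 ≤ L then Ψ L hL else fun _ => 0, ⟨by norm_num, hbox_herm lam, by linarith,
    2, ?_⟩, ?_⟩
  · intro L _ hL
    rw [dif_pos hL]
    obtain ⟨g1, g2, -⟩ := hΨ L hL
    exact ⟨g1, g2⟩
  · intro L _ hL
    simp only [dif_pos hL]
    obtain ⟨g1, -, g3⟩ := hΨ L hL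
    exact ⟨g1, g3⟩

theorem dist_of_overlap {n : Type*} [Fintype n] [DecidableEq n] (Ψ φ : n → ℂ) (hΨ : normSq Ψ = 1)
    (τ : ℝ) (hτ : τ ≤ 1) (h : ‖ip Ψ φ‖ ^ 2 ≤ (1 - τ) * normSq φ) : τ ≤ normSq (φ - Ψ) := by
  have e1 : normSq (φ - Ψ) = normSq φ - 2 * (ip Ψ φ).re + 1 := by
    have e2 := ip_self (φ - Ψ)
    rw [ip_sub_l, ip_sub_r, ip_sub_r, ip_self, ip_self, hΨ, ← ip_conj Ψ φ] at e2
    have e3 := congrArg Complex.re e2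
    rw [Complex.ofReal_re] at e3
    rw [← e3]
    simp
    ring
  rw [e1]
  have h2 : (ip Ψ φ).re ≤ ‖ip Ψ φ‖ := Complex.re_le_norm _
  have hN := nSq_nonneg φ
  have h3 : ‖ip Ψ φ‖ ≤ Real.sqrt (1 - τ) * Real.sqrt (normSq φ) := by
    rw [← Real.sqrt_mul (by linarith)]
    exact Real.le_sqrt_of_sq_le h
  have h4 := Real.sq_sqrt hN
  have h5 := Real.sq_sqrt (show 0 ≤ 1 - τ by linarith)
  nlinarith [sq_nonneg (Real.sqrt (normSq φ) - Real.sqrt (1 - τ))]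

theorem overlap_all {lam : ℝ} (h0 : 0 < lam) (h1 : lam < 1) (a : ℝ) (ha : a < 1) :
    ∃ c : ℝ, 0 < c ∧ ∃ L₀ : ℕ, ∀ (L : ℕ) [NeZero L], L₀ ≤ L → ∀ Ψ : (Site L → Fin 2) → ℂ,
      IsRows lam Ψ → ∀ (D : ℕ) (φ : (Site L → Fin 2) → ℂ), IsPEPS D φ →
        (D : ℝ) ≤ Real.exp (c * Real.log L ^ (1 / 3 : ℝ)) →
          ‖ip Ψ φ‖ ^ 2 ≤ Real.exp (-(2 * (L : ℝ) ^ a)) * normSq φ := by
  obtain ⟨K, ϑ, hK, hϑ, hϑ1, hmain⟩ := master h0 h1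
  obtain ⟨c, hc, L₀, hnum⟩ := part2 K ϑ hK hϑ hϑ1 a ha
  refine ⟨c, hc, L₀, ?_⟩
  rintro L _ hL Ψ ⟨Ω, rfl, hex⟩ D φ hφ hD
  obtain ⟨m, hm, hKm, hDm, hb⟩ := hnum L hL
  exact (hmain L m hm hKm Ω hex D φ hφ (hDm D hD)).trans (mul_le_mul_of_nonneg_right hb (nSq_nonneg φ))

end Pool.Agent.K6.H5.PL
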