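import Pool.Agent.K6.H5.PL.Vac
import Pool.Agent.TH235.PP.Spec

/-! Expectation values, and the spectral inequality for quadratic forms in Majorana operators. -/

set_option autoImplicit false
set_option linter.unusedSectionVars false

open scoped BigOperators Matrix InnerProductSpace
open Finset Matrix Complex Pool.Agent.TH235.PP

namespace Pool.Agent.K6.H5.PL

section ipl

variable {n : Type*} [Fintype n] [DecidableEq n]

lemma ip_add_r (x y w : n → ℂ) : ip x (y + w) = ip x y + ip x w := by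
  unfold ip
  rw [← Finset.sum_add_distrib]
  exact Finset.sum_congr rfl fun s _ => by rw [Pi.add_apply]; ring

lemma ip_add_l (x y w : n → ℂ) : ip (x + y) w = ip x w + ip y w := by
  unfold ip
  rw [← Finset.sum_add_distrib]
  exact Finset.sum_congr rfl fun s _ => by rw [Pi.add_apply, map_add]; ring

lemma ip_smul_r (x y : n → ℂ) (c : ℂ) : ip x (c • y) = c * ip x y := by
  unfold ip
  rw [Finset.mul_sum]
  exact Finset.sum_congr rfl fun s _ => by rw [Pi.smul_apply, smul_eq_mul]; ring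

lemma ip_smul_l (x y : n → ℂ) (c : ℂ) : ip (c • x) y = (starRingEnd ℂ) c * ip x y := by
  unfold ip
  rw [Finset.mul_sum]
  exact Finset.sum_congr rfl fun s _ => by rw [Pi.smul_apply, smul_eq_mul, map_mul]; ring

lemma ip_neg_r (x y : n → ℂ) : ip x (-y) = -ip x y := by
  rw [← neg_one_smul ℂ y, ip_smul_r]; ring

lemma ip_sub_r (x y w : n → ℂ) : ip x (y - w) = ip x y - ip x w := by
  rw [sub_eq_add_neg, ip_add_r, ip_neg_r]; ring

lemma ip_neg_l (x y : n → ℂ) : ip (-x) y = -ip x y := by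
  rw [← neg_one_smul ℂ x, ip_smul_l]; simp

lemma ip_sub_l (x y w : n → ℂ) : ip (x - y) w = ip x w - ip y w := by
  rw [sub_eq_add_neg, ip_add_l, ip_neg_l]; ring

lemma ip_sum_r {ι : Type*} (s : Finset ι) (x : n → ℂ) (f : ι → n → ℂ) :
    ip x (∑ i ∈ s, f i) = ∑ i ∈ s, ip x (f i) := by
  classical
  induction s using Finset.induction_on with
  | empty => simp [ip]
  | insert a s ha ih => rw [Finset.sum_insert ha, Finset.sum_insert ha, ip_add_r, ih]

lemma ip_dot (x y : n → ℂ) : ip x y = star x ⬝ᵥ y := by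
  unfold ip dotProduct
  rfl

lemma ip_adj (A : Matrix n n ℂ) (x y : n → ℂ) : ip x (A *ᵥ y) = ip (Aᴴ *ᵥ x) y := by
  rw [ip_dot, ip_dot, Matrix.star_mulVec, conjTranspose_conjTranspose, Matrix.dotProduct_mulVec]

lemma ip_self (x : n → ℂ) : ip x x = (normSq x : ℂ) := by
  unfold ip Pool.Agent.TH235.PP.normSq
  rw [Complex.ofReal_sum]
  refine Finset.sum_congr rfl fun s _ => ?_
  rw [mul_comm, Complex.mul_conj, Complex.normSq_eq_norm_sq]

lemma ip_conj (x y : n → ℂ) : (starRingEnd ℂ) (ip x y) = ip y x := by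
  unfold ip
  rw [map_sum]
  exact Finset.sum_congr rfl fun s _ => by rw [map_mul, Complex.conj_conj]; ring

lemma ip_unit {U : Matrix n n ℂ} (hU : Uᴴ * U = 1) (x y : n → ℂ) :
    ip (U *ᵥ x) (U *ᵥ y) = ip x y := by
  rw [ip_adj, Matrix.mulVec_mulVec, hU, Matrix.one_mulVec]

lemma nSq_nonneg (x : n → ℂ) : 0 ≤ normSq x := Finset.sum_nonneg fun _ _ => by positivity

lemma nSq_unit {U : Matrix n n ℂ} (hU : Uᴴ * U = 1) (x : n → ℂ) :
    normSq (U *ᵥ x) = normSq x := by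
  have h := ip_unit hU x x
  rw [ip_self, ip_self] at h
  exact_mod_cast h

lemma ip_cs (x y : n → ℂ) : ‖ip x y‖ ≤ Real.sqrt (normSq x) * Real.sqrt (normSq y) := by
  rw [ip_eq]
  have h := norm_inner_le_norm (𝕜 := ℂ) (WithLp.toLp 2 x : EuclideanSpace ℂ n) (WithLp.toLp 2 y)
  refine h.trans (le_of_eq ?_)
  rw [← nr_sq, ← nr_sq, Real.sqrt_sq (nr_nonneg x), Real.sqrt_sq (nr_nonneg y)]
  rfl

lemma diag_form (d : n → ℝ) (φ : n → ℂ) :
    ip φ (Mon (fun σ => ((d σ : ℝ) : ℂ)) (fun σ => σ) *ᵥ φ) = ((∑ σ, ‖φ σ‖ ^ 2 * d σ : ℝ) : ℂ) := by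
  unfold ip
  rw [Complex.ofReal_sum]
  refine Finset.sum_congr rfl fun σ _ => ?_
  rw [Mon_mulVec]
  have : (starRingEnd ℂ) (φ σ) * φ σ = ((‖φ σ‖ ^ 2 : ℝ) : ℂ) := by
    rw [mul_comm, Complex.mul_conj, Complex.normSq_eq_norm_sq]
  push_cast at this ⊢
  linear_combination (d σ : ℂ) * this

end ipl

/-- the real eigenvalues of the Pauli matrix `Z` -/
def zr (a : Fin 2) : ℝ := if a = 0 then 1 else -1

lemma z_eq (a : Fin 2) : z a = ((zr a : ℝ) : ℂ) := by
  unfold z zr; split_ifs <;> simp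

lemma zr_le (a : Fin 2) : zr a ≤ 1 := by
  unfold zr; split_ifs <;> norm_num

section spec

variable {J : Type*} [Fintype J] [DecidableEq J]

lemma normSq_vac0 : normSq (vac0 J) = 1 := by
  unfold Pool.Agent.TH235.PP.normSq vac0
  rw [Finset.sum_eq_single (0 : J → Fin 2)]
  · simp
  · intro σ _ h; rw [Pi.single_eq_of_ne h]; simp
  · intro h; exact absurd (Finset.mem_univ _) h

lemma ip_vac0 (φ : (J → Fin 2) → ℂ) : ip (vac0 J) φ = φ 0 := by
  unfold ip vac0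
  rw [Finset.sum_eq_single (0 : J → Fin 2)]
  · simp
  · intro σ _ h; rw [Pi.single_eq_of_ne h]; simp
  · intro h; exact absurd (Finset.mem_univ _) h

/-- the spectral inequality -/
theorem spec_ineq {A : Matrix (J → Fin 2) (J → Fin 2) ℂ} {U : Matrix (J → Fin 2) (J → Fin 2) ℂ}
    (h1 : Uᴴ * U = 1) (h2 : U * Uᴴ = 1) (ε : J → ℝ) (ε₀ : ℝ) (hε0 : 0 ≤ ε₀) (hε : ∀ m, ε₀ ≤ ε m)
    (h3 : A * U = U * Mon (fun σ => ∑ m, ((ε m : ℝ) : ℂ) * z (σ m)) (fun σ => σ))
    (ψ : (J → Fin 2) → ℂ) :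
    (ip ψ (A *ᵥ ψ)).re ≤ (∑ m, ε m) * normSq ψ -
      2 * ε₀ * (normSq ψ - ‖ip (U *ᵥ vac0 J) ψ‖ ^ 2) := by
  set φ := Uᴴ *ᵥ ψ with hφ
  have hψ : ψ = U *ᵥ φ := by
    rw [hφ, Matrix.mulVec_mulVec, h2, Matrix.one_mulVec]
  clear_value φ
  have e1 : ip ψ (A *ᵥ ψ) = ((∑ σ, ‖φ σ‖ ^ 2 * (∑ m, ε m * zr (σ m)) : ℝ) : ℂ) := by
    rw [hψ, Matrix.mulVec_mulVec, h3, ← Matrix.mulVec_mulVec, ip_unit h1, ← diag_form]
    congr 2
    apply Mon_congr
    · intro σ
      push_cast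
      exact Finset.sum_congr rfl fun m _ => by rw [z_eq]
    · intro σ; rfl
  have e2 : normSq ψ = ∑ σ, ‖φ σ‖ ^ 2 := by
    rw [hψ, nSq_unit h1]; rfl
  have e3 : ip (U *ᵥ vac0 J) ψ = φ 0 := by
    rw [hψ, ip_unit h1, ip_vac0]
  rw [e1, e2, e3, Complex.ofReal_re]
  have e4 : (∑ σ, ‖φ σ‖ ^ 2) - ‖φ 0‖ ^ 2 = ∑ σ, ‖φ σ‖ ^ 2 * (if σ = 0 then 0 else 1) := by
    rw [← Finset.add_sum_erase _ _ (Finset.mem_univ (0 : J → Fin 2)),
      ← Finset.add_sum_erase Finset.univ (fun σ => ‖φ σ‖ ^ 2 * (if σ = 0 then (0:ℝ) else 1)) (Finset.mem_univ (0 : J → Fin 2))]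
    rw [if_pos rfl, mul_zero, zero_add, add_sub_cancel_left]
    refine Finset.sum_congr rfl fun σ hσ => ?_
    rw [if_neg (Finset.ne_of_mem_erase hσ), mul_one]
  rw [e4, Finset.mul_sum, Finset.mul_sum, ← Finset.sum_sub_distrib]
  refine Finset.sum_le_sum fun σ _ => ?_
  have key : (∑ m, ε m * zr (σ m)) ≤ (∑ m, ε m) - 2 * ε₀ * (if σ = 0 then 0 else 1) := by
    by_cases hσ : σ = 0
    · subst hσ
      simp [zr]
    · rw [if_neg hσ, mul_one]
      obtain ⟨m, hm⟩ : ∃ m, σ m ≠ 0 := by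
        by_contra hall
        push Not at hall
        exact hσ (funext hall)
      rw [← Finset.add_sum_erase _ _ (Finset.mem_univ m), ← Finset.add_sum_erase _ ε (Finset.mem_univ m)]
      have h5 : zr (σ m) = -1 := by unfold zr; rw [if_neg hm]
      have h6 : (∑ k ∈ Finset.univ.erase m, ε k * zr (σ k)) ≤ ∑ k ∈ Finset.univ.erase m, ε k := by
        refine Finset.sum_le_sum fun k _ => ?_
        nlinarith [zr_le (σ k), hε k]
      rw [h5]
      nlinarith [hε m]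
  nlinarith [sq_nonneg ‖φ σ‖, mul_le_mul_of_nonneg_left key (sq_nonneg ‖φ σ‖)]

end spec

end Pool.Agent.K6.H5.PL
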