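import Pool.Agent.K6.H5.PL.Row

/-! The one-particle matrix of the ring: polar decomposition. -/

set_option autoImplicit false
set_option linter.unusedSectionVars false

open scoped BigOperators Matrix InnerProductSpace
open Finset Matrix

namespace Pool.Agent.K6.H5.PL

/-- the coefficients of `(1 - x) ^ (-1/2)` -/
noncomputable def dd (n : ℕ) : ℝ := ∏ i ∈ Finset.range n, (2 * (i : ℝ) + 1) / (2 * i + 2)

lemma dd_zero : dd 0 = 1 := by unfold dd; simp

lemma dd_succ (n : ℕ) : (2 * (n : ℝ) + 2) * dd (n + 1) = (2 * n + 1) * dd n := by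
  unfold dd
  rw [Finset.prod_range_succ]
  field_simp

lemma dd_pos (n : ℕ) : 0 < dd n := by
  unfold dd
  exact Finset.prod_pos fun i _ => by positivity

lemma dd_anti (n : ℕ) : dd (n + 1) ≤ dd n := by
  have h := dd_succ n
  have := dd_pos n
  have h2 : (0 : ℝ) ≤ n := Nat.cast_nonneg n
  nlinarith

lemma dd_le_one (n : ℕ) : dd n ≤ 1 := by
  induction n with
  | zero => rw [dd_zero]
  | succ n ih => exact (dd_anti n).trans ih

lemma dd_conv (n : ℕ) : ∑ p ∈ Finset.HasAntidiagonal.antidiagonal n, dd p.1 * dd p.2 = 1 := by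
  induction n with
  | zero => simp [dd_zero]
  | succ n ih =>
    have hsw : ∀ m : ℕ, 2 * ∑ p ∈ Finset.HasAntidiagonal.antidiagonal m, (p.1 : ℝ) * (dd p.1 * dd p.2) =
        m * ∑ p ∈ Finset.HasAntidiagonal.antidiagonal m, dd p.1 * dd p.2 := by
      intro m
      have h1 : ∑ p ∈ Finset.HasAntidiagonal.antidiagonal m, (p.1 : ℝ) * (dd p.1 * dd p.2) =
          ∑ p ∈ Finset.HasAntidiagonal.antidiagonal m, (p.2 : ℝ) * (dd p.1 * dd p.2) := by
        rw [← Finset.Nat.sum_antidiagonal_swap]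
        refine Finset.sum_congr rfl fun p _ => ?_
        simp only [Prod.fst_swap, Prod.snd_swap]
        ring
      rw [two_mul]
      nth_rewrite 2 [h1]
      rw [← Finset.sum_add_distrib, Finset.mul_sum]
      refine Finset.sum_congr rfl fun p hp => ?_
      rw [Finset.HasAntidiagonal.mem_antidiagonal] at hp
      rw [← hp]
      push_cast; ring
    have h2 : ∑ p ∈ Finset.HasAntidiagonal.antidiagonal (n + 1), 2 * (p.1 : ℝ) * (dd p.1 * dd p.2) =
        ∑ p ∈ Finset.HasAntidiagonal.antidiagonal n, (2 * (p.1 : ℝ) + 1) * (dd p.1 * dd p.2) := by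
      rw [Finset.Nat.sum_antidiagonal_succ]
      simp only [Nat.cast_zero, mul_zero, zero_mul, zero_add]
      refine Finset.sum_congr rfl fun p _ => ?_
      have := dd_succ p.1
      push_cast
      linear_combination (dd p.2) * this
    have h3 : ∑ p ∈ Finset.HasAntidiagonal.antidiagonal (n + 1), 2 * (p.1 : ℝ) * (dd p.1 * dd p.2) =
        (n + 1 : ℝ) * ∑ p ∈ Finset.HasAntidiagonal.antidiagonal (n + 1), dd p.1 * dd p.2 := by
      have := hsw (n + 1)
      push_cast at this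
      rw [← this, Finset.mul_sum]
      exact Finset.sum_congr rfl fun p _ => by ring
    have h4 : ∑ p ∈ Finset.HasAntidiagonal.antidiagonal n, (2 * (p.1 : ℝ) + 1) * (dd p.1 * dd p.2) = (n + 1 : ℝ) := by
      have := hsw n
      rw [ih] at this
      have h5 : ∑ p ∈ Finset.HasAntidiagonal.antidiagonal n, (2 * (p.1 : ℝ) + 1) * (dd p.1 * dd p.2) =
          2 * ∑ p ∈ Finset.HasAntidiagonal.antidiagonal n, (p.1 : ℝ) * (dd p.1 * dd p.2) +
          ∑ p ∈ Finset.HasAntidiagonal.antidiagonal n, dd p.1 * dd p.2 := by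
        rw [Finset.mul_sum, ← Finset.sum_add_distrib]
        exact Finset.sum_congr rfl fun p _ => by ring
      rw [h5, this, ih]
      ring
    have h6 : (n + 1 : ℝ) * ∑ p ∈ Finset.HasAntidiagonal.antidiagonal (n + 1), dd p.1 * dd p.2 = (n + 1 : ℝ) := by
      rw [← h3, h2, h4]
    have h7 : (n + 1 : ℝ) ≠ 0 := by positivity
    field_simp at h6
    linarith

open scoped Matrix.Norms.L2Operator

section series

variable {J : Type*} [Fintype J] [DecidableEq J]

lemma norm_orth {S : Matrix J J ℝ} (hS : Sᵀ * S = 1) : ‖S‖ ≤ 1 := by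
  have h1 : ‖S‖ * ‖S‖ = ‖(1 : Matrix J J ℝ)‖ := by
    rw [← Matrix.l2_opNorm_conjTranspose_mul_self, Matrix.conjTranspose_eq_transpose_of_trivial, hS]
  have h2 : ‖(1 : Matrix J J ℝ)‖ ≤ 1 := by
    have h3 : ‖(1 : Matrix J J ℝ)‖ * ‖(1 : Matrix J J ℝ)‖ = ‖(1 : Matrix J J ℝ)‖ := by
      rw [← Matrix.l2_opNorm_conjTranspose_mul_self]; simp
    nlinarith [norm_nonneg (1 : Matrix J J ℝ), sq_nonneg (‖(1 : Matrix J J ℝ)‖ - 1)]
  nlinarith [norm_nonneg S]

lemma norm_orth_pow {S : Matrix J J ℝ} (hS : Sᵀ * S = 1) (a : ℕ) : ‖S ^ a‖ ≤ 1 := by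
  apply norm_orth
  induction a with
  | zero => simp
  | succ a ih =>
    rw [pow_succ, Matrix.transpose_mul, Matrix.mul_assoc, ← Matrix.mul_assoc (S ^ a)ᵀ, ih,
      Matrix.one_mul, hS]

/-- `(1 - lam S) ^ (-1/2)` -/
noncomputable def Wm (S : Matrix J J ℝ) (lam : ℝ) : Matrix J J ℝ := ∑' a : ℕ, (dd a * lam ^ a) • S ^ a

lemma W_term {S : Matrix J J ℝ} (hS : Sᵀ * S = 1) {lam : ℝ} (h0 : 0 ≤ lam) (a : ℕ) :
    ‖(dd a * lam ^ a) • S ^ a‖ ≤ lam ^ a := by
  rw [norm_smul, Real.norm_eq_abs, abs_of_nonneg (mul_nonneg (dd_pos a).le (pow_nonneg h0 a))]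
  have h1 := dd_le_one a
  have h2 := norm_orth_pow hS a
  have h3 := (dd_pos a).le
  have h4 : 0 ≤ lam ^ a := pow_nonneg h0 a
  calc dd a * lam ^ a * ‖S ^ a‖ ≤ 1 * lam ^ a * 1 := by
        apply mul_le_mul _ h2 (norm_nonneg _) (by positivity)
        exact mul_le_mul_of_nonneg_right h1 h4
    _ = lam ^ a := by ring

lemma W_summable {S : Matrix J J ℝ} (hS : Sᵀ * S = 1) {lam : ℝ} (h0 : 0 ≤ lam) (h1 : lam < 1) :
    Summable fun a : ℕ => ‖(dd a * lam ^ a) • S ^ a‖ :=
  Summable.of_nonneg_of_le (fun _ => norm_nonneg _) (W_term hS h0)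
    (summable_geometric_of_lt_one h0 h1)

lemma W_comm {S : Matrix J J ℝ} (hS : Sᵀ * S = 1) {lam : ℝ} (h0 : 0 ≤ lam) (h1 : lam < 1)
    {X : Matrix J J ℝ} (hX : X * S = S * X) : X * Wm S lam = Wm S lam * X := by
  have hs := (W_summable hS h0 h1).of_norm
  unfold Wm
  rw [← hs.tsum_mul_left, ← hs.tsum_mul_right]
  congr 1
  funext a
  rw [mul_smul_comm, smul_mul_assoc]
  congr 1
  exact (Commute.pow_right (show Commute X S from hX) a)

lemma W_sq {S : Matrix J J ℝ} (hS : Sᵀ * S = 1) {lam : ℝ} (h0 : 0 ≤ lam) (h1 : lam < 1) :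
    (1 - lam • S) * (Wm S lam * Wm S lam) = 1 := by
  have hs := W_summable hS h0 h1
  have e1 : Wm S lam * Wm S lam = ∑' n : ℕ, (lam • S) ^ n := by
    unfold Wm
    rw [tsum_mul_tsum_eq_tsum_sum_antidiagonal_of_summable_norm hs hs]
    congr 1
    funext n
    have : ∀ p ∈ Finset.HasAntidiagonal.antidiagonal n, ((dd p.1 * lam ^ p.1) • S ^ p.1) * ((dd p.2 * lam ^ p.2) • S ^ p.2) =
        (dd p.1 * dd p.2) • (lam • S) ^ n := by
      intro p hp
      rw [Finset.HasAntidiagonal.mem_antidiagonal] at hp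
      rw [smul_mul_smul_comm, ← pow_add, hp, smul_pow, smul_smul]
      congr 1
      rw [← hp, pow_add]
      ring
    rw [Finset.sum_congr rfl this, ← Finset.sum_smul, dd_conv, one_smul]
  rw [e1]
  apply mul_neg_geom_series
  rw [norm_smul, Real.norm_eq_abs, abs_of_nonneg h0]
  have := norm_orth hS
  nlinarith [norm_nonneg S]

/-- the orthogonal part of `1 - lam S` -/
noncomputable def Mm (S : Matrix J J ℝ) (lam : ℝ) : Matrix J J ℝ :=
  (1 - lam • S) * (Wm S lam * (Wm S lam)ᵀ)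

lemma M_facts {S : Matrix J J ℝ} (hS : Sᵀ * S = 1) {lam : ℝ} (h0 : 0 ≤ lam) (h1 : lam < 1) :
    (Mm S lam)ᵀ * Mm S lam = 1 ∧ ((Mm S lam)ᵀ * (1 - lam • S)).PosSemidef := by
  have hS' : S * Sᵀ = 1 := mul_eq_one_comm.1 hS
  set A := (1 : Matrix J J ℝ) - lam • S with hA
  set W := Wm S lam with hW
  have hSt : Sᵀ * S = S * Sᵀ := by rw [hS, hS']
  have cStW : Sᵀ * W = W * Sᵀ := W_comm hS h0 h1 hSt
  have cSW : S * W = W * S := W_comm hS h0 h1 rfl
  have cWtS : Wᵀ * S = S * Wᵀ := by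
    have := congrArg Matrix.transpose cStW
    rw [Matrix.transpose_mul, Matrix.transpose_mul, Matrix.transpose_transpose] at this
    exact this
  have cWtW : Wᵀ * W = W * Wᵀ := W_comm hS h0 h1 cWtS
  have cAW : A * W = W * A := by
    rw [hA, Matrix.sub_mul, Matrix.mul_sub, Matrix.one_mul, Matrix.mul_one, smul_mul_assoc,
      mul_smul_comm, cSW]
  have cAWt : A * Wᵀ = Wᵀ * A := by
    rw [hA, Matrix.sub_mul, Matrix.mul_sub, Matrix.one_mul, Matrix.mul_one, smul_mul_assoc,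
      mul_smul_comm, cWtS]
  have cAAt : A * Aᵀ = Aᵀ * A := by
    rw [hA, Matrix.transpose_sub, Matrix.transpose_one, Matrix.transpose_smul]
    rw [Matrix.sub_mul, Matrix.mul_sub, Matrix.mul_sub, Matrix.sub_mul, Matrix.mul_sub, Matrix.mul_sub,
      smul_mul_smul_comm, smul_mul_smul_comm, hSt]
    simp only [Matrix.one_mul, Matrix.mul_one]
    abel
  have hsq : A * (W * W) = 1 := W_sq hS h0 h1
  have hsqt : Wᵀ * Wᵀ * Aᵀ = 1 := by
    have := congrArg Matrix.transpose hsq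
    rw [Matrix.transpose_mul, Matrix.transpose_mul, Matrix.transpose_one] at this
    exact this
  have CAW : Commute A W := cAW
  have CAWt : Commute A Wᵀ := cAWt
  have CAAt : Commute A Aᵀ := cAAt
  have CWtW : Commute Wᵀ W := cWtW
  have CAtW : Commute Aᵀ W := by
    have := congrArg Matrix.transpose cAWt
    rw [Matrix.transpose_mul, Matrix.transpose_mul, Matrix.transpose_transpose] at this
    exact this.symm
  have CAtWt : Commute Aᵀ Wᵀ := by
    have := congrArg Matrix.transpose cAW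
    rw [Matrix.transpose_mul, Matrix.transpose_mul] at this
    exact this.symm
  have hM : Mm S lam = A * (W * Wᵀ) := rfl
  have hMt : (Mm S lam)ᵀ = W * Wᵀ * Aᵀ := by
    rw [hM, Matrix.transpose_mul, Matrix.transpose_mul, Matrix.transpose_transpose]
  constructor
  · rw [hMt, hM]
    calc W * Wᵀ * Aᵀ * (A * (W * Wᵀ)) = W * (Wᵀ * Aᵀ) * (A * W * Wᵀ) := by
          simp only [Matrix.mul_assoc]
      _ = W * ((Wᵀ * Aᵀ) * (A * W)) * Wᵀ := by simp only [Matrix.mul_assoc]
      _ = W * ((A * W) * (Wᵀ * Aᵀ)) * Wᵀ := by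
          have : Commute (Wᵀ * Aᵀ) (A * W) :=
            ((CAWt.symm.mul_right CWtW).mul_left (CAAt.symm.mul_right CAtW))
          rw [this.eq]
      _ = (W * A * W) * (Wᵀ * Aᵀ * Wᵀ) := by simp only [Matrix.mul_assoc]
      _ = (A * (W * W)) * (Wᵀ * Wᵀ * Aᵀ) := by
          rw [← CAW.eq, Matrix.mul_assoc A, Matrix.mul_assoc Wᵀ, CAtWt.eq]
          simp only [Matrix.mul_assoc]
      _ = 1 := by rw [hsq, hsqt, Matrix.one_mul]
  · rw [hMt]
    have : W * Wᵀ * Aᵀ * A = (A * W)ᵀ * (A * W) := by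
      rw [Matrix.transpose_mul]
      calc W * Wᵀ * Aᵀ * A = W * (Wᵀ * Aᵀ * A) := by simp only [Matrix.mul_assoc]
        _ = (Wᵀ * Aᵀ * A) * W := by
          have : Commute W (Wᵀ * Aᵀ * A) :=
            (CWtW.symm.mul_right CAtW.symm).mul_right CAW.symm
          rw [this.eq]
        _ = _ := by simp only [Matrix.mul_assoc]
    rw [this, ← Matrix.conjTranspose_eq_transpose_of_trivial]
    exact Matrix.posSemidef_conjTranspose_mul_self _

end series

end Pool.Agent.K6.H5.PL
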