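import Pool.Agent.K6.H5.PL.Row
import Pool.Agent.K6.H5.PL.OneP

/-! Singular value decomposition of `1 - lam S` for an orthogonal matrix `S`. -/

set_option autoImplicit false
set_option linter.unusedSectionVars false

open scoped BigOperators Matrix InnerProductSpace
open Finset Matrix Pool.Agent.TH235.PP

namespace Pool.Agent.K6.H5.PL

variable {J : Type*} [Fintype J] [DecidableEq J]

lemma orth_ip {M : Matrix J J ℝ} (hM : Mᵀ * M = 1) (x y : J → ℝ) : (M *ᵥ x) ⬝ᵥ (M *ᵥ y) = x ⬝ᵥ y := by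
  rw [Matrix.dotProduct_mulVec, Matrix.vecMul_mulVec, hM, Matrix.vecMul_one]

lemma inner_dot (x y : EuclideanSpace ℝ J) : ⟪x, y⟫_ℝ = x.ofLp ⬝ᵥ y.ofLp := by
  rw [PiLp.inner_apply]
  unfold dotProduct
  exact Finset.sum_congr rfl fun i _ => by simp [mul_comm]

/-- the isometry of an orthogonal matrix -/
noncomputable def isoM (M : Matrix J J ℝ) (hM : Mᵀ * M = 1) :
    EuclideanSpace ℝ J ≃ₗᵢ[ℝ] EuclideanSpace ℝ J :=
  LinearEquiv.isometryOfInner
    (LinearEquiv.ofLinearMap (Matrix.toEuclideanLin M) (Matrix.toEuclideanLin Mᵀ)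
      (by
        ext x i
        simp [Matrix.mulVec_mulVec, mul_eq_one_comm.1 hM])
      (by
        ext x i
        simp [Matrix.mulVec_mulVec, hM]))
    (by
      intro x y
      rw [inner_dot, inner_dot]
      exact orth_ip hM _ _)

lemma isoM_apply (M : Matrix J J ℝ) (hM : Mᵀ * M = 1) (x : EuclideanSpace ℝ J) :
    isoM M hM x = WithLp.toLp 2 (M *ᵥ x.ofLp) := rfl

lemma isoM_det (M : Matrix J J ℝ) (hM : Mᵀ * M = 1) :
    LinearMap.det (isoM M hM).toLinearEquiv.toLinearMap = M.det := by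
  have : (isoM M hM).toLinearEquiv.toLinearMap = Matrix.toEuclideanLin M := by
    ext x i; rfl
  rw [this]
  rw [Matrix.toEuclideanLin_eq_toLin_orthonormal, LinearMap.det_toLin]

lemma Mm_det {S : Matrix J J ℝ} (hS : Sᵀ * S = 1) {lam : ℝ} (h0 : 0 ≤ lam) (h1 : lam < 1) :
    (Mm S lam).det = 1 := by
  have h := congrArg Matrix.det (W_sq hS h0 h1)
  unfold Mm
  rw [Matrix.det_mul, Matrix.det_mul, Matrix.det_one] at h
  rw [Matrix.det_mul, Matrix.det_mul, Matrix.det_transpose]
  exact h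

theorem svd_of {S : Matrix J J ℝ} (hS : Sᵀ * S = 1) {lam : ℝ} (h0 : 0 ≤ lam) (h1 : lam < 1) :
    ∃ (O1 O2 : EuclideanSpace ℝ J ≃ₗᵢ[ℝ] EuclideanSpace ℝ J) (ε : J → ℝ),
      HasSvd (1 - lam • S) O1 O2 ε (1 - lam) ∧
      ∀ v, O1 v = WithLp.toLp 2 (Mm S lam *ᵥ (O2 v).ofLp) := by
  obtain ⟨hM, hB⟩ := M_facts hS h0 h1
  set M := Mm S lam with hMdef
  set B := Mᵀ * (1 - lam • S) with hBdef
  have hMM : M * Mᵀ = 1 := mul_eq_one_comm.1 hM
  have hA : (1 : Matrix J J ℝ) - lam • S = M * B := by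
    rw [hBdef, ← Matrix.mul_assoc, hMM, Matrix.one_mul]
  have hH := hB.isHermitian
  set b := hH.eigenvectorBasis with hb
  set ε := hH.eigenvalues with hε
  have hBb : ∀ m, B *ᵥ (b m).ofLp = ε m • (b m).ofLp := fun m => hH.mulVec_eigenvectorBasis m
  set O2 : EuclideanSpace ℝ J ≃ₗᵢ[ℝ] EuclideanSpace ℝ J := b.repr.symm with hO2
  have hO2b : ∀ m, O2 (EuclideanSpace.single m 1) = b m := fun m => b.repr_symm_single m
  refine ⟨O2.trans (isoM M hM), O2, ε, ⟨?_, ?_, ?_⟩, ?_⟩
  · intro j k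
    have e1 : ∀ m, (O2.trans (isoM M hM)) (EuclideanSpace.single m 1) j = (M *ᵥ (b m).ofLp) j := by
      intro m
      rw [LinearIsometryEquiv.trans_apply, hO2b, isoM_apply]
    have e2 : ∀ m, O2 (EuclideanSpace.single m 1) k = (b m).ofLp k := by
      intro m; rw [hO2b]
    rw [Finset.sum_congr rfl fun m _ => by rw [e1, e2]]
    have e3 : ∀ m, ε m * ((M *ᵥ (b m).ofLp) j * (b m).ofLp k) =
        ((1 - lam • S) *ᵥ (b m).ofLp) j * (b m).ofLp k := by
      intro m
      rw [hA, ← Matrix.mulVec_mulVec, hBb, Matrix.mulVec_smul, Pi.smul_apply, smul_eq_mul]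
      ring
    rw [Finset.sum_congr rfl fun m _ => e3 m]
    -- completeness
    have e4 : ∀ l, ∑ m, (b m).ofLp l * (b m).ofLp k = if l = k then 1 else 0 := by
      intro l
      have h5 := b.sum_inner_mul_inner (EuclideanSpace.single l (1:ℝ)) (EuclideanSpace.single k (1:ℝ))
      rw [EuclideanSpace.inner_single_left] at h5
      simp only [EuclideanSpace.inner_single_left, EuclideanSpace.inner_single_right] at h5
      simp only [map_one, one_mul, EuclideanSpace.single_apply] at h5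
      rw [← h5]
      refine Finset.sum_congr rfl fun m _ => ?_
      simp
    calc ((1 : Matrix J J ℝ) - lam • S) j k = ∑ l, ((1 : Matrix J J ℝ) - lam • S) j l * (if l = k then 1 else 0) := by
          simp
      _ = ∑ l, ((1 : Matrix J J ℝ) - lam • S) j l * ∑ m, (b m).ofLp l * (b m).ofLp k :=
          Finset.sum_congr rfl fun l _ => by rw [e4]
      _ = ∑ l, ∑ m, ((1 : Matrix J J ℝ) - lam • S) j l * ((b m).ofLp l * (b m).ofLp k) :=
          Finset.sum_congr rfl fun l _ => by rw [Finset.mul_sum]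
      _ = ∑ m, ∑ l, ((1 : Matrix J J ℝ) - lam • S) j l * ((b m).ofLp l * (b m).ofLp k) := Finset.sum_comm
      _ = _ := by
          refine Finset.sum_congr rfl fun m _ => ?_
          unfold Matrix.mulVec dotProduct
          rw [Finset.sum_mul]
          exact Finset.sum_congr rfl fun l _ => by ring
  · intro m
    -- ‖A b‖ = ε
    have hn : (b m).ofLp ⬝ᵥ (b m).ofLp = 1 := by
      rw [← inner_dot, real_inner_self_eq_norm_sq, b.norm_eq_one]; norm_num
    have hS1 : (S *ᵥ (b m).ofLp) ⬝ᵥ (S *ᵥ (b m).ofLp) = 1 := by rw [orth_ip hS, hn]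
    have hε0 : 0 ≤ ε m := hB.eigenvalues_nonneg m
    have hAb : ((1 - lam • S) *ᵥ (b m).ofLp) ⬝ᵥ ((1 - lam • S) *ᵥ (b m).ofLp) = ε m ^ 2 := by
      rw [hA, ← Matrix.mulVec_mulVec, hBb, orth_ip hM, dotProduct_smul, smul_dotProduct, hn]
      simp [pow_two]
    set x := (b m).ofLp with hx
    set y := S *ᵥ x with hy
    have hcs : x ⬝ᵥ y ≤ 1 := by
      have h6 : 0 ≤ (x - y) ⬝ᵥ (x - y) := by
        unfold dotProduct
        exact Finset.sum_nonneg fun i _ => mul_self_nonneg _
      rw [sub_dotProduct, dotProduct_sub, dotProduct_sub, hn, hS1, dotProduct_comm y x] at h6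
      linarith
    have hexp : ((1 - lam • S) *ᵥ x) ⬝ᵥ ((1 - lam • S) *ᵥ x) = 1 - 2 * lam * (x ⬝ᵥ y) + lam ^ 2 := by
      rw [Matrix.sub_mulVec, Matrix.one_mulVec, Matrix.smul_mulVec, ← hy, sub_dotProduct, dotProduct_sub,
        dotProduct_sub, hn, smul_dotProduct, dotProduct_smul, dotProduct_smul, smul_dotProduct, hS1,
        dotProduct_comm y x]
      simp only [smul_eq_mul]
      ring
    rw [hexp] at hAb
    by_contra hlt
    push Not at hlt
    have h7 : ε m ^ 2 < (1 - lam) ^ 2 := by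
      apply pow_lt_pow_left₀ hlt hε0 (by norm_num)
    nlinarith
  · have h8 : LinearMap.det (O2.trans (isoM M hM)).toLinearEquiv.toLinearMap =
        M.det * LinearMap.det O2.toLinearEquiv.toLinearMap := by
      rw [← isoM_det M hM, ← LinearMap.det_comp]
      rfl
    rw [h8, Mm_det hS h0 h1, one_mul]
    -- det of an isometry squares to one
    have hpos : Function.Injective (fun j : J => ((Fintype.equivFin J j : Fin _) : ℕ)) := fun a b h =>
      (Fintype.equivFin J).injective (Fin.ext h)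
    obtain ⟨_, s, _, _, hs, hss, _⟩ := rot (cliff_ga hpos) O2
    rw [← hs]
    exact hss
  · intro v
    rw [LinearIsometryEquiv.trans_apply, isoM_apply]

end Pool.Agent.K6.H5.PL
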