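import Pool.Agent.K6.H5.PL.Torus
import Pool.Agent.K6.H5.PL.Svd

/-! The interaction on the `2 × 2` box whose Hamiltonian on the torus consists of decoupled
transverse-field Ising rings. -/

set_option autoImplicit false
set_option linter.unusedSectionVars false

open scoped BigOperators Matrix InnerProductSpace
open Finset Matrix Complex Pool.Agent.TH235.PP

namespace Pool.Agent.K6.H5.PL

/-- The interaction `-Z_{(0,0)} - lam X_{(0,0)} X_{(0,1)}`. -/
noncomputable def hbox (lam : ℝ) : BoxOp 2 2 :=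
  -Zo ((0, 0) : Fin 2 × Fin 2) - ((lam : ℝ) : ℂ) • (Xo ((0, 0) : Fin 2 × Fin 2) * Xo ((0, 1) : Fin 2 × Fin 2))

section

variable {L : ℕ} [NeZero L]

lemma sh_inj (hL : 2 ≤ L) (u : Site L) : Function.Injective (sh u : Fin 2 × Fin 2 → Site L) := by
  rintro ⟨a, b⟩ ⟨c, d⟩ h
  have key : ∀ x y : Fin 2, ((x : ℕ) : ZMod L) = ((y : ℕ) : ZMod L) → x = y := by
    intro x y hxy
    have h1 := congrArg ZMod.val hxy
    rw [ZMod.val_natCast, ZMod.val_natCast, Nat.mod_eq_of_lt (by omega), Nat.mod_eq_of_lt (by omega)] at h1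
    exact Fin.ext h1
  unfold sh at h
  rw [Prod.mk.injEq] at h
  have h1 := key _ _ (add_left_cancel h.1)
  have h2 := key _ _ (add_left_cancel h.2)
  exact Prod.ext h1 h2

lemma sh00 (u : Site L) : sh u ((0, 0) : Fin 2 × Fin 2) = u := by
  unfold sh; simp

lemma sh01 (u : Site L) : sh u ((0, 1) : Fin 2 × Fin 2) = (u.1, u.2 + 1) := by
  unfold sh; simp

lemma term_ap (h : BoxOp 2 2) (u : Site L) (s t : Site L → Fin 2) :
    term h u s t = (open Classical in if ∀ v, (∀ x : Fin 2 × Fin 2, sh u x ≠ v) → s v = t v then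
      h (fun x => s (sh u x)) (fun x => t (sh u x)) else 0) := by
  unfold term
  congr

lemma term_lin (A B : BoxOp 2 2) (c : ℂ) (u : Site L) :
    term (-A - c • B) u = -term A u - c • (term B u : TorOp 2 L) := by
  classical
  ext s t
  rw [Matrix.sub_apply, Matrix.neg_apply, Matrix.smul_apply, term_ap, term_ap, term_ap]
  split_ifs
  · rw [Matrix.sub_apply, Matrix.neg_apply, Matrix.smul_apply]
  · simp

lemma flp_sh (hL : 2 ≤ L) (u : Site L) (x : Fin 2 × Fin 2) (s : Site L → Fin 2) :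
    (fun y => flp (sh u x) s (sh u y)) = flp x (fun y => s (sh u y)) := by
  funext y
  by_cases h : y = x
  · subst h; rw [flp_same, flp_same]
  · rw [flp_ne h, flp_ne (fun hh => h (sh_inj hL u hh))]

lemma eq_of_box (u : Site L) {s t : Site L → Fin 2}
    (h1 : ∀ v, (∀ x : Fin 2 × Fin 2, sh u x ≠ v) → s v = t v)
    (h2 : (fun y : Fin 2 × Fin 2 => t (sh u y)) = fun y => s (sh u y)) : t = s := by
  funext v
  by_cases hv : ∃ x : Fin 2 × Fin 2, sh u x = v
  · obtain ⟨x, rfl⟩ := hv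
    exact congrFun h2 x
  · push Not at hv
    exact (h1 v hv).symm

lemma term_Zo (u : Site L) : term (Zo ((0, 0) : Fin 2 × Fin 2)) u = (Zo u : TorOp 2 L) := by
  classical
  ext s t
  rw [term_ap]
  unfold Zo
  rw [Mon_ap, Mon_ap]
  simp only [sh00]
  by_cases h : t = s
  · subst h
    simp
  · rw [if_neg h]
    split_ifs with h1 h2
    · exact absurd (eq_of_box u h1 h2) h
    · rfl
    · rfl

lemma XX_ap {J : Type*} [Fintype J] [DecidableEq J] (a b : J) (s t : J → Fin 2) :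
    (Xo a * Xo b) s t = if t = flp b (flp a s) then 1 else 0 := by
  rw [Xo_mul]
  unfold Xo
  rw [Mon_ap]

lemma term_XX (hL : 2 ≤ L) (u : Site L) :
    term (Xo ((0, 0) : Fin 2 × Fin 2) * Xo ((0, 1) : Fin 2 × Fin 2)) u =
      (Xo u * Xo (u.1, u.2 + 1) : TorOp 2 L) := by
  classical
  ext s t
  rw [term_ap, XX_ap, XX_ap, ← flp_sh hL u (0, 0), ← flp_sh hL u (0, 1), sh00, sh01]
  set S := flp (u.1, u.2 + 1) (flp u s) with hS
  have hoff : ∀ v, (∀ x : Fin 2 × Fin 2, sh u x ≠ v) → S v = s v := by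
    intro v hv
    rw [hS, flp_ne, flp_ne]
    · intro hh; exact hv (0, 0) (by rw [sh00, hh])
    · intro hh; exact hv (0, 1) (by rw [sh01, hh])
  by_cases h : t = S
  · rw [if_pos h, if_pos, if_pos (by rw [h])]
    intro v hv
    rw [h, hoff v hv]
  · rw [if_neg h]
    split_ifs with h1 h2
    · exact absurd (eq_of_box u (fun v hv => (hoff v hv).trans (h1 v hv)) h2) h
    · rfl
    · rfl

theorem ham_eq (hL : 2 ≤ L) (lam : ℝ) :
    ham (hbox lam) L = (∑ r : ZMod L, lft r (rowH L lam) : TorOp 2 L) := by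
  unfold ham hbox rowH
  have h1 : ∀ u : Site L, term (-Zo ((0, 0) : Fin 2 × Fin 2) - ((lam : ℝ) : ℂ) •
      (Xo ((0, 0) : Fin 2 × Fin 2) * Xo ((0, 1) : Fin 2 × Fin 2))) u =
      (-Zo u - ((lam : ℝ) : ℂ) • (Xo u * Xo (u.1, u.2 + 1)) : TorOp 2 L) := by
    intro u
    rw [term_lin, term_Zo, term_XX hL]
  rw [Finset.sum_congr rfl fun u _ => h1 u, Fintype.sum_prod_type]
  refine Finset.sum_congr rfl fun r _ => ?_
  rw [lft_sub, lft_neg, lft_smul, lft_sum, lft_sum, Finset.sum_sub_distrib, Finset.sum_neg_distrib,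
    Finset.smul_sum]
  congr 1
  · congr 1
    exact Finset.sum_congr rfl fun j _ => by rw [lft_Zo]
  · exact Finset.sum_congr rfl fun j _ => by rw [lft_mul, lft_Xo, lft_Xo]

lemma hbox_herm (lam : ℝ) : (hbox lam).IsHermitian := by
  unfold Matrix.IsHermitian hbox
  have h1 : ∀ a : Fin 2 × Fin 2, (Zo a)ᴴ = Zo a := by
    intro a
    unfold Zo
    rw [Mon_conj _ _ (fun σ => rfl)]
    apply Mon_congr
    · intro σ; exact z_star _
    · intro σ; rfl
  have h2 : ∀ a : Fin 2 × Fin 2, (Xo a)ᴴ = Xo a := by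
    intro a
    unfold Xo
    rw [Mon_conj _ _ (flp_flp a)]
    apply Mon_congr
    · intro σ; simp
    · intro σ; rfl
  have h3 : Xo ((0, 1) : Fin 2 × Fin 2) * Xo ((0, 0) : Fin 2 × Fin 2) =
      Xo ((0, 0) : Fin 2 × Fin 2) * Xo ((0, 1) : Fin 2 × Fin 2) := by
    unfold Xo
    rw [Mon_mul, Mon_mul]
    apply Mon_congr
    · intro σ; rfl
    · intro σ; rw [flp_comm]
  rw [conjTranspose_sub, conjTranspose_neg, conjTranspose_smul, conjTranspose_mul, h1, h2, h2, h3]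
  congr 2
  exact Complex.conj_ofReal lam

lemma Sh_orth (s : ℝ) (hs : s * s = 1) : (Sh L s)ᵀ * Sh L s = 1 := by
  ext k l
  rw [Matrix.mul_apply, Finset.sum_eq_single (k + 1)]
  · rw [Matrix.transpose_apply]
    unfold Sh
    rw [if_pos rfl]
    by_cases h : k = l
    · subst h
      rw [if_pos rfl, Matrix.one_apply_eq]
      split_ifs
      · linarith [hs]
      · norm_num
    · rw [if_neg (fun hh => h (add_right_cancel hh)), mul_zero, Matrix.one_apply_ne h]
  · intro j _ hj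
    rw [Matrix.transpose_apply]
    unfold Sh
    rw [if_neg hj, zero_mul]
  · intro h; exact absurd (Finset.mem_univ _) h

/-- The ground state of the ring. -/
theorem row_ground (hL : 2 ≤ L) (lam : ℝ) (h0 : 0 ≤ lam) (h1 : lam < 1) :
    ∃ (Ω : (ZMod L → Fin 2) → ℂ) (E : ℝ), normSq Ω = 1 ∧ rowH L lam *ᵥ Ω = (E : ℂ) • Ω ∧
      (∀ ψ : (ZMod L → Fin 2) → ℂ, E * normSq ψ + (2 - 4 * lam) *
        (normSq ψ - ‖ip Ω ψ‖ ^ 2) ≤ (ip ψ (rowH L lam *ᵥ ψ)).re) ∧
      Exch (ga (ZMod.val : ZMod L → ℕ)) (gb (ZMod.val : ZMod L → ℕ)) Ω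
        (fun v => WithLp.toLp 2 (Mm (Sh L 1) lam *ᵥ v.ofLp)) := by
  obtain ⟨O1, O2, ε, hsvd, hO⟩ := svd_of (Sh_orth (L := L) 1 (by norm_num)) h0 h1
  obtain ⟨O1', O2', ε', hsvd', -⟩ := svd_of (Sh_orth (L := L) (-1) (by norm_num)) h0 h1
  obtain ⟨U, E, u1, u2, u3, u4, u5⟩ := row_gap hL lam h0 O1 O2 O1' O2' ε ε' hsvd hsvd' h1.le
  refine ⟨U *ᵥ vac0 (ZMod L), E, by rw [nSq_unit u1, normSq_vac0], u3, u4, ?_⟩
  have hM := (M_facts (Sh_orth (L := L) 1 (by norm_num)) h0 h1).1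
  refine ⟨cliff_ga val_inj, cliff_gb val_inj, fun k l => gb_ga val_inj k l, ?_, ?_, by
    rw [nSq_unit u1, normSq_vac0]⟩
  · intro v
    obtain ⟨v', rfl⟩ := O2.surjective v
    rw [u5, hO]
  · intro v
    obtain ⟨v', hv'⟩ := (isoM _ hM).surjective v
    exact ⟨v', hv'⟩

lemma rowH_herm (lam : ℝ) : (rowH L lam).IsHermitian := by
  unfold Matrix.IsHermitian rowH
  have h1 : ∀ a : ZMod L, (Zo a)ᴴ = Zo a := by
    intro a
    unfold Zo
    rw [Mon_conj _ _ (fun σ => rfl)]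
    apply Mon_congr
    · intro σ; exact z_star _
    · intro σ; rfl
  have h2 : ∀ a : ZMod L, (Xo a)ᴴ = Xo a := by
    intro a
    unfold Xo
    rw [Mon_conj _ _ (flp_flp a)]
    apply Mon_congr
    · intro σ; simp
    · intro σ; rfl
  have h3 : ∀ a b : ZMod L, Xo b * Xo a = Xo a * Xo b := by
    intro a b
    unfold Xo
    rw [Mon_mul, Mon_mul]
    apply Mon_congr
    · intro σ; rfl
    · intro σ; rw [flp_comm]
  rw [conjTranspose_sub, conjTranspose_neg, conjTranspose_smul, conjTranspose_sum, conjTranspose_sum]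
  congr 1
  · congr 1
    exact Finset.sum_congr rfl fun j _ => h1 j
  · congr 1
    · exact Complex.conj_ofReal lam
    · exact Finset.sum_congr rfl fun j _ => by rw [conjTranspose_mul, h2, h2, h3]

theorem torus_ground (hL : 2 ≤ L) (lam : ℝ) (h1 : lam < 1 / 2)
    (Ω : (ZMod L → Fin 2) → ℂ) (E : ℝ) (hΩ : normSq Ω = 1) (hE : rowH L lam *ᵥ Ω = (E : ℂ) • Ω)
    (hform : ∀ ψ : (ZMod L → Fin 2) → ℂ, E * normSq ψ + (2 - 4 * lam) *
        (normSq ψ - ‖ip Ω ψ‖ ^ 2) ≤ (ip ψ (rowH L lam *ᵥ ψ)).re) :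
    normSq (tv fun _ : ZMod L => Ω) = 1 ∧
      IsGappedGround (ham (hbox lam) L) (2 - 4 * lam) (tv fun _ : ZMod L => Ω) := by
  have hn : normSq (tv fun _ : ZMod L => Ω) = 1 := normSq_tv fun _ => hΩ
  refine ⟨hn, ?_⟩
  apply gapped_of_form (ham (hbox lam) L) (ham_herm _ (hbox_herm lam)) _ hn
    (Fintype.card (ZMod L) * E) _ (by linarith)
  · rw [ham_eq hL, Matrix.sum_mulVec]
    have : ∀ r : ZMod L, lft r (rowH L lam) *ᵥ (tv fun _ : ZMod L => Ω) = (E : ℂ) • (tv fun _ : ZMod L => Ω) := by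
      intro r
      rw [lft_tv, hE]
      exact tv_update_smul (fun _ : ZMod L => Ω) r (E : ℂ)
    rw [Finset.sum_congr rfl fun r _ => this r, Finset.sum_const, Finset.card_univ, ← Nat.cast_smul_eq_nsmul ℂ,
      smul_smul]
    push_cast
    rfl
  · intro φ
    rw [ham_eq hL]
    exact torus_form (rowH L lam) (rowH_herm lam) Ω hΩ E (2 - 4 * lam) (by linarith) hform φ

end

end Pool.Agent.K6.H5.PL
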