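import Pool.Agent.K6.H5.PL.Cl

/-! Spin chains: monomial matrices and the Jordan–Wigner transformation. -/

set_option autoImplicit false
set_option linter.unusedSectionVars false

open scoped BigOperators Matrix
open Finset Matrix Complex

namespace Pool.Agent.K6.H5.PL

section mon

variable {c : Type*} [Fintype c] [DecidableEq c]

/-- The matrix of `ψ ↦ (σ ↦ f σ * ψ (π σ))`. -/
def Mon (f : c → ℂ) (π : c → c) : Matrix c c ℂ := fun σ τ => if τ = π σ then f σ else 0

lemma Mon_mul (f g : c → ℂ) (π ρ : c → c) :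
    Mon f π * Mon g ρ = Mon (fun σ => f σ * g (π σ)) (fun σ => ρ (π σ)) := by
  ext σ τ
  rw [Matrix.mul_apply, Finset.sum_eq_single (π σ)]
  · unfold Mon
    by_cases h : τ = ρ (π σ) <;> simp [h]
  · intro x _ hx
    unfold Mon
    simp [hx]
  · intro h; exact absurd (Finset.mem_univ _) h

lemma Mon_mulVec (f : c → ℂ) (π : c → c) (ψ : c → ℂ) (σ : c) :
    (Mon f π *ᵥ ψ) σ = f σ * ψ (π σ) := by
  unfold Mon Matrix.mulVec dotProduct
  rw [Finset.sum_eq_single (π σ)]
  · simp
  · intro x _ hx; simp [hx]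
  · intro h; exact absurd (Finset.mem_univ _) h

lemma Mon_add (f g : c → ℂ) (π : c → c) : Mon f π + Mon g π = Mon (fun σ => f σ + g σ) π := by
  ext σ τ
  rw [Matrix.add_apply]
  unfold Mon
  split_ifs <;> simp

lemma Mon_smul (a : ℂ) (f : c → ℂ) (π : c → c) : a • Mon f π = Mon (fun σ => a * f σ) π := by
  ext σ τ
  rw [Matrix.smul_apply]
  unfold Mon
  split_ifs <;> simp

lemma Mon_neg (f : c → ℂ) (π : c → c) : -Mon f π = Mon (fun σ => -f σ) π := by
  ext σ τ
  rw [Matrix.neg_apply]
  unfold Mon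
  split_ifs <;> simp

lemma Mon_one : Mon (fun _ : c => (1 : ℂ)) (fun σ => σ) = 1 := by
  ext σ τ
  unfold Mon
  rw [Matrix.one_apply]
  by_cases h : σ = τ
  · simp [h]
  · simp [h, Ne.symm h]

lemma Mon_zero (π : c → c) : Mon (fun _ : c => (0 : ℂ)) π = 0 := by
  ext σ τ
  unfold Mon
  simp

lemma Mon_congr {f g : c → ℂ} {π ρ : c → c} (h : ∀ σ, f σ = g σ) (h' : ∀ σ, π σ = ρ σ) :
    Mon f π = Mon g ρ := by
  rw [funext h, funext h']

lemma Mon_conj (f : c → ℂ) (π : c → c) (h : ∀ σ, π (π σ) = σ) :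
    (Mon f π)ᴴ = Mon (fun σ => star (f (π σ))) π := by
  ext σ τ
  rw [Matrix.conjTranspose_apply]
  unfold Mon
  by_cases h1 : τ = π σ
  · subst h1
    rw [if_pos (h σ).symm, if_pos rfl]
  · rw [if_neg h1, if_neg, star_zero]
    intro h2
    exact h1 (by rw [h2, h])

end mon

/-- the eigenvalues of the Pauli matrix `Z` -/
def z (a : Fin 2) : ℂ := if a = 0 then 1 else -1

lemma z_sq (a : Fin 2) : z a * z a = 1 := by
  unfold z; split_ifs <;> norm_num

lemma z_flip (a : Fin 2) : z (a + 1) = -z a := by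
  fin_cases a <;> simp [z]

lemma z_star (a : Fin 2) : star (z a) = z a := by
  unfold z; split_ifs <;> simp

lemma z_norm (a : Fin 2) : ‖z a‖ = 1 := by
  unfold z; split_ifs <;> simp

section jw

variable {J : Type*} [Fintype J] [DecidableEq J]

/-- spin flip at `j` -/
def flp (j : J) (σ : J → Fin 2) : J → Fin 2 := Function.update σ j (σ j + 1)

lemma flp_same (j : J) (σ : J → Fin 2) : flp j σ j = σ j + 1 := by
  unfold flp; simp

lemma flp_ne {i j : J} (h : i ≠ j) (σ : J → Fin 2) : flp j σ i = σ i := by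
  unfold flp; simp [h]

lemma flp_flp (j : J) (σ : J → Fin 2) : flp j (flp j σ) = σ := by
  funext i
  by_cases h : i = j
  · subst h
    rw [flp_same, flp_same]
    generalize σ i = a
    fin_cases a <;> rfl
  · rw [flp_ne h, flp_ne h]

lemma flp_comm (i j : J) (σ : J → Fin 2) : flp i (flp j σ) = flp j (flp i σ) := by
  by_cases hij : i = j
  · rw [hij]
  funext k
  by_cases hk : k = i
  · subst hk
    rw [flp_same, flp_ne hij, flp_ne hij, flp_same]
  · by_cases hk' : k = j
    · subst hk'
      rw [flp_ne hk, flp_same, flp_same, flp_ne hk]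
    · rw [flp_ne hk, flp_ne hk', flp_ne hk', flp_ne hk]

/-- the Jordan–Wigner sign -/
noncomputable def sgn (pos : J → ℕ) (j : J) (σ : J → Fin 2) : ℂ :=
  ∏ i : J, if pos i < pos j then z (σ i) else 1

lemma sgn_sq (pos : J → ℕ) (j : J) (σ : J → Fin 2) : sgn pos j σ * sgn pos j σ = 1 := by
  unfold sgn
  rw [← Finset.prod_mul_distrib]
  apply Finset.prod_eq_one
  intro i _
  split_ifs
  · exact z_sq _
  · simp

lemma sgn_star (pos : J → ℕ) (j : J) (σ : J → Fin 2) : star (sgn pos j σ) = sgn pos j σ := by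
  unfold sgn
  rw [star_prod]
  refine Finset.prod_congr rfl fun i _ => ?_
  split_ifs
  · exact z_star _
  · simp

lemma prod_flp (p : J → Prop) [DecidablePred p] (j : J) (σ : J → Fin 2) :
    (∏ i : J, if p i then z (flp j σ i) else 1) =
      (if p j then -1 else 1) * ∏ i : J, if p i then z (σ i) else 1 := by
  rw [← Finset.mul_prod_erase _ _ (Finset.mem_univ j), ← Finset.mul_prod_erase _ (fun i => if p i then z (σ i) else 1) (Finset.mem_univ j)]
  have h : (∏ i ∈ Finset.univ.erase j, if p i then z (flp j σ i) else 1) =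
      ∏ i ∈ Finset.univ.erase j, if p i then z (σ i) else 1 := by
    refine Finset.prod_congr rfl fun i hi => ?_
    rw [flp_ne (Finset.ne_of_mem_erase hi)]
  rw [h, flp_same]
  split_ifs
  · rw [z_flip]; ring
  · ring

lemma sgn_flp (pos : J → ℕ) (j i : J) (σ : J → Fin 2) :
    sgn pos j (flp i σ) = (if pos i < pos j then -1 else 1) * sgn pos j σ := by
  unfold sgn
  exact prod_flp (fun k => pos k < pos j) i σ

/-- generalized Majorana operators -/
noncomputable def G (pos : J → ℕ) (j : J) (y : Fin 2 → ℂ) : Matrix (J → Fin 2) (J → Fin 2) ℂ :=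
  Mon (fun σ => sgn pos j σ * y (σ j)) (flp j)

lemma G_anti {pos : J → ℕ} (hpos : Function.Injective pos) {j l : J} (h : j ≠ l)
    (y y' : Fin 2 → ℂ) : G pos j y * G pos l y' = -(G pos l y' * G pos j y) := by
  unfold G
  rw [Mon_mul, Mon_mul, Mon_neg]
  apply Mon_congr
  · intro σ
    rw [sgn_flp, sgn_flp, flp_ne h, flp_ne (Ne.symm h)]
    have : pos j ≠ pos l := fun hh => h (hpos hh)
    rcases lt_or_gt_of_ne this with h1 | h1
    · rw [if_pos h1, if_neg (by omega)]; ring
    · rw [if_neg (by omega), if_pos h1]; ring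
  · intro σ
    rw [flp_comm]

lemma G_self (pos : J → ℕ) (j : J) (y y' : Fin 2 → ℂ) :
    G pos j y * G pos j y' = Mon (fun σ => y (σ j) * y' (σ j + 1)) (fun σ => σ) := by
  unfold G
  rw [Mon_mul]
  apply Mon_congr
  · intro σ
    rw [sgn_flp, if_neg (lt_irrefl _), flp_same]
    have := sgn_sq pos j σ
    linear_combination (y (σ j) * y' (σ j + 1)) * this
  · intro σ
    rw [flp_flp]

/-- Majorana operators of the first kind -/
noncomputable def ga (pos : J → ℕ) (j : J) : Matrix (J → Fin 2) (J → Fin 2) ℂ :=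
  G pos j (fun _ => 1)

/-- Majorana operators of the second kind -/
noncomputable def gb (pos : J → ℕ) (j : J) : Matrix (J → Fin 2) (J → Fin 2) ℂ :=
  G pos j (fun a => -I * z a)

/-- parity -/
noncomputable def Par (J : Type*) [Fintype J] [DecidableEq J] : Matrix (J → Fin 2) (J → Fin 2) ℂ :=
  Mon (fun σ => ∏ i : J, z (σ i)) (fun σ => σ)

/-- the Pauli matrix `X` at `j` -/
def Xo (j : J) : Matrix (J → Fin 2) (J → Fin 2) ℂ := Mon (fun _ => 1) (flp j)

/-- the Pauli matrix `Z` at `j` -/
def Zo (j : J) : Matrix (J → Fin 2) (J → Fin 2) ℂ := Mon (fun σ => z (σ j)) (fun σ => σ)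

lemma cliff_ga {pos : J → ℕ} (hpos : Function.Injective pos) : Cliff (ga pos) where
  herm j := by
    unfold ga G
    rw [Mon_conj _ _ (flp_flp j)]
    apply Mon_congr
    · intro σ
      rw [mul_one, sgn_star, sgn_flp, if_neg (lt_irrefl _)]
      ring
    · intro σ; rfl
  anti k l := by
    by_cases h : k = l
    · subst h
      rw [if_pos rfl]
      unfold ga
      rw [G_self]
      have : Mon (fun σ : J → Fin 2 => (1 : ℂ) * 1) (fun σ => σ) = 1 := by
        rw [← Mon_one]; apply Mon_congr <;> intro σ <;> simp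
      rw [this]
      norm_num
    · rw [if_neg h]
      unfold ga
      rw [G_anti hpos h]
      simp

lemma cliff_gb {pos : J → ℕ} (hpos : Function.Injective pos) : Cliff (gb pos) where
  herm j := by
    unfold gb G
    rw [Mon_conj _ _ (flp_flp j)]
    apply Mon_congr
    · intro σ
      rw [star_mul', sgn_star, sgn_flp, if_neg (lt_irrefl _), flp_same, star_mul', z_star, z_flip]
      simp
    · intro σ; rfl
  anti k l := by
    by_cases h : k = l
    · subst h
      rw [if_pos rfl]
      unfold gb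
      rw [G_self]
      have : Mon (fun σ : J → Fin 2 => (-I * z (σ k)) * (-I * z (σ k + 1))) (fun σ => σ) = 1 := by
        rw [← Mon_one]
        apply Mon_congr
        · intro σ
          rw [z_flip]
          have h1 := z_sq (σ k)
          have h2 := I_mul_I
          linear_combination (-(I * I)) * h1 - h2
        · intro σ; rfl
      rw [this]
      norm_num
    · rw [if_neg h]
      unfold gb
      rw [G_anti hpos h]
      simp

lemma gagb {pos : J → ℕ} (j : J) : ga pos j * gb pos j = I • Zo j := by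
  unfold ga gb Zo
  rw [G_self, Mon_smul]
  apply Mon_congr
  · intro σ
    rw [z_flip]; ring
  · intro σ; rfl

lemma gbga {pos : J → ℕ} (j : J) : gb pos j * ga pos j = -(I • Zo j) := by
  unfold ga gb Zo
  rw [G_self, Mon_smul, Mon_neg]
  apply Mon_congr
  · intro σ
    ring
  · intro σ; rfl

lemma gb_ga {pos : J → ℕ} (hpos : Function.Injective pos) (j l : J) :
    gb pos j * ga pos l = -(ga pos l * gb pos j) := by
  by_cases h : j = l
  · subst h
    rw [gagb, gbga]
  · unfold gb ga
    rw [G_anti hpos h]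

lemma ga_gb {pos : J → ℕ} (hpos : Function.Injective pos) (j l : J) :
    ga pos j * gb pos l = -(gb pos l * ga pos j) := by
  rw [gb_ga hpos, neg_neg]

lemma Par_G (pos : J → ℕ) (j : J) (y : Fin 2 → ℂ) : Par J * G pos j y = -(G pos j y * Par J) := by
  unfold Par G
  rw [Mon_mul, Mon_mul, Mon_neg]
  apply Mon_congr
  · intro σ
    have h := prod_flp (fun _ : J => True) j σ
    simp only [if_true] at h
    rw [h]
    ring
  · intro σ; rfl

lemma Par_sq : Par J * Par J = 1 := by
  unfold Par
  rw [Mon_mul, ← Mon_one]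
  apply Mon_congr
  · intro σ
    rw [← Finset.prod_mul_distrib]
    exact Finset.prod_eq_one fun i _ => z_sq _
  · intro σ; rfl

lemma Par_herm : (Par J)ᴴ = Par J := by
  unfold Par
  rw [Mon_conj _ _ (fun _ => rfl)]
  apply Mon_congr
  · intro σ
    rw [star_prod]
    exact Finset.prod_congr rfl fun i _ => z_star _
  · intro σ; rfl

lemma Zo_eq {pos : J → ℕ} (j : J) : Zo j = (-I) • (ga pos j * gb pos j) := by
  rw [gagb, smul_smul]
  simp

lemma XX_next {pos : J → ℕ} {j k : J} (hjk : j ≠ k)
    (h : ∀ i, pos i < pos k ↔ (pos i < pos j ∨ i = j)) :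
    Xo j * Xo k = I • (ga pos k * gb pos j) := by
  have hs : ∀ σ : J → Fin 2, sgn pos k σ = sgn pos j σ * z (σ j) := by
    intro σ
    unfold sgn
    rw [← Finset.mul_prod_erase _ _ (Finset.mem_univ j), ← Finset.mul_prod_erase _ (fun i => if pos i < pos j then z (σ i) else 1) (Finset.mem_univ j)]
    rw [if_pos ((h j).2 (Or.inr rfl)), if_neg (lt_irrefl _)]
    rw [one_mul, mul_comm]
    congr 1
    refine Finset.prod_congr rfl fun i hi => ?_
    have hne := Finset.ne_of_mem_erase hi
    by_cases h1 : pos i < pos j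
    · rw [if_pos h1, if_pos ((h i).2 (Or.inl h1))]
    · rw [if_neg h1, if_neg]
      intro h2
      rcases (h i).1 h2 with h3 | h3
      · exact h1 h3
      · exact hne h3
  have hkj : ¬ pos k < pos j := by
    have := (h j).2 (Or.inr rfl)
    omega
  unfold Xo ga gb G
  rw [Mon_mul, Mon_mul, Mon_smul]
  apply Mon_congr
  · intro σ
    rw [hs, sgn_flp, if_neg hkj, flp_ne hjk]
    have h1 := z_sq (σ j)
    have h2 := sgn_sq pos j σ
    have h3 := I_mul_I
    linear_combination (-(1 : ℂ)) * h1 + (-(z (σ j) * z (σ j))) * h2 + (sgn pos j σ * sgn pos j σ * z (σ j) * z (σ j)) * h3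
  · intro σ
    rw [flp_comm]

lemma XX_wrap {pos : J → ℕ} {j k : J} (hjk : j ≠ k) (h0 : ∀ i, ¬ pos i < pos k)
    (h1 : ∀ i, i ≠ j → pos i < pos j) :
    Xo j * Xo k = (-I) • (Par J * (ga pos k * gb pos j)) := by
  have hk : ∀ σ : J → Fin 2, sgn pos k σ = 1 := by
    intro σ
    unfold sgn
    apply Finset.prod_eq_one
    intro i _
    rw [if_neg (h0 i)]
  have hp : ∀ σ : J → Fin 2, ∏ i : J, z (σ i) = sgn pos j σ * z (σ j) := by
    intro σ
    unfold sgn
    rw [← Finset.mul_prod_erase _ _ (Finset.mem_univ j), ← Finset.mul_prod_erase _ (fun i => if pos i < pos j then z (σ i) else 1) (Finset.mem_univ j)]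
    rw [if_neg (lt_irrefl _), one_mul, mul_comm]
    congr 1
    refine Finset.prod_congr rfl fun i hi => ?_
    rw [if_pos (h1 i (Finset.ne_of_mem_erase hi))]
  unfold Xo ga gb G Par
  rw [Mon_mul, Mon_mul, Mon_mul, Mon_smul]
  apply Mon_congr
  · intro σ
    rw [hk, hp, sgn_flp, if_pos (h1 k (Ne.symm hjk)), flp_ne hjk]
    have e1 := z_sq (σ j)
    have e2 := sgn_sq pos j σ
    have e3 := I_mul_I
    linear_combination (-(1 : ℂ)) * e1 + (-(z (σ j) * z (σ j))) * e2 + (sgn pos j σ * sgn pos j σ * z (σ j) * z (σ j)) * e3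
  · intro σ
    rw [flp_comm]

end jw

end Pool.Agent.K6.H5.PL
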