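import Pool.Agent.K6.H5.PL.Wick

/-! Operators acting on a set of sites only. -/

set_option autoImplicit false
set_option linter.unusedSectionVars false

open scoped BigOperators Matrix InnerProductSpace
open Finset Matrix Complex Pool.Agent.TH235.PP

namespace Pool.Agent.K6.H5.PL

section loc

variable {J : Type*} [Fintype J] [DecidableEq J]

lemma mv {n : Type*} [Fintype n] (A : Matrix n n ℂ) (x : n → ℂ) (s : n) :
    (A *ᵥ x) s = ∑ t, A s t * x t := rfl

lemma Mon_ap {c : Type*} [DecidableEq c] (f : c → ℂ) (π : c → c) (s t : c) :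
    Mon f π s t = if t = π s then f s else 0 := rfl

/-- the operator `A` acts on the sites satisfying `q` -/
structure Loc (q : J → Prop) (A : Matrix (J → Fin 2) (J → Fin 2) ℂ) : Prop where
  inv : ∀ j, ¬ q j → ∀ s t, A (flp j s) (flp j t) = A s t
  van : ∀ j, ¬ q j → ∀ s t, s j ≠ t j → A s t = 0

/-- the function `f` depends on the spins at the sites satisfying `q` only -/
def Dep {C : Type*} (q : J → Prop) (f : (J → Fin 2) → C) : Prop := ∀ j, ¬ q j → ∀ s, f (flp j s) = f s

lemma fin2_ne {a b : Fin 2} (h : a ≠ b) : a + 1 = b := by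
  fin_cases a <;> fin_cases b <;> simp_all

lemma Dep.eq {C : Type*} {q : J → Prop} {f : (J → Fin 2) → C} (hf : Dep q f) {s t : J → Fin 2}
    (h : ∀ j, q j → s j = t j) : f s = f t := by
  classical
  obtain ⟨n, hn⟩ : ∃ n, (Finset.univ.filter fun j => s j ≠ t j).card = n := ⟨_, rfl⟩
  induction n generalizing s with
  | zero =>
    rw [Finset.card_eq_zero, Finset.filter_eq_empty_iff] at hn
    have : s = t := funext fun j => by
      have := hn (Finset.mem_univ j)
      push Not at this
      exact this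
    rw [this]
  | succ n ih =>
    obtain ⟨j, hj⟩ : (Finset.univ.filter fun j => s j ≠ t j).Nonempty := by
      rw [← Finset.card_pos]; omega
    rw [Finset.mem_filter] at hj
    have hq : ¬ q j := fun hh => hj.2 (h j hh)
    rw [← hf j hq s]
    apply ih
    · intro i hi
      have : i ≠ j := fun hh => hq (hh ▸ hi)
      rw [flp_ne this, h i hi]
    · have : (Finset.univ.filter fun i => flp j s i ≠ t i) = (Finset.univ.filter fun i => s i ≠ t i).erase j := by
        ext i
        rw [Finset.mem_filter, Finset.mem_erase, Finset.mem_filter]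
        by_cases hij : i = j
        · subst hij
          rw [flp_same, fin2_ne hj.2]
          simp
        · rw [flp_ne hij]
          simp [hij]
      rw [this, Finset.card_erase_of_mem (by rw [Finset.mem_filter]; exact hj), hn]
      rfl

/-- the flip as an equivalence -/
def flpE (j : J) : (J → Fin 2) ≃ (J → Fin 2) where
  toFun := flp j
  invFun := flp j
  left_inv := flp_flp j
  right_inv := flp_flp j

lemma Loc.dep {q : J → Prop} {A : Matrix (J → Fin 2) (J → Fin 2) ℂ} (hA : Loc q A)
    {F : (J → Fin 2) → ℂ} (hF : Dep q F) : Dep q (A *ᵥ F) := by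
  intro j hj s
  rw [mv, mv, ← (flpE j).sum_comp]
  refine Finset.sum_congr rfl fun t _ => ?_
  show A (flp j s) (flp j t) * F (flp j t) = _
  rw [hA.inv j hj, hF j hj]

lemma Loc.mul {q : J → Prop} {A : Matrix (J → Fin 2) (J → Fin 2) ℂ} (hA : Loc q A)
    {F H : (J → Fin 2) → ℂ} (hH : Dep (fun j => ¬ q j) H) : A *ᵥ (F * H) = (A *ᵥ F) * H := by
  funext s
  rw [Pi.mul_apply, mv, mv, Finset.sum_mul]
  refine Finset.sum_congr rfl fun t _ => ?_
  rw [Pi.mul_apply]
  by_cases h : ∃ j, ¬ q j ∧ s j ≠ t j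
  · obtain ⟨j, hj, hst⟩ := h
    rw [hA.van j hj s t hst]
    simp
  · push Not at h
    rw [hH.eq h]
    ring

lemma Dep.mul {q : J → Prop} {F H : (J → Fin 2) → ℂ} (hF : Dep q F) (hH : Dep q H) :
    Dep q (F * H) := fun j hj s => by rw [Pi.mul_apply, Pi.mul_apply, hF j hj, hH j hj]

lemma Dep.conj {q : J → Prop} {F : (J → Fin 2) → ℂ} (hF : Dep q F) :
    Dep q (fun s => (starRingEnd ℂ) (F s)) := fun j hj s => by
  show (starRingEnd ℂ) (F (flp j s)) = (starRingEnd ℂ) (F s)
  rw [hF j hj]

open Classical in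
/-- exchange of the spins at the sites not satisfying `q` -/
noncomputable def swp (q : J → Prop) : ((J → Fin 2) × (J → Fin 2)) ≃ ((J → Fin 2) × (J → Fin 2)) where
  toFun p := (fun j => if q j then p.1 j else p.2 j, fun j => if q j then p.2 j else p.1 j)
  invFun p := (fun j => if q j then p.1 j else p.2 j, fun j => if q j then p.2 j else p.1 j)
  left_inv p := by
    ext j <;> simp only [] <;> split_ifs <;> rfl
  right_inv p := by
    ext j <;> simp only [] <;> split_ifs <;> rfl

lemma indep {q : J → Prop} {f g : (J → Fin 2) → ℂ} (hf : Dep q f) (hg : Dep (fun j => ¬ q j) g) :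
    (Fintype.card (J → Fin 2) : ℂ) * ∑ s, f s * g s = (∑ s, f s) * ∑ s, g s := by
  have h1 : (∑ s, f s) * ∑ s, g s = ∑ p : (J → Fin 2) × (J → Fin 2), f p.1 * g p.2 := by
    rw [Finset.sum_mul_sum, Fintype.sum_prod_type]
  have h2 : (Fintype.card (J → Fin 2) : ℂ) * ∑ s, f s * g s =
      ∑ p : (J → Fin 2) × (J → Fin 2), f p.1 * g p.1 := by
    rw [Fintype.sum_prod_type, Finset.mul_sum]
    refine Finset.sum_congr rfl fun s _ => ?_
    simp only []
    rw [Finset.sum_const, Finset.card_univ, nsmul_eq_mul]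
  rw [h1, h2, ← (swp q).sum_comp]
  refine Finset.sum_congr rfl fun p _ => ?_
  congr 1
  · apply hf.eq
    intro j hj
    simp [swp, hj]
  · apply hg.eq
    intro j hj
    simp [swp, hj]

lemma mul_Xo (A : Matrix (J → Fin 2) (J → Fin 2) ℂ) (j : J) (s t : J → Fin 2) :
    (A * Xo j) s t = A s (flp j t) := by
  unfold Xo
  rw [Matrix.mul_apply, Finset.sum_eq_single (flp j t)]
  · rw [Mon_ap, flp_flp]; simp
  · intro u _ hu
    rw [Mon_ap, if_neg, mul_zero]
    intro hh
    apply hu
    rw [hh, flp_flp]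
  · intro h; exact absurd (Finset.mem_univ _) h

lemma Xo_mul (A : Matrix (J → Fin 2) (J → Fin 2) ℂ) (j : J) (s t : J → Fin 2) :
    (Xo j * A) s t = A (flp j s) t := by
  unfold Xo
  rw [Matrix.mul_apply, Finset.sum_eq_single (flp j s)]
  · rw [Mon_ap]; simp
  · intro u _ hu
    rw [Mon_ap, if_neg hu, zero_mul]
  · intro h; exact absurd (Finset.mem_univ _) h

lemma mul_Zo (A : Matrix (J → Fin 2) (J → Fin 2) ℂ) (j : J) (s t : J → Fin 2) :
    (A * Zo j) s t = A s t * z (t j) := by
  unfold Zo
  rw [Matrix.mul_apply, Finset.sum_eq_single t]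
  · rw [Mon_ap]; simp
  · intro u _ hu
    rw [Mon_ap, if_neg (fun hh => hu hh.symm), mul_zero]
  · intro h; exact absurd (Finset.mem_univ _) h

lemma Zo_mul (A : Matrix (J → Fin 2) (J → Fin 2) ℂ) (j : J) (s t : J → Fin 2) :
    (Zo j * A) s t = z (s j) * A s t := by
  unfold Zo
  rw [Matrix.mul_apply, Finset.sum_eq_single s]
  · rw [Mon_ap]; simp
  · intro u _ hu
    rw [Mon_ap, if_neg hu, zero_mul]
  · intro h; exact absurd (Finset.mem_univ _) h

lemma z_ne {a b : Fin 2} (h : a ≠ b) : z a ≠ z b := by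
  fin_cases a <;> fin_cases b <;> simp_all [z]
  · norm_num
  · norm_num

lemma loc_of_comm {q : J → Prop} {A : Matrix (J → Fin 2) (J → Fin 2) ℂ}
    (h : ∀ j, ¬ q j → Xo j * A = A * Xo j ∧ Zo j * A = A * Zo j) : Loc q A where
  inv j hj s t := by
    have h1 := congrFun (congrFun (h j hj).1 s) (flp j t)
    rw [Xo_mul, mul_Xo, flp_flp] at h1
    exact h1
  van j hj s t hst := by
    have h1 := congrFun (congrFun (h j hj).2 s) t
    rw [Zo_mul, mul_Zo] at h1
    have h2 : (z (s j) - z (t j)) * A s t = 0 := by linear_combination h1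
    rcases mul_eq_zero.1 h2 with h3 | h3
    · exact absurd (sub_eq_zero.1 h3) (z_ne hst)
    · exact h3

lemma Xo_G (pos : J → ℕ) {i j : J} (h : j ≠ i) (y : Fin 2 → ℂ) :
    Xo j * G pos i y = (if pos j < pos i then (-1 : ℂ) else 1) • (G pos i y * Xo j) := by
  unfold Xo G
  rw [Mon_mul, Mon_mul, Mon_smul]
  apply Mon_congr
  · intro σ
    rw [sgn_flp, flp_ne (Ne.symm h)]
    ring
  · intro σ
    rw [flp_comm]

lemma Zo_G (pos : J → ℕ) {i j : J} (h : j ≠ i) (y : Fin 2 → ℂ) :
    Zo j * G pos i y = G pos i y * Zo j := by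
  unfold Zo G
  rw [Mon_mul, Mon_mul]
  apply Mon_congr
  · intro σ
    rw [flp_ne h]
    ring
  · intro σ
    rfl

end loc

section words
variable {n K : Type*} [Fintype n] [DecidableEq n] [Fintype K] [DecidableEq K]

lemma cl_scal {e : K → Matrix n n ℂ} {N : Matrix n n ℂ} {c : ℂ} {p : K → Prop}
    (hN : ∀ k, p k → N * e k = c • (e k * N)) {v : EuclideanSpace ℝ K} (hv : ∀ k, ¬ p k → v k = 0) :
    N * cl e v = c • (cl e v * N) := by
  unfold cl
  rw [Finset.mul_sum, Finset.sum_mul, Finset.smul_sum]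
  refine Finset.sum_congr rfl fun k _ => ?_
  by_cases hk : p k
  · rw [mul_smul_comm, hN k hk, smul_mul_assoc, smul_comm]
  · rw [hv k hk]; simp

lemma wd_scal {e : K → Matrix n n ℂ} {N : Matrix n n ℂ} {c : ℂ} (l : List (EuclideanSpace ℝ K))
    (hN : ∀ x ∈ l, N * cl e x = c • (cl e x * N)) :
    N * wd e l = c ^ l.length • (wd e l * N) := by
  induction l with
  | nil => rw [wd_nil]; simp
  | cons x l ih =>
    rw [wd_cons, ← Matrix.mul_assoc, hN x (by simp), smul_mul_assoc, Matrix.mul_assoc,
      ih (fun y hy => hN y (by simp [hy])), List.length_cons, mul_smul_comm, ← Matrix.mul_assoc,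
      smul_smul]
    congr 1
    ring

/-- unit vectors give unitary words -/
lemma wd_unit {e : K → Matrix n n ℂ} (he : Cliff e) (l : List (EuclideanSpace ℝ K))
    (hl : ∀ x ∈ l, ⟪x, x⟫_ℝ = 1) : (wd e l)ᴴ * wd e l = 1 := by
  induction l with
  | nil => rw [wd_nil]; simp
  | cons x l ih =>
    rw [wd_cons, conjTranspose_mul, cl_herm he, Matrix.mul_assoc, ← Matrix.mul_assoc (cl e x),
      cl_sq he, hl x (by simp)]
    simp only [Complex.ofReal_one, one_smul, Matrix.one_mul]
    exact ih (fun y hy => hl y (by simp [hy]))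

end words

/-- words with an even number of vectors supported in an interval act on the interval, or on the
complement of an interval to the left -/
lemma word_loc {J : Type*} [Fintype J] [DecidableEq J] {pos : J → ℕ} (y : Fin 2 → ℂ)
    {p q : J → Prop} (hpq : ∀ j, ¬ q j → ¬ p j)
    (hleft : ∀ j, ¬ q j → (∀ i, p i → pos j < pos i) ∨ (∀ i, p i → ¬ pos j < pos i))
    (l : List (EuclideanSpace ℝ J)) (hl : ∀ x ∈ l, ∀ j, ¬ p j → x j = 0) (heven : Even l.length) :
    Loc q (wd (fun j => G pos j y) l) := by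
  apply loc_of_comm
  intro j hj
  have hne : ∀ i, p i → j ≠ i := fun i hi hh => hpq j hj (hh ▸ hi)
  constructor
  · rcases hleft j hj with h | h
    · have h1 := wd_scal (e := fun j => G pos j y) (N := Xo j) (c := -1) l (fun x hx => by
        apply cl_scal (p := p) _ (hl x hx)
        intro k hk
        rw [Xo_G pos (hne k hk), if_pos (h k hk)])
      rw [heven.neg_one_pow, one_smul] at h1
      exact h1
    · have h1 := wd_scal (e := fun j => G pos j y) (N := Xo j) (c := 1) l (fun x hx => by
        apply cl_scal (p := p) _ (hl x hx)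
        intro k hk
        rw [Xo_G pos (hne k hk), if_neg (h k hk)])
      rw [one_pow, one_smul] at h1
      exact h1
  · have h1 := wd_scal (e := fun j => G pos j y) (N := Zo j) (c := 1) l (fun x hx => by
      apply cl_scal (p := p) _ (hl x hx)
      intro k hk
      rw [Zo_G pos (hne k hk), one_smul])
    rw [one_pow, one_smul] at h1
    exact h1

end Pool.Agent.K6.H5.PL
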