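import Pool.Agent.K6.H5.PL.RowD

/-! The main inequality: overlap of the ground state with a PEPS. -/

set_option autoImplicit false
set_option linter.unusedSectionVars false

open scoped BigOperators Matrix InnerProductSpace
open Finset Matrix Pool.Agent.TH235.PP

namespace Pool.Agent.K6.H5.PL

lemma choose_K {lam : ℝ} (h0 : 0 < lam) (h1 : lam < 1) :
    ∃ K₀ : ℕ, 1 ≤ K₀ ∧ ∀ w : ℕ, 1 ≤ w →
      (w.factorial : ℝ) * (w * 2 ^ w * (4 * lam ^ (K₀ * w ^ 2) * ((1 - lam)⁻¹) ^ 2)) ≤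
      (lam * (1 - lam ^ 2) / 4) ^ (w ^ 2) / 2 := by
  set θ := lam * (1 - lam ^ 2) / 4 with hθ
  have hl2 : lam ^ 2 < 1 := by nlinarith
  have hθ0 : 0 < θ := by
    have : 0 < lam * (1 - lam ^ 2) := mul_pos h0 (by linarith)
    rw [hθ]; linarith
  set c₁ := 4 * ((1 - lam)⁻¹) ^ 2 with hc₁
  have hinv : 1 ≤ (1 - lam)⁻¹ := by
    rw [one_le_inv₀ (by linarith)]; linarith
  have hc1 : 1 ≤ c₁ := by
    rw [hc₁]
    nlinarith
  obtain ⟨K, hK⟩ := exists_pow_lt_of_lt_one (show 0 < θ / (16 * c₁) by positivity) h1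
  refine ⟨K + 1, by omega, fun w hw => ?_⟩
  have hK' : lam ^ (K + 1) ≤ θ / (16 * c₁) := by
    rw [pow_succ]
    have : 0 < lam ^ K := pow_pos h0 K
    nlinarith
  have hw2 : w ≤ w ^ 2 := by nlinarith
  have hw1 : 1 ≤ w ^ 2 := by nlinarith
  have hwle : (w : ℝ) ≤ 2 ^ w := by exact_mod_cast (Nat.lt_two_pow_self (n := w)).le
  have f1 : (w.factorial : ℝ) ≤ 2 ^ (w ^ 2) := by
    have : (w.factorial : ℝ) ≤ (w : ℝ) ^ w := by exact_mod_cast Nat.factorial_le_pow w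
    refine this.trans ?_
    rw [pow_two w, pow_mul]
    exact pow_le_pow_left₀ (by positivity) hwle w
  have f2 : (w : ℝ) ≤ 2 ^ (w ^ 2) := hwle.trans (pow_le_pow_right₀ (by norm_num) hw2)
  have f3 : (2 : ℝ) ^ w ≤ 2 ^ (w ^ 2) := pow_le_pow_right₀ (by norm_num) hw2
  have hlamp : lam ^ ((K + 1) * w ^ 2) ≤ (θ / (16 * c₁)) ^ (w ^ 2) := by
    rw [pow_mul]
    exact pow_le_pow_left₀ (pow_pos h0 _).le hK' _
  calc (w.factorial : ℝ) * (w * 2 ^ w * (4 * lam ^ ((K + 1) * w ^ 2) * ((1 - lam)⁻¹) ^ 2))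
      = (w.factorial : ℝ) * (w * 2 ^ w * (c₁ * lam ^ ((K + 1) * w ^ 2))) := by rw [hc₁]; ring
    _ ≤ 2 ^ (w ^ 2) * (2 ^ (w ^ 2) * 2 ^ (w ^ 2) * (c₁ * (θ / (16 * c₁)) ^ (w ^ 2))) := by
        apply mul_le_mul f1 _ (by positivity) (by positivity)
        apply mul_le_mul (mul_le_mul f2 f3 (by positivity) (by positivity)) _ (by positivity) (by positivity)
        exact mul_le_mul_of_nonneg_left hlamp (by positivity)
    _ = c₁ * (θ / (2 * c₁)) ^ (w ^ 2) := by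
        have : (θ / (16 * c₁)) ^ (w ^ 2) * (8 : ℝ) ^ (w ^ 2) = (θ / (2 * c₁)) ^ (w ^ 2) := by
          rw [← mul_pow]
          congr 1
          field_simp
          norm_num
        rw [← this]
        have h8 : (8 : ℝ) ^ (w ^ 2) = 2 ^ (w ^ 2) * (2 ^ (w ^ 2) * 2 ^ (w ^ 2)) := by
          rw [← mul_pow, ← mul_pow]; norm_num
        rw [h8]
        ring
    _ = c₁ / (2 * c₁) ^ (w ^ 2) * θ ^ (w ^ 2) := by rw [div_pow]; ring
    _ ≤ 1 / 2 * θ ^ (w ^ 2) := by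
        apply mul_le_mul_of_nonneg_right _ (by positivity)
        rw [div_le_div_iff₀ (by positivity) (by norm_num), one_mul, mul_comm]
        exact le_self_pow₀ (by linarith) (by omega)
    _ = θ ^ (w ^ 2) / 2 := by ring

lemma four_pow_le (m : ℕ) : 4 ^ m ≤ (4 * m).choose (2 * m) := by
  have key : ∀ n : ℕ, 2 ^ n ≤ (2 * n).choose n := by
    intro n
    induction n with
    | zero => simp
    | succ n ih =>
      have h1 := Nat.succ_mul_centralBinom_succ n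
      unfold Nat.centralBinom at h1
      have h2 : (n + 1) * (2 * 2 ^ n) ≤ (n + 1) * ((2 * (n + 1)).choose (n + 1)) := by
        calc (n + 1) * (2 * 2 ^ n) ≤ (n + 1) * (2 * (2 * n).choose n) :=
              Nat.mul_le_mul_left _ (Nat.mul_le_mul_left _ ih)
          _ ≤ 2 * (2 * n + 1) * (2 * n).choose n := by nlinarith [Nat.zero_le ((2 * n).choose n), Nat.zero_le (n * (2 * n).choose n)]
          _ = _ := h1.symm
      rw [pow_succ, mul_comm]
      exact Nat.le_of_mul_le_mul_left h2 (by omega)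
  have := key (2 * m)
  rw [pow_mul] at this
  have h4 : 2 * (2 * m) = 4 * m := by ring
  rw [h4] at this
  exact this

theorem master {lam : ℝ} (h0 : 0 < lam) (h1 : lam < 1) :
    ∃ (K : ℕ) (ϑ : ℝ), 1 ≤ K ∧ 0 < ϑ ∧ ϑ < 1 ∧ ∀ (L : ℕ) [NeZero L] (m : ℕ), 1 ≤ m →
      K * (4 * m) ^ 2 ≤ L → ∀ Ω : (ZMod L → Fin 2) → ℂ,
      Exch (ga (ZMod.val : ZMod L → ℕ)) (gb (ZMod.val : ZMod L → ℕ)) Ω
        (fun v => WithLp.toLp 2 (Mm (Sh L 1) lam *ᵥ v.ofLp)) →
      ∀ (D : ℕ) (φ : (Site L → Fin 2) → ℂ), IsPEPS D φ → D ^ 8 < 4 ^ m →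
        ‖ip (tv fun _ : ZMod L => Ω) φ‖ ^ 2 ≤
          (1 - ϑ ^ (2 * (4 * m) ^ 3)) ^ (L / (4 * m)) * normSq φ := by
  classical
  obtain ⟨K₀, hK0, hK⟩ := choose_K h0 h1
  set θ := lam * (1 - lam ^ 2) / 4 with hθ
  have hl2 : lam ^ 2 < 1 := by nlinarith
  have hθ0 : 0 < θ := by
    have : 0 < lam * (1 - lam ^ 2) := mul_pos h0 (by linarith)
    rw [hθ]; linarith
  have hθ1 : θ ≤ 1 := by
    rw [hθ]; nlinarith [sq_nonneg lam, mul_pos h0 (sub_pos.2 hl2)]
  refine ⟨K₀ + 2, θ / 8, by omega, by positivity, by linarith, ?_⟩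
  intro L _ m hm hKL Ω hex D φ hφ hD
  set w := 4 * m with hw
  have hw1 : 1 ≤ w := by omega
  have hww : 2 * w ≤ 2 * w ^ 2 := by nlinarith
  obtain ⟨A, B, hRD⟩ := row_data h0 h1 (w := w) (k := 2 * m) (N := K₀ * w ^ 2) (P := K₀ * w ^ 2)
    ⟨m, by ring⟩ (Nat.one_le_iff_ne_zero.2 (by positivity)) le_rfl (by nlinarith) hw1 (hK w hw1) Ω hex
  rw [← hθ] at hRD
  set P := K₀ * w ^ 2 with hP
  have hcardS : Fintype.card {T : Finset (Fin w) // T.card = 2 * m} = w.choose (2 * m) := by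
    rw [Fintype.card_finset_len, Fintype.card_fin]
  set S := {T : Finset (Fin w) // T.card = 2 * m} with hS
  have hcS1 : 4 ^ m ≤ Fintype.card S := by rw [hcardS, hw]; exact four_pow_le m
  have hcS2 : Fintype.card S ≤ 2 ^ w := by rw [hcardS]; exact Nat.choose_le_two_pow _ _
  have hcS0 : 0 < Fintype.card S := lt_of_lt_of_le (by positivity) hcS1
  set n := L / w with hn
  set l := L % w with hl
  have hnl : n * w + l = L := by rw [hn, hl]; exact Nat.div_add_mod' L w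
  have hwL : P + 2 * w ≤ L := by nlinarith
  have hκ0 : 0 ≤ θ ^ (w ^ 2) / 2 := by positivity
  set e := rowE n w l hnl with he
  set ι : Fin n → Type := fun g => ({e' : Site L ⊕ Site L // bd (bx e (intv P w) g) e'} → Fin D) with hι
  have hrect : ∀ g : Fin n, bx e (intv P w) g = rect (w * g) P w := by
    intro g
    funext v
    exact propext (bx_rowE n w l hnl P g v)
  have hcard : ∀ g, Fintype.card (ι g) ^ 2 < Fintype.card S ^ w := by
    intro g
    have hb : Fintype.card {e' : Site L ⊕ Site L // bd (bx e (intv P w) g) e'} ≤ 4 * w := by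
      have h2 : w * (g : ℕ) + w ≤ L := by
        have h3 : (g : ℕ) + 1 ≤ n := g.2
        have h4 : w * ((g : ℕ) + 1) ≤ w * n := Nat.mul_le_mul_left _ h3
        have h5 : w * n ≤ L := by rw [mul_comm]; omega
        linarith [h4, h5, mul_add w (g : ℕ) 1]
      have h3 := card_bd (L := L) (a := w * g) (b := P) (w := w) h2 (by omega)
      rw [Fintype.card_subtype] at h3 ⊢
      convert h3 using 4
      rw [hrect]
    have hc1 : Fintype.card (ι g) ≤ (max 1 D) ^ (4 * w) := by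
      show Fintype.card ({e' : Site L ⊕ Site L // bd (bx e (intv P w) g) e'} → Fin D) ≤ _
      rw [Fintype.card_fun, Fintype.card_fin]
      calc D ^ Fintype.card {e' : Site L ⊕ Site L // bd (bx e (intv P w) g) e'}
          ≤ (max 1 D) ^ Fintype.card {e' : Site L ⊕ Site L // bd (bx e (intv P w) g) e'} :=
            Nat.pow_le_pow_left (le_max_right _ _) _
        _ ≤ (max 1 D) ^ (4 * w) := Nat.pow_le_pow_right (by simp) hb
    have hD' : (max 1 D) ^ 8 < 4 ^ m := by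
      rcases le_total 1 D with h | h
      · rw [max_eq_right h]; exact hD
      · rw [max_eq_left h, one_pow]
        exact Nat.one_lt_pow (by omega) (by norm_num)
    calc Fintype.card (ι g) ^ 2 ≤ ((max 1 D) ^ (4 * w)) ^ 2 := Nat.pow_le_pow_left hc1 2
      _ = ((max 1 D) ^ 8) ^ w := by rw [← pow_mul, ← pow_mul]; congr 1; ring
      _ < (4 ^ m) ^ w := Nat.pow_lt_pow_left hD' (by omega)
      _ ≤ _ := Nat.pow_le_pow_left hcS1 w
  have hκ1 : θ ^ (w ^ 2) / 2 ≤ 1 := by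
    have := pow_le_one₀ hθ0.le hθ1 (n := w ^ 2)
    linarith
  have hSr : (1 : ℝ) ≤ ((Fintype.card S ^ w : ℕ) : ℝ) := by
    exact_mod_cast Nat.one_le_iff_ne_zero.2 (pow_ne_zero _ hcS0.ne')
  have hδ : (θ ^ (w ^ 2) / 2) ^ w ≤ (Fintype.card S ^ w : ℕ) * 2 := by
    have := pow_le_one₀ hκ0 hκ1 (n := w)
    linarith
  have hmain := overlap_bound e hκ0 hRD hcS0 ι hcard φ (fun g => peps_split φ hφ _) hδ
  refine hmain.trans ?_
  apply mul_le_mul_of_nonneg_right _ (nSq_nonneg φ)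
  set δ := (θ ^ (w ^ 2) / 2) ^ w / ((Fintype.card S ^ w : ℕ) * 2) with hδd
  have hδ1 : δ ≤ 1 := by
    rw [hδd, div_le_one (by linarith)]; exact hδ
  have hδ0 : 0 ≤ δ := div_nonneg (pow_nonneg hκ0 _) (by linarith)
  have hδl : (θ / 8) ^ (w ^ 3) ≤ δ := by
    rw [hδd, le_div_iff₀ (by linarith)]
    have g1 : ((Fintype.card S ^ w : ℕ) : ℝ) ≤ 2 ^ (w ^ 2) := by
      have : Fintype.card S ^ w ≤ 2 ^ (w ^ 2) := by
        calc Fintype.card S ^ w ≤ (2 ^ w) ^ w := Nat.pow_le_pow_left hcS2 w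
          _ = 2 ^ (w ^ 2) := by rw [← pow_mul, pow_two w]
      exact_mod_cast this
    have g2 : (θ ^ (w ^ 2) / 2) ^ w = θ ^ (w ^ 3) / 2 ^ w := by
      rw [div_pow, ← pow_mul, ← pow_succ]
    rw [g2, div_pow, div_mul_eq_mul_div, div_le_div_iff₀ (by positivity) (by positivity)]
    have g3 : w ^ 2 + 1 + w ≤ 3 * w ^ 3 := by nlinarith [Nat.mul_le_mul hw1 hw1, pow_pos (show 0 < w by omega) 2, pow_pos (show 0 < w by omega) 3, Nat.mul_le_mul_left (w ^ 2) hw1]
    calc θ ^ w ^ 3 * (((Fintype.card S ^ w : ℕ) : ℝ) * 2) * 2 ^ w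
        ≤ θ ^ w ^ 3 * (2 ^ (w ^ 2) * 2) * 2 ^ w := by
          apply mul_le_mul_of_nonneg_right _ (by positivity)
          apply mul_le_mul_of_nonneg_left _ (by positivity)
          exact mul_le_mul_of_nonneg_right g1 (by norm_num)
      _ = θ ^ w ^ 3 * 2 ^ (w ^ 2 + 1 + w) := by rw [pow_add, pow_add, pow_one]; ring
      _ ≤ θ ^ w ^ 3 * 2 ^ (3 * w ^ 3) := by
          apply mul_le_mul_of_nonneg_left _ (by positivity)
          exact pow_le_pow_right₀ (by norm_num) g3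
      _ = θ ^ w ^ 3 * 8 ^ w ^ 3 := by rw [pow_mul]; norm_num
  apply pow_le_pow_left₀
  · nlinarith
  · have g4 : (θ / 8) ^ (2 * w ^ 3) ≤ δ ^ 2 := by
      rw [mul_comm, pow_mul]
      exact pow_le_pow_left₀ (by positivity) hδl 2
    linarith

end Pool.Agent.K6.H5.PL
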