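import Pool.Agent.K6.H5.PL.Form

/-! The transverse-field Ising ring: sectors, uniqueness of the ground state and gap, given the
singular value decompositions of the two one-particle matrices. -/

set_option autoImplicit false
set_option linter.unusedSectionVars false

open scoped BigOperators Matrix InnerProductSpace
open Finset Matrix Complex Pool.Agent.TH235.PP

namespace Pool.Agent.K6.H5.PL

variable {L : ℕ} [NeZero L]

/-- Hamiltonian of the ring -/
noncomputable def rowH (L : ℕ) [NeZero L] (lam : ℝ) : Matrix (ZMod L → Fin 2) (ZMod L → Fin 2) ℂ :=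
  -(∑ j : ZMod L, Zo j) - ((lam : ℝ) : ℂ) • ∑ j : ZMod L, Xo j * Xo (j + 1)

/-- the shift, with the sign `-s` at the end of the ring -/
def Sh (L : ℕ) [NeZero L] (s : ℝ) : Matrix (ZMod L) (ZMod L) ℝ := fun j k =>
  if j = k + 1 then (if k.val + 1 = L then -s else 1) else 0

/-- one-particle matrix -/
def Am (L : ℕ) [NeZero L] (lam s : ℝ) : Matrix (ZMod L) (ZMod L) ℝ := 1 - lam • Sh L s

lemma val_inj : Function.Injective (ZMod.val : ZMod L → ℕ) := ZMod.val_injective L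

lemma val_succ {k : ZMod L} (h : k.val + 1 ≠ L) : (k + 1).val = k.val + 1 := by
  have h1 := ZMod.val_lt k
  have hL : 1 < L := by omega
  rw [ZMod.val_add, ZMod.val_one'' (by omega), Nat.mod_eq_of_lt (by omega)]

lemma val_succ_last {k : ZMod L} (h : k.val + 1 = L) : (k + 1).val = 0 := by
  by_cases hL : L = 1
  · subst hL
    have h1 := ZMod.val_lt (k + 1)
    omega
  rw [ZMod.val_add, ZMod.val_one'' hL, h, Nat.mod_self]

lemma Qf_term (lam s : ℝ) : Qf (ZMod.val : ZMod L → ℕ) (Am L lam s) =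
    (∑ j : ZMod L, Zo j) + ((lam : ℝ) : ℂ) • ∑ k : ZMod L,
      (if k.val + 1 = L then -((s : ℝ) : ℂ) else 1) • (I • (ga ZMod.val (k + 1) * gb ZMod.val k)) := by
  unfold Qf
  rw [Finset.sum_comm]
  have h : ∀ k : ZMod L, (∑ j : ZMod L, ((Am L lam s j k : ℝ) : ℂ) • (ga ZMod.val j * gb ZMod.val k)) =
      ga ZMod.val k * gb ZMod.val k - ((lam : ℝ) : ℂ) • ((if k.val + 1 = L then -((s : ℝ) : ℂ) else 1) •
        (ga ZMod.val (k + 1) * gb ZMod.val k)) := by
    intro k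
    have e1 : ∀ j : ZMod L, ((Am L lam s j k : ℝ) : ℂ) • (ga ZMod.val j * gb ZMod.val k) =
        (if j = k then (1 : ℂ) else 0) • (ga ZMod.val j * gb ZMod.val k) -
        (if j = k + 1 then (((lam : ℝ) : ℂ) * (if k.val + 1 = L then -((s : ℝ) : ℂ) else 1)) else 0) •
          (ga ZMod.val j * gb ZMod.val k) := by
      intro j
      rw [← sub_smul]
      congr 1
      unfold Am
      rw [Matrix.sub_apply, Matrix.one_apply, Matrix.smul_apply]
      unfold Sh
      push_cast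
      split_ifs <;> simp
    rw [Finset.sum_congr rfl fun j _ => e1 j, Finset.sum_sub_distrib]
    congr 1
    · rw [Finset.sum_eq_single k]
      · simp
      · intro j _ hj; simp [hj]
      · intro hh; exact absurd (Finset.mem_univ _) hh
    · rw [Finset.sum_eq_single (k + 1)]
      · rw [if_pos rfl, smul_smul]
      · intro j _ hj; simp [hj]
      · intro hh; exact absurd (Finset.mem_univ _) hh
  rw [Finset.sum_congr rfl fun k _ => h k, Finset.sum_sub_distrib, smul_sub, Finset.smul_sum]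
  rw [Finset.sum_congr rfl fun k _ => (Zo_eq (pos := ZMod.val) k).symm]
  rw [sub_eq_add_neg]
  congr 1
  rw [Finset.smul_sum, Finset.smul_sum, ← Finset.sum_neg_distrib]
  refine Finset.sum_congr rfl fun k _ => ?_
  rw [smul_smul, smul_smul, smul_smul, smul_smul, ← neg_smul]
  congr 1
  ring

lemma rowH_eq (hL : 2 ≤ L) (lam s : ℝ) (l : ZMod L) (hl : l.val + 1 = L) :
    rowH L lam = -Qf (ZMod.val : ZMod L → ℕ) (Am L lam s) + (((lam : ℝ) : ℂ) * I) •
      (ga ZMod.val (l + 1) * gb ZMod.val l * (Par (ZMod L) - ((s : ℝ) : ℂ) • (1 : Matrix _ _ ℂ))) := by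
  have hPg : Par (ZMod L) * (ga ZMod.val (l + 1) * gb ZMod.val l) =
      ga ZMod.val (l + 1) * gb ZMod.val l * Par (ZMod L) := by
    rw [← Matrix.mul_assoc]
    unfold ga gb
    rw [Par_G, Matrix.neg_mul, Matrix.mul_assoc, Par_G, Matrix.mul_neg, neg_neg, Matrix.mul_assoc]
  have hXX : ∀ k : ZMod L, Xo k * Xo (k + 1) = (if k.val + 1 = L then
      (-I) • (ga ZMod.val (k + 1) * gb ZMod.val k * Par (ZMod L))
      else I • (ga ZMod.val (k + 1) * gb ZMod.val k)) := by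
    intro k
    have hk1 := ZMod.val_lt k
    have hne : k ≠ k + 1 := by
      intro h
      have := congrArg ZMod.val h
      by_cases h2 : k.val + 1 = L
      · rw [val_succ_last h2] at this; omega
      · rw [val_succ h2] at this; omega
    by_cases h : k.val + 1 = L
    · rw [if_pos h]
      have hkl : k = l := ZMod.val_injective L (by omega)
      rw [XX_wrap (pos := ZMod.val) hne ?_ ?_, hkl, hPg]
      · intro i
        rw [val_succ_last h]; omega
      · intro i hi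
        have h3 := ZMod.val_lt i
        have h4 : i.val ≠ k.val := fun hh => hi (ZMod.val_injective L hh)
        omega
    · rw [if_neg h]
      apply XX_next (pos := ZMod.val) hne
      intro i
      rw [val_succ h]
      constructor
      · intro hi
        by_cases h5 : i.val = k.val
        · exact Or.inr (ZMod.val_injective L h5)
        · left; omega
      · rintro (hi | hi)
        · omega
        · subst hi; omega
  rw [Qf_term]
  unfold rowH
  rw [Finset.sum_congr rfl fun k _ => hXX k]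
  have hs1 : ∀ f : ZMod L → Matrix (ZMod L → Fin 2) (ZMod L → Fin 2) ℂ,
      ∑ k, f k = f l + ∑ k ∈ Finset.univ.erase l, f k := fun f =>
    (Finset.add_sum_erase _ _ (Finset.mem_univ l)).symm
  have hne2 : ∀ k ∈ Finset.univ.erase l, ¬ (k.val + 1 = L) := by
    intro k hk hh
    exact Finset.ne_of_mem_erase hk (ZMod.val_injective L (by omega))
  rw [hs1 (fun k => if k.val + 1 = L then
      (-I) • (ga ZMod.val (k + 1) * gb ZMod.val k * Par (ZMod L))
      else I • (ga ZMod.val (k + 1) * gb ZMod.val k)),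
    hs1 (fun k => (if k.val + 1 = L then -((s : ℝ) : ℂ) else 1) • (I • (ga ZMod.val (k + 1) * gb ZMod.val k)))]
  rw [if_pos hl, if_pos hl]
  have h6 : (∑ k ∈ Finset.univ.erase l, if k.val + 1 = L then
      (-I) • (ga ZMod.val (k + 1) * gb ZMod.val k * Par (ZMod L))
      else I • (ga ZMod.val (k + 1) * gb ZMod.val k)) =
      ∑ k ∈ Finset.univ.erase l, I • (ga ZMod.val (k + 1) * gb ZMod.val k) :=
    Finset.sum_congr rfl fun k hk => by rw [if_neg (hne2 k hk)]
  have h7 : (∑ k ∈ Finset.univ.erase l, (if k.val + 1 = L then -((s : ℝ) : ℂ) else 1) •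
      (I • (ga ZMod.val (k + 1) * gb ZMod.val k))) =
      ∑ k ∈ Finset.univ.erase l, I • (ga ZMod.val (k + 1) * gb ZMod.val k) :=
    Finset.sum_congr rfl fun k hk => by rw [if_neg (hne2 k hk), one_smul]
  rw [h6, h7]
  generalize (∑ k ∈ Finset.univ.erase l, I • (ga ZMod.val (k + 1) * gb ZMod.val k)) = T
  generalize ga ZMod.val (l + 1) * gb ZMod.val l = W
  generalize (∑ j : ZMod L, Zo j) = Z
  rw [Matrix.mul_sub, Matrix.mul_smul, Matrix.mul_one]
  module

/-- Singular value decomposition with determinant one. -/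
def HasSvd {J : Type*} [Fintype J] [DecidableEq J] (A : Matrix J J ℝ)
    (O1 O2 : EuclideanSpace ℝ J ≃ₗᵢ[ℝ] EuclideanSpace ℝ J) (ε : J → ℝ) (ε₀ : ℝ) : Prop :=
  (∀ j k, A j k = ∑ m, ε m * (O1 (EuclideanSpace.single m 1) j * O2 (EuclideanSpace.single m 1) k)) ∧
  (∀ m, ε₀ ≤ ε m) ∧
  LinearMap.det O1.toLinearEquiv.toLinearMap * LinearMap.det O2.toLinearEquiv.toLinearMap = 1

lemma Par_Qf {J : Type*} [Fintype J] [DecidableEq J] (pos : J → ℕ) (A : Matrix J J ℝ) :
    Par J * Qf pos A = Qf pos A * Par J := by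
  unfold Qf
  rw [mul_smul_comm, smul_mul_assoc, Finset.mul_sum, Finset.sum_mul]
  congr 1
  refine Finset.sum_congr rfl fun j _ => ?_
  rw [Finset.mul_sum, Finset.sum_mul]
  refine Finset.sum_congr rfl fun k _ => ?_
  rw [mul_smul_comm, smul_mul_assoc]
  congr 1
  rw [← Matrix.mul_assoc]
  unfold ga gb
  rw [Par_G, Matrix.neg_mul, Matrix.mul_assoc, Par_G, Matrix.mul_neg, neg_neg, Matrix.mul_assoc]

/-- Unique ground state and gap of the ring. -/
theorem row_gap (hL : 2 ≤ L) (lam : ℝ) (h0 : 0 ≤ lam)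
    (O1 O2 O1' O2' : EuclideanSpace ℝ (ZMod L) ≃ₗᵢ[ℝ] EuclideanSpace ℝ (ZMod L))
    (ε ε' : ZMod L → ℝ) (hp : HasSvd (Am L lam 1) O1 O2 ε (1 - lam))
    (hm : HasSvd (Am L lam (-1)) O1' O2' ε' (1 - lam)) (h1 : lam ≤ 1) :
    ∃ (U : Matrix (ZMod L → Fin 2) (ZMod L → Fin 2) ℂ) (E : ℝ), Uᴴ * U = 1 ∧ U * Uᴴ = 1 ∧
      rowH L lam *ᵥ (U *ᵥ vac0 (ZMod L)) = (E : ℂ) • (U *ᵥ vac0 (ZMod L)) ∧
      (∀ ψ : (ZMod L → Fin 2) → ℂ, E * normSq ψ + (2 - 4 * lam) *
        (normSq ψ - ‖ip (U *ᵥ vac0 (ZMod L)) ψ‖ ^ 2) ≤ (ip ψ (rowH L lam *ᵥ ψ)).re) ∧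
      ∀ v, cl (gb ZMod.val) (O2 v) *ᵥ (U *ᵥ vac0 (ZMod L)) =
        I • (cl (ga ZMod.val) (O1 v) *ᵥ (U *ᵥ vac0 (ZMod L))) := by
  obtain ⟨l, hl⟩ : ∃ l : ZMod L, l.val + 1 = L := by
    refine ⟨((L - 1 : ℕ) : ZMod L), ?_⟩
    rw [ZMod.val_natCast, Nat.mod_eq_of_lt (by omega)]
    omega
  obtain ⟨U, u1, u2, u3, u4, u5⟩ := vac_exists val_inj (Am L lam 1) O1 O2 ε hp.1 hp.2.2
  obtain ⟨U', v1, v2, v3, v4, v5⟩ := vac_exists val_inj (Am L lam (-1)) O1' O2' ε' hm.1 hm.2.2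
  set Ω := U *ᵥ vac0 (ZMod L) with hΩ
  set Ω' := U' *ᵥ vac0 (ZMod L) with hΩ'
  set W := ga ZMod.val (l + 1) * gb ZMod.val l with hW
  have hPΩ : Par (ZMod L) *ᵥ Ω = Ω := by
    rw [hΩ, Matrix.mulVec_mulVec, ← u4, ← Matrix.mulVec_mulVec, Par_vac0]
  have hPΩ' : Par (ZMod L) *ᵥ Ω' = Ω' := by
    rw [hΩ', Matrix.mulVec_mulVec, ← v4, ← Matrix.mulVec_mulVec, Par_vac0]
  have hev : ∀ ψ : (ZMod L → Fin 2) → ℂ, Par (ZMod L) *ᵥ ψ = ψ →
      rowH L lam *ᵥ ψ = -(Qf ZMod.val (Am L lam 1) *ᵥ ψ) := by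
    intro ψ hψ
    rw [rowH_eq hL lam 1 l hl, Matrix.add_mulVec, Matrix.neg_mulVec, Matrix.smul_mulVec,
      ← Matrix.mulVec_mulVec, Matrix.sub_mulVec, hψ, Matrix.smul_mulVec, Matrix.one_mulVec]
    simp
  have hod : ∀ ψ : (ZMod L → Fin 2) → ℂ, Par (ZMod L) *ᵥ ψ = -ψ →
      rowH L lam *ᵥ ψ = -(Qf ZMod.val (Am L lam (-1)) *ᵥ ψ) := by
    intro ψ hψ
    rw [rowH_eq hL lam (-1) l hl, Matrix.add_mulVec, Matrix.neg_mulVec, Matrix.smul_mulVec,
      ← Matrix.mulVec_mulVec, Matrix.sub_mulVec, hψ, Matrix.smul_mulVec, Matrix.one_mulVec]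
    simp
  have hQΩ : Qf ZMod.val (Am L lam 1) *ᵥ Ω = ((∑ m, ε m : ℝ) : ℂ) • Ω := by
    rw [hΩ, Matrix.mulVec_mulVec, u3, ← Matrix.mulVec_mulVec, ← Matrix.mulVec_smul]
    congr 1
    funext σ
    rw [Mon_mulVec, Pi.smul_apply, smul_eq_mul]
    unfold vac0
    by_cases h : σ = 0
    · subst h; simp [z]
    · rw [Pi.single_eq_of_ne h]; simp
  have hQΩ' : Qf ZMod.val (Am L lam (-1)) *ᵥ Ω' = ((∑ m, ε' m : ℝ) : ℂ) • Ω' := by
    rw [hΩ', Matrix.mulVec_mulVec, v3, ← Matrix.mulVec_mulVec, ← Matrix.mulVec_smul]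
    congr 1
    funext σ
    rw [Mon_mulVec, Pi.smul_apply, smul_eq_mul]
    unfold vac0
    by_cases h : σ = 0
    · subst h; simp [z]
    · rw [Pi.single_eq_of_ne h]; simp
  have hnΩ : normSq Ω = 1 := by rw [hΩ, nSq_unit u1, normSq_vac0]
  have hnΩ' : normSq Ω' = 1 := by rw [hΩ', nSq_unit v1, normSq_vac0]
  -- comparison of the sums
  have hsum : ∑ m, ε' m ≤ ∑ m, ε m + 2 * lam := by
    have a1 : (ip Ω' (Qf ZMod.val (Am L lam (-1)) *ᵥ Ω')).re = ∑ m, ε' m := by
      rw [hQΩ', ip_smul_r, ip_self, hnΩ']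
      simp
    have a2 : Qf ZMod.val (Am L lam (-1)) = Qf ZMod.val (Am L lam 1) + (((2 * lam : ℝ) : ℂ) * I) • W := by
      have b1 := rowH_eq hL lam 1 l hl
      have b2 := rowH_eq hL lam (-1) l hl
      rw [← hW] at b1 b2
      have b3 : -Qf (ZMod.val : ZMod L → ℕ) (Am L lam 1) + (((lam : ℝ) : ℂ) * I) •
        (W * (Par (ZMod L) - ((1 : ℝ) : ℂ) • (1 : Matrix _ _ ℂ))) =
        -Qf (ZMod.val : ZMod L → ℕ) (Am L lam (-1)) + (((lam : ℝ) : ℂ) * I) •
        (W * (Par (ZMod L) - (((-1 : ℝ)) : ℂ) • (1 : Matrix _ _ ℂ))) := by rw [← b1, ← b2]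
      rw [Matrix.mul_sub, Matrix.mul_sub, Matrix.mul_smul, Matrix.mul_smul, Matrix.mul_one] at b3
      have b4 : Qf (ZMod.val : ZMod L → ℕ) (Am L lam (-1)) = Qf (ZMod.val : ZMod L → ℕ) (Am L lam 1) +
        ((((lam : ℝ) : ℂ) * I) • (W * Par (ZMod L) - (((-1 : ℝ)) : ℂ) • W) -
        (((lam : ℝ) : ℂ) * I) • (W * Par (ZMod L) - ((1 : ℝ) : ℂ) • W)) := by
        have b5 := congrArg (fun T => Qf (ZMod.val : ZMod L → ℕ) (Am L lam 1) + Qf (ZMod.val : ZMod L → ℕ) (Am L lam (-1)) + T) b3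
        beta_reduce at b5

        have b6 : ∀ (A B X Y : Matrix (ZMod L → Fin 2) (ZMod L → Fin 2) ℂ), A + B + (-A + X) = A + B + (-B + Y) → B = A + (Y - X) := by
          intro A B X Y h
          have h1 : B + X = A + Y := by
            calc B + X = A + B + (-A + X) := by abel
              _ = A + B + (-B + Y) := h
              _ = A + Y := by abel
          rw [← add_sub_assoc, ← h1, add_sub_cancel_right]
        exact b6 _ _ _ _ b5
      rw [b4]
      congr 1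
      push_cast
      module
    have a3 : (ip Ω' (Qf ZMod.val (Am L lam 1) *ᵥ Ω')).re ≤ ∑ m, ε m := by
      have := spec_ineq u1 u2 ε (1 - lam) (by linarith) hp.2.1 u3 Ω'
      have c1 : ‖ip (U *ᵥ vac0 (ZMod L)) Ω'‖ ≤ 1 := by
        have := ip_cs (U *ᵥ vac0 (ZMod L)) Ω'
        rwa [← hΩ, hnΩ, hnΩ', Real.sqrt_one, one_mul] at this
      rw [hnΩ'] at this
      have c2 : ‖ip (U *ᵥ vac0 (ZMod L)) Ω'‖ ^ 2 ≤ 1 := by
        rw [sq_le_one_iff_abs_le_one, abs_norm]; exact c1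
      nlinarith
    have a4 : (ip Ω' (((((2 * lam : ℝ) : ℂ) * I) • W) *ᵥ Ω')).re ≤ 2 * lam := by
      rw [Matrix.smul_mulVec, ip_smul_r]
      refine (Complex.re_le_norm _).trans ?_
      rw [norm_mul, norm_mul, Complex.norm_I, mul_one, Complex.norm_real, Real.norm_eq_abs,
        abs_of_nonneg (by linarith)]
      have c3 : normSq (W *ᵥ Ω') = 1 := by
        have hWW : Wᴴ * W = 1 := by
          rw [hW, conjTranspose_mul, (cliff_ga val_inj).herm, (cliff_gb val_inj).herm]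
          have d1 : ∀ (g : ZMod L → Matrix (ZMod L → Fin 2) (ZMod L → Fin 2) ℂ), Cliff g → ∀ j, g j * g j = 1 := by
            intro g hg j
            have := cl_sq hg (EuclideanSpace.single j 1)
            rw [cl_single] at this
            rw [this]
            simp
          rw [Matrix.mul_assoc, ← Matrix.mul_assoc (ga ZMod.val (l + 1)), d1 _ (cliff_ga val_inj),
            Matrix.one_mul, d1 _ (cliff_gb val_inj)]
        rw [nSq_unit hWW, hnΩ']
      have c4 := ip_cs Ω' (W *ᵥ Ω')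
      rw [c3, hnΩ', Real.sqrt_one, one_mul] at c4
      nlinarith
    rw [← a1, a2, Matrix.add_mulVec, ip_add_r, Complex.add_re]
    linarith
  refine ⟨U, -∑ m, ε m, u1, u2, ?_, ?_, u5⟩
  · rw [hev Ω hPΩ, hQΩ, ← neg_smul]
    push_cast; rfl
  · intro ψ
    set P := Par (ZMod L) with hP
    have hP2 : P * P = 1 := Par_sq
    set a := (1 / 2 : ℂ) • (ψ + P *ᵥ ψ) with ha
    set b := (1 / 2 : ℂ) • (ψ - P *ᵥ ψ) with hb
    have hab : ψ = a + b := by
      rw [ha, hb]; module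
    have hPa : P *ᵥ a = a := by
      rw [ha, Matrix.mulVec_smul, Matrix.mulVec_add, Matrix.mulVec_mulVec, hP2, Matrix.one_mulVec,
        add_comm]
    have hPb : P *ᵥ b = -b := by
      rw [hb, Matrix.mulVec_smul, Matrix.mulVec_sub, Matrix.mulVec_mulVec, hP2, Matrix.one_mulVec,
        ← smul_neg, neg_sub]
    clear_value a b
    have orth : ∀ x y : (ZMod L → Fin 2) → ℂ, P *ᵥ x = x → P *ᵥ y = -y → ip x y = 0 := by
      intro x y hx hy
      have e1 : ip x (P *ᵥ y) = ip x y := by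
        rw [ip_adj, hP, Par_herm, ← hP, hx]
      rw [hy, ip_neg_r] at e1
      have : (2 : ℂ) * ip x y = 0 := by linear_combination -e1
      simpa using this
    have orth' : ∀ x y : (ZMod L → Fin 2) → ℂ, P *ᵥ x = x → P *ᵥ y = -y → ip y x = 0 := by
      intro x y hx hy
      rw [← ip_conj, orth x y hx hy, map_zero]
    have hHa : P *ᵥ (rowH L lam *ᵥ a) = rowH L lam *ᵥ a := by
      rw [hev a hPa, Matrix.mulVec_neg, Matrix.mulVec_mulVec, hP, Par_Qf, ← hP, ← Matrix.mulVec_mulVec, hPa]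
    have hHb : P *ᵥ (rowH L lam *ᵥ b) = -(rowH L lam *ᵥ b) := by
      rw [hod b hPb, Matrix.mulVec_neg, Matrix.mulVec_mulVec, hP, Par_Qf, ← hP, ← Matrix.mulVec_mulVec, hPb,
        Matrix.mulVec_neg]
    have hform : ip ψ (rowH L lam *ᵥ ψ) = ip a (rowH L lam *ᵥ a) + ip b (rowH L lam *ᵥ b) := by
      rw [hab, Matrix.mulVec_add, ip_add_l, ip_add_r, ip_add_r, orth _ _ hPa hHb, orth' _ _ hHa hPb]
      ring
    have hnorm : normSq ψ = normSq a + normSq b := by
      have : ip ψ ψ = ip a a + ip b b := by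
        rw [hab, ip_add_l, ip_add_r, ip_add_r, orth _ _ hPa hPb, orth' _ _ hPa hPb]
        ring
      rw [ip_self, ip_self, ip_self] at this
      exact_mod_cast this
    have hov : ip Ω ψ = ip Ω a := by
      rw [hab, ip_add_r, orth _ _ hPΩ hPb, add_zero]
    have hov' : ip Ω' b = 0 := orth _ _ hPΩ' hPb
    have k1 := spec_ineq u1 u2 ε (1 - lam) (by linarith) hp.2.1 u3 a
    have k2 := spec_ineq v1 v2 ε' (1 - lam) (by linarith) hm.2.1 v3 b
    rw [← hΩ] at k1
    rw [← hΩ', hov', norm_zero] at k2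
    rw [hform, hnorm, hov, hev a hPa, hod b hPb, ip_neg_r, ip_neg_r, Complex.add_re, Complex.neg_re,
      Complex.neg_re]
    have hna := nSq_nonneg a
    have hnb := nSq_nonneg b
    have hcs : ‖ip Ω a‖ ^ 2 ≤ normSq a := by
      have := ip_cs Ω a
      rw [hnΩ, Real.sqrt_one, one_mul] at this
      calc ‖ip Ω a‖ ^ 2 ≤ (Real.sqrt (normSq a)) ^ 2 := by
            apply pow_le_pow_left₀ (norm_nonneg _) this
        _ = normSq a := Real.sq_sqrt hna
    nlinarith [mul_le_mul_of_nonneg_right hsum hnb]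

end Pool.Agent.K6.H5.PL
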