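import Pool.Agent.K6.H5.PL.Amp
import Pool.Agent.K6.H5.PL.Row

/-! Cutting a tensor network along the boundary of a box. -/

set_option autoImplicit false
set_option linter.unusedSectionVars false

open scoped BigOperators Matrix InnerProductSpace
open Finset Matrix Complex Pool.Agent.TH235.PP

namespace Pool.Agent.K6.H5.PL

open Classical in
/-- exchange of the values at the indices not satisfying `p` -/
noncomputable def swpK {E K : Type*} (p : E → Prop) : ((E → K) × (E → K)) ≃ ((E → K) × (E → K)) where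
  toFun x := (fun j => if p j then x.1 j else x.2 j, fun j => if p j then x.2 j else x.1 j)
  invFun x := (fun j => if p j then x.1 j else x.2 j, fun j => if p j then x.2 j else x.1 j)
  left_inv x := by
    ext j <;> simp only [] <;> split_ifs <;> rfl
  right_inv x := by
    ext j <;> simp only [] <;> split_ifs <;> rfl

lemma indepK {E K : Type*} [Fintype E] [DecidableEq E] [Fintype K] (p : E → Prop)
    (f g : (E → K) → ℂ) (hf : ∀ x y, (∀ e, p e → x e = y e) → f x = f y)
    (hg : ∀ x y, (∀ e, ¬ p e → x e = y e) → g x = g y) :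
    (Fintype.card (E → K) : ℂ) * ∑ s, f s * g s = (∑ s, f s) * ∑ s, g s := by
  have h1 : (∑ s, f s) * ∑ s, g s = ∑ x : (E → K) × (E → K), f x.1 * g x.2 := by
    rw [Finset.sum_mul_sum, Fintype.sum_prod_type]
  have h2 : (Fintype.card (E → K) : ℂ) * ∑ s, f s * g s =
      ∑ x : (E → K) × (E → K), f x.1 * g x.1 := by
    rw [Fintype.sum_prod_type, Finset.mul_sum]
    refine Finset.sum_congr rfl fun s _ => ?_
    simp only []
    rw [Finset.sum_const, Finset.card_univ, nsmul_eq_mul]
  rw [h1, h2, ← (swpK p).sum_comp]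
  refine Finset.sum_congr rfl fun x _ => ?_
  congr 1
  · apply hf
    intro j hj
    simp [swpK, hj]
  · apply hg
    intro j hj
    simp [swpK, hj]

lemma indepK' {E K : Type*} [Fintype E] [DecidableEq E] [Fintype K] (p : E → Prop)
    (f g : (E → K) → ℂ) (hf : ∀ x y, (∀ e, p e → x e = y e) → f x = f y)
    (hg : ∀ x y, (∀ e, ¬ p e → x e = y e) → g x = g y) :
    ∑ s, f s * g s = ((Fintype.card (E → K) : ℂ)⁻¹ * ∑ s, f s) * ∑ s, g s := by
  by_cases h : Fintype.card (E → K) = 0
  · rw [Fintype.card_eq_zero_iff] at h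
    simp
  · have h2 : (Fintype.card (E → K) : ℂ) ≠ 0 := by exact_mod_cast h
    rw [mul_assoc, ← indepK p f g hf hg, ← mul_assoc, inv_mul_cancel₀ h2, one_mul]

section peps

variable {L D : ℕ} [NeZero L]

/-- the end points of an edge -/
def ed1 (e : Site L ⊕ Site L) : Site L := Sum.elim id id e
def ed2 (e : Site L ⊕ Site L) : Site L :=
  Sum.elim (fun y => (y.1 + 1, y.2)) (fun y => (y.1, y.2 + 1)) e

/-- boundary edges of a set of sites -/
def bd (q : Site L → Prop) (e : Site L ⊕ Site L) : Prop :=
  (q (ed1 e) ∧ ¬ q (ed2 e)) ∨ (¬ q (ed1 e) ∧ q (ed2 e))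

/-- the value of the tensor at `x` -/
def tn (A : Site L → Fin 2 → Fin D → Fin D → Fin D → Fin D → ℂ) (s : Site L → Fin 2)
    (η : Site L ⊕ Site L → Fin D) (x : Site L) : ℂ :=
  A x (s x) (η (Sum.inl (x.1 - 1, x.2))) (η (Sum.inl x)) (η (Sum.inr (x.1, x.2 - 1))) (η (Sum.inr x))

lemma contract_eq (A : Site L → Fin 2 → Fin D → Fin D → Fin D → Fin D → ℂ) (s : Site L → Fin 2) :
    contract A s = ∑ η : Site L ⊕ Site L → Fin D, ∏ x, tn A s η x := by
  rw [← (Equiv.sumArrowEquivProdArrow (Site L) (Site L) (Fin D)).symm.sum_comp, Fintype.sum_prod_type]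
  rfl

lemma tn_congr (A : Site L → Fin 2 → Fin D → Fin D → Fin D → Fin D → ℂ) (s : Site L → Fin 2)
    (η η' : Site L ⊕ Site L → Fin D) (x : Site L)
    (h : ∀ e, (ed1 e = x ∨ ed2 e = x) → η e = η' e) : tn A s η x = tn A s η' x := by
  unfold tn
  rw [h (Sum.inl (x.1 - 1, x.2)) (Or.inr (by simp [ed2])), h (Sum.inl x) (Or.inl rfl),
    h (Sum.inr (x.1, x.2 - 1)) (Or.inr (by simp [ed2])), h (Sum.inr x) (Or.inl rfl)]

open Classical in
theorem peps_split (φ : (Site L → Fin 2) → ℂ) (hφ : IsPEPS D φ) (q : Site L → Prop) :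
    ∃ F H : ({e // bd q e} → Fin D) → (Site L → Fin 2) → ℂ, (∀ b, Dep q (F b)) ∧
      (∀ b, Dep (fun v => ¬ q v) (H b)) ∧ φ = ∑ b, F b * H b := by
  obtain ⟨A, rfl⟩ := hφ
  set glue : ({e // bd q e} → Fin D) → ({e // ¬ bd q e} → Fin D) → (Site L ⊕ Site L → Fin D) :=
    fun β ρ => (Equiv.piEquivPiSubtypeProd (bd q) (fun _ => Fin D)).symm (β, ρ) with hglue
  have hg1 : ∀ β ρ e, (h : bd q e) → glue β ρ e = β ⟨e, h⟩ := by
    intro β ρ e h
    simp [hglue, h]
  have hg2 : ∀ β ρ e, (h : ¬ bd q e) → glue β ρ e = ρ ⟨e, h⟩ := by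
    intro β ρ e h
    simp [hglue, h]
  set f : (Site L → Fin 2) → (Site L ⊕ Site L → Fin D) → ℂ := fun s η =>
    ∏ x, if q x then tn A s η x else 1 with hf
  set g : (Site L → Fin 2) → (Site L ⊕ Site L → Fin D) → ℂ := fun s η =>
    ∏ x, if q x then 1 else tn A s η x with hg
  refine ⟨fun β s => (Fintype.card ({e // ¬ bd q e} → Fin D) : ℂ)⁻¹ * ∑ ρ, f s (glue β ρ),
    fun β s => ∑ ρ, g s (glue β ρ), ?_, ?_, ?_⟩
  · intro β j hj s
    simp only []
    congr 1
    refine Finset.sum_congr rfl fun ρ _ => ?_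
    rw [hf]
    simp only []
    refine Finset.prod_congr rfl fun x _ => ?_
    split_ifs with hx
    · unfold tn
      rw [flp_ne (fun hh => hj (by rw [← hh]; exact hx))]
    · rfl
  · intro β j hj s
    simp only []
    refine Finset.sum_congr rfl fun ρ _ => ?_
    rw [hg]
    simp only []
    refine Finset.prod_congr rfl fun x _ => ?_
    split_ifs with hx
    · rfl
    · unfold tn
      rw [flp_ne (fun hh => hx (by rw [hh]; exact not_not.1 hj))]
  · funext s
    rw [contract_eq, Finset.sum_apply, ← (Equiv.piEquivPiSubtypeProd (bd q) (fun _ => Fin D)).symm.sum_comp,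
      Fintype.sum_prod_type]
    refine Finset.sum_congr rfl fun β _ => ?_
    rw [Pi.mul_apply]
    have e1 : ∀ ρ : {e // ¬ bd q e} → Fin D, ∏ x, tn A s ((Equiv.piEquivPiSubtypeProd (bd q) (fun _ => Fin D)).symm (β, ρ)) x =
        f s (glue β ρ) * g s (glue β ρ) := by
      intro ρ
      rw [hf, hg]
      simp only []
      rw [← Finset.prod_mul_distrib]
      refine Finset.prod_congr rfl fun x _ => ?_
      split_ifs
      · rw [mul_one]
      · rw [one_mul]
    rw [Finset.sum_congr rfl fun ρ _ => e1 ρ]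
    apply indepK' (fun e : {e // ¬ bd q e} => q (ed1 e.1)) (fun ρ => f s (glue β ρ)) (fun ρ => g s (glue β ρ))
    · intro ρ ρ' h
      rw [hf]
      simp only []
      refine Finset.prod_congr rfl fun x _ => ?_
      split_ifs with hx
      · apply tn_congr
        intro e he
        by_cases hb : bd q e
        · rw [hg1 _ _ _ hb, hg1 _ _ _ hb]
        · rw [hg2 _ _ _ hb, hg2 _ _ _ hb]
          apply h
          rcases he with he | he
          · show q (ed1 e)
            rw [he]; exact hx
          · by_contra hh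
            exact hb (Or.inr ⟨hh, by rw [he]; exact hx⟩)
      · rfl
    · intro ρ ρ' h
      rw [hg]
      simp only []
      refine Finset.prod_congr rfl fun x _ => ?_
      split_ifs with hx
      · rfl
      · apply tn_congr
        intro e he
        by_cases hb : bd q e
        · rw [hg1 _ _ _ hb, hg1 _ _ _ hb]
        · rw [hg2 _ _ _ hb, hg2 _ _ _ hb]
          apply h
          rcases he with he | he
          · show ¬ q (ed1 e)
            rw [he]; exact hx
          · intro hh
            exact hb (Or.inl ⟨hh, by rw [he]; exact hx⟩)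

/-- an interval of residues -/
def intv (a w : ℕ) (y : ZMod L) : Prop := a ≤ y.val ∧ y.val < a + w

lemma cast_succ (y : ZMod L) : y + 1 = ((y.val + 1 : ℕ) : ZMod L) := by
  push_cast
  rw [ZMod.natCast_zmod_val]

lemma intv_bd {a w : ℕ} (haw : a + w ≤ L) (y : ZMod L)
    (h : (intv a w y ∧ ¬ intv a w (y + 1)) ∨ (¬ intv a w y ∧ intv a w (y + 1))) :
    y + 1 = ((a : ℕ) : ZMod L) ∨ y + 1 = ((a + w : ℕ) : ZMod L) := by
  have hlt := ZMod.val_lt y
  unfold intv at h
  rcases h with ⟨h1, h2⟩ | ⟨h1, h2⟩
  · right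
    by_cases hl : y.val + 1 = L
    · have : y.val + 1 = a + w := by omega
      rw [cast_succ, this]
    · rw [val_succ hl] at h2
      have : y.val + 1 = a + w := by omega
      rw [cast_succ, this]
  · left
    by_cases hl : y.val + 1 = L
    · rw [val_succ_last hl] at h2
      have ha : a = 0 := by omega
      rw [cast_succ, hl, ha]
      simp
    · rw [val_succ hl] at h2
      have : y.val + 1 = a := by omega
      rw [cast_succ, this]

lemma intv_mem {a w : ℕ} (y : ZMod L) (h : intv a w y) : ∃ i : Fin w, y = ((a + i : ℕ) : ZMod L) := by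
  refine ⟨⟨y.val - a, by unfold intv at h; omega⟩, ?_⟩
  have : a + (y.val - a) = y.val := by unfold intv at h; omega
  simp only []
  rw [this, ZMod.natCast_zmod_val]

/-- a box -/
def rect (a b w : ℕ) (v : Site L) : Prop := intv a w v.1 ∧ intv b w v.2

open Classical in
lemma card_bd {a b w : ℕ} (ha : a + w ≤ L) (hb : b + w ≤ L) :
    Fintype.card {e : Site L ⊕ Site L // bd (rect a b w) e} ≤ 4 * w := by
  rw [Fintype.card_subtype]
  set m : Bool × Bool × Fin w → Site L ⊕ Site L := fun p =>
    match p with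
    | (false, c, i) => Sum.inl (((if c then a else a + w : ℕ) : ZMod L) - 1, ((b + i : ℕ) : ZMod L))
    | (true, c, i) => Sum.inr (((a + i : ℕ) : ZMod L), ((if c then b else b + w : ℕ) : ZMod L) - 1) with hm
  have hsub : (Finset.univ.filter fun e : Site L ⊕ Site L => bd (rect a b w) e) ⊆
      Finset.univ.image m := by
    intro e he
    rw [Finset.mem_filter] at he
    have hbd := he.2
    rw [Finset.mem_image]
    rcases e with ⟨y1, y2⟩ | ⟨y1, y2⟩
    · unfold bd rect ed1 ed2 at hbd
      simp only [Sum.elim_inl, id] at hbd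
      have h2 : intv b w y2 := by tauto
      have h1 : (intv a w y1 ∧ ¬ intv a w (y1 + 1)) ∨ (¬ intv a w y1 ∧ intv a w (y1 + 1)) := by tauto
      obtain ⟨i, hi⟩ := intv_mem y2 h2
      rcases intv_bd ha y1 h1 with h3 | h3
      · refine ⟨(false, true, i), Finset.mem_univ _, ?_⟩
        rw [hm]
        simp only [if_true]
        rw [← h3, ← hi, add_sub_cancel_right]
      · refine ⟨(false, false, i), Finset.mem_univ _, ?_⟩
        rw [hm]
        simp only [Bool.false_eq_true, if_false]
        rw [← h3, ← hi, add_sub_cancel_right]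
    · unfold bd rect ed1 ed2 at hbd
      simp only [Sum.elim_inr, id] at hbd
      have h2 : intv a w y1 := by tauto
      have h1 : (intv b w y2 ∧ ¬ intv b w (y2 + 1)) ∨ (¬ intv b w y2 ∧ intv b w (y2 + 1)) := by tauto
      obtain ⟨i, hi⟩ := intv_mem y1 h2
      rcases intv_bd hb y2 h1 with h3 | h3
      · refine ⟨(true, true, i), Finset.mem_univ _, ?_⟩
        rw [hm]
        simp only [if_true]
        rw [← h3, ← hi, add_sub_cancel_right]
      · refine ⟨(true, false, i), Finset.mem_univ _, ?_⟩
        rw [hm]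
        simp only [Bool.false_eq_true, if_false]
        rw [← h3, ← hi, add_sub_cancel_right]
  calc _ ≤ (Finset.univ.image m).card := Finset.card_le_card hsub
    _ ≤ (Finset.univ : Finset (Bool × Bool × Fin w)).card := Finset.card_image_le
    _ = 4 * w := by
      rw [Finset.card_univ, Fintype.card_prod, Fintype.card_prod, Fintype.card_bool, Fintype.card_fin]
      ring

/-- regrouping of the rows of the torus -/
def rowE (n w l : ℕ) (h : n * w + l = L) : (Fin n × Fin w) ⊕ Fin l ≃ ZMod L :=
  ((finProdFinEquiv.sumCongr (Equiv.refl (Fin l))).trans finSumFinEquiv).trans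
    ((finCongr h).trans (ZMod.finEquiv L).toEquiv)

lemma finEquiv_val (i : Fin L) : (ZMod.finEquiv L i).val = i.val := by
  obtain ⟨L', rfl⟩ : ∃ L', L = L' + 1 := ⟨L - 1, by have := NeZero.ne L; omega⟩
  rfl

lemma rowE_val (n w l : ℕ) (h : n * w + l = L) (g : Fin n) (i : Fin w) :
    (rowE n w l h (Sum.inl (g, i))).val = i + w * g := by
  unfold rowE
  simp only [Equiv.trans_apply, Equiv.sumCongr_apply, Sum.map_inl, finSumFinEquiv_apply_left,
    RingEquiv.toEquiv_eq_coe, EquivLike.coe_coe]
  rw [finEquiv_val]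
  simp [finProdFinEquiv]

lemma bx_rowE (n w l : ℕ) (h : n * w + l = L) (b : ℕ) (g : Fin n) (v : Site L) :
    bx (rowE n w l h) (intv b w) g v ↔ rect (w * g) b w v := by
  unfold bx rect
  have : (∃ i, v.1 = rowE n w l h (Sum.inl (g, i))) ↔ intv (w * g) w v.1 := by
    constructor
    · rintro ⟨i, hi⟩
      unfold intv
      rw [hi, rowE_val]
      have := i.2
      constructor <;> omega
    · intro hv
      unfold intv at hv
      refine ⟨⟨v.1.val - w * g, by omega⟩, ?_⟩
      apply ZMod.val_injective L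
      rw [rowE_val]
      simp only []
      omega
  rw [this]

end peps

end Pool.Agent.K6.H5.PL
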