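import Pool.Agent.K6.H5.PL.Det
import Pool.Agent.K6.H5.PL.Peps
import Pool.Agent.K6.H5.PL.Ham

/-! Operators with diagonal expectation values on both sides of a cut of a ring. -/

set_option autoImplicit false
set_option linter.unusedSectionVars false

open scoped BigOperators Matrix InnerProductSpace
open Finset Matrix Pool.Agent.TH235.PP

namespace Pool.Agent.K6.H5.PL

section emb

variable {K : Type*} [Fintype K] [DecidableEq K] {w : ℕ}

/-- embedding of coordinates -/
noncomputable def emb (ρ : Fin w → K) (x : Fin w → ℝ) : EuclideanSpace ℝ K :=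
  WithLp.toLp 2 fun j => ∑ i, if j = ρ i then x i else 0

lemma emb_ap (ρ : Fin w → K) (x : Fin w → ℝ) (j : K) :
    emb ρ x j = ∑ i, if j = ρ i then x i else 0 := rfl

lemma emb_dot (ρ : Fin w → K) (x : Fin w → ℝ) (y : K → ℝ) :
    (emb ρ x).ofLp ⬝ᵥ y = ∑ i, x i * y (ρ i) := by
  unfold dotProduct
  calc ∑ j, (emb ρ x).ofLp j * y j = ∑ j, ∑ i, (if j = ρ i then x i * y j else 0) := by
        refine Finset.sum_congr rfl fun j _ => ?_
        show (∑ i, if j = ρ i then x i else 0) * y j = _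
        rw [Finset.sum_mul]
        refine Finset.sum_congr rfl fun i _ => ?_
        split_ifs <;> simp
    _ = ∑ i, ∑ j, (if j = ρ i then x i * y j else 0) := Finset.sum_comm
    _ = _ := by
        refine Finset.sum_congr rfl fun i _ => ?_
        rw [Finset.sum_ite_eq' Finset.univ, if_pos (Finset.mem_univ _)]

lemma emb_self {ρ : Fin w → K} (hρ : Function.Injective ρ) (x : Fin w → ℝ) (i : Fin w) :
    emb ρ x (ρ i) = x i := by
  rw [emb_ap, Finset.sum_eq_single i]
  · rw [if_pos rfl]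
  · intro j _ hj
    rw [if_neg (fun hh => hj (hρ hh).symm)]
  · intro h; exact absurd (Finset.mem_univ _) h

lemma emb_inner {ρ : Fin w → K} (hρ : Function.Injective ρ) (x y : Fin w → ℝ) :
    ⟪emb ρ x, emb ρ y⟫_ℝ = x ⬝ᵥ y := by
  rw [inner_dot, emb_dot]
  unfold dotProduct
  exact Finset.sum_congr rfl fun i _ => by rw [← emb_self hρ y i]

lemma emb_supp {ρ : Fin w → K} {x : Fin w → ℝ} {j : K} (h : ∀ i, j ≠ ρ i) : emb ρ x j = 0 := by
  rw [emb_ap]
  exact Finset.sum_eq_zero fun i _ => if_neg (h i)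

lemma emb_mat (ρ ρ' : Fin w → K) (M : Matrix K K ℝ) (x y : Fin w → ℝ) :
    ⟪emb ρ x, (WithLp.toLp 2 (M *ᵥ (emb ρ' y).ofLp) : EuclideanSpace ℝ K)⟫_ℝ =
      x ⬝ᵥ ((fun i i' => M (ρ i) (ρ' i') : Matrix (Fin w) (Fin w) ℝ) *ᵥ y) := by
  rw [inner_dot, emb_dot]
  unfold dotProduct
  refine Finset.sum_congr rfl fun i _ => ?_
  congr 1
  show (fun k => M (ρ i) k) ⬝ᵥ (emb ρ' y).ofLp = _
  rw [dotProduct_comm, emb_dot]
  unfold Matrix.mulVec dotProduct
  exact Finset.sum_congr rfl fun i' _ => mul_comm _ _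

end emb

/-- Singular vectors of an invertible matrix. -/
lemma svd_block {w : ℕ} (G : Matrix (Fin w) (Fin w) ℝ) (hG : G.det ≠ 0) :
    ∃ (u v : Fin w → Fin w → ℝ) (s : Fin w → ℝ), (∀ i j, u i ⬝ᵥ u j = if i = j then 1 else 0) ∧
      (∀ i j, v i ⬝ᵥ v j = if i = j then 1 else 0) ∧
      (∀ i j, u i ⬝ᵥ (G *ᵥ v j) = if i = j then s i else 0) ∧ (∀ i, 0 < s i) ∧
      ∏ i, s i = |G.det| := by
  have hps : (Gᵀ * G).PosSemidef := by
    have := Matrix.posSemidef_conjTranspose_mul_self G
    rwa [Matrix.conjTranspose_eq_transpose_of_trivial] at this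
  have hH := hps.isHermitian
  set b := hH.eigenvectorBasis with hb
  set μ := hH.eigenvalues with hμ
  have hbv : ∀ i, (Gᵀ * G) *ᵥ (b i).ofLp = μ i • (b i).ofLp := fun i => hH.mulVec_eigenvectorBasis i
  have hdet : ∏ i, μ i = G.det ^ 2 := by
    have h1 := hH.det_eq_prod_eigenvalues
    rw [Matrix.det_mul, Matrix.det_transpose] at h1
    simp only [RCLike.ofReal_real_eq_id, id] at h1
    rw [pow_two, h1]
  have hμ0 : ∀ i, 0 ≤ μ i := hps.eigenvalues_nonneg
  have hμpos : ∀ i, 0 < μ i := by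
    intro i
    rcases (hμ0 i).lt_or_eq with h | h
    · exact h
    · exfalso
      have h2 : ∏ i, μ i = 0 := Finset.prod_eq_zero (Finset.mem_univ i) h.symm
      rw [hdet] at h2
      exact hG (pow_eq_zero_iff (by norm_num) |>.1 h2)
  have hvv : ∀ i j, (b i).ofLp ⬝ᵥ (b j).ofLp = if i = j then 1 else 0 := by
    intro i j
    rw [← inner_dot]
    exact (orthonormal_iff_ite.1 b.orthonormal) i j
  have hGG : ∀ i j, (G *ᵥ (b i).ofLp) ⬝ᵥ (G *ᵥ (b j).ofLp) = if i = j then μ j else 0 := by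
    intro i j
    rw [Matrix.dotProduct_mulVec, Matrix.vecMul_mulVec, ← Matrix.dotProduct_mulVec, hbv, dotProduct_smul,
      hvv]
    split_ifs <;> simp
  have hs0 : ∀ i, 0 < Real.sqrt (μ i) := fun i => Real.sqrt_pos.2 (hμpos i)
  refine ⟨fun i => (Real.sqrt (μ i))⁻¹ • (G *ᵥ (b i).ofLp), fun i => (b i).ofLp,
    fun i => Real.sqrt (μ i), ?_, hvv, ?_, hs0, ?_⟩
  · intro i j
    rw [smul_dotProduct, dotProduct_smul, hGG]
    split_ifs with h
    · subst h
      have h3 := Real.mul_self_sqrt (hμ0 i)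
      have h4 := (hs0 i).ne'
      simp only [smul_eq_mul]
      conv_lhs => rw [← h3]
      rw [Real.sqrt_mul_self (Real.sqrt_nonneg _)]
      field_simp
    · simp
  · intro i j
    rw [smul_dotProduct, hGG]
    split_ifs with h
    · subst h
      have h3 := Real.mul_self_sqrt (hμ0 i)
      have h4 := (hs0 i).ne'
      simp only [smul_eq_mul]
      rw [inv_mul_eq_div, div_eq_iff h4, h3]
    · simp
  · rw [← Real.sqrt_prod _ fun i _ => hμ0 i, hdet, Real.sqrt_sq_eq_abs]

section rowdata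

variable {L : ℕ} [NeZero L]

theorem row_data {lam : ℝ} (h0 : 0 < lam) (h1 : lam < 1) {w k N P : ℕ} (hk : Even k) (hN : 1 ≤ N)
    (hP : N ≤ P) (hL : P + 2 * w ≤ L) (hw : 1 ≤ w)
    (hη : (w.factorial : ℝ) * (w * 2 ^ w * (4 * lam ^ N * ((1 - lam)⁻¹) ^ 2)) ≤
      (lam * (1 - lam ^ 2) / 4) ^ (w ^ 2) / 2)
    (Ω : (ZMod L → Fin 2) → ℂ)
    (hex : Exch (ga (ZMod.val : ZMod L → ℕ)) (gb (ZMod.val : ZMod L → ℕ)) Ω
        (fun v => WithLp.toLp 2 (Mm (Sh L 1) lam *ᵥ v.ofLp))) :
    ∃ A B : {T : Finset (Fin w) // T.card = k} → Matrix (ZMod L → Fin 2) (ZMod L → Fin 2) ℂ,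
      RowData (intv P w) Ω ((lam * (1 - lam ^ 2) / 4) ^ (w ^ 2) / 2) A B := by
  set θ := lam * (1 - lam ^ 2) / 4 with hθ
  set η := 4 * lam ^ N * ((1 - lam)⁻¹) ^ 2 with hηd
  have hl2 : lam ^ 2 < 1 := by nlinarith
  have hθ0 : 0 < θ := by
    have : 0 < lam * (1 - lam ^ 2) := mul_pos h0 (by linarith)
    rw [hθ]; linarith
  have hθ1 : θ ≤ 1 := by
    rw [hθ]; nlinarith [sq_nonneg lam, mul_pos h0 (sub_pos.2 hl2)]
  have hη0 : 0 ≤ η := by
    have : 0 < (1 - lam)⁻¹ := inv_pos.2 (by linarith)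
    positivity
  have hη1 : η ≤ 1 := by
    have h2 : (1 : ℝ) ≤ w.factorial := by exact_mod_cast Nat.succ_le_of_lt (Nat.factorial_pos w)
    have h3 : (1 : ℝ) ≤ w := by exact_mod_cast hw
    have h4 : (1 : ℝ) ≤ 2 ^ w := one_le_pow₀ (by norm_num)
    have h5 : θ ^ (w ^ 2) ≤ 1 := pow_le_one₀ hθ0.le hθ1
    have h6 : η ≤ (w.factorial : ℝ) * (w * 2 ^ w * η) := by
      calc η = 1 * (1 * 1 * η) := by ring
        _ ≤ (w.factorial : ℝ) * (w * 2 ^ w * η) := by
          apply mul_le_mul h2 _ (by positivity) (by positivity)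
          apply mul_le_mul_of_nonneg_right _ hη0
          exact mul_le_mul h3 h4 (by norm_num) (by positivity)
    linarith
  have hS := Sh_orth (L := L) 1 (by norm_num)
  have hM := (M_facts hS h0.le h1).1
  set M := Mm (Sh L 1) lam with hMd
  set ρ : Fin w → ZMod L := fun i => ((P + w - 1 - i : ℕ) : ZMod L) with hρ
  set ρ' : Fin w → ZMod L := fun i => ((P + w + i : ℕ) : ZMod L) with hρ'
  have hρv : ∀ i, (ρ i).val = P + w - 1 - i := by
    intro i
    rw [hρ]
    simp only []
    rw [ZMod.val_natCast, Nat.mod_eq_of_lt (by have := i.2; omega)]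
  have hρv' : ∀ i, (ρ' i).val = P + w + i := by
    intro i
    rw [hρ']
    simp only []
    rw [ZMod.val_natCast, Nat.mod_eq_of_lt (by have := i.2; omega)]
  have hρi : Function.Injective ρ := by
    intro i j h
    have h2 := congrArg ZMod.val h
    rw [hρv, hρv] at h2
    have := i.2
    have := j.2
    exact Fin.ext (by omega)
  have hρi' : Function.Injective ρ' := by
    intro i j h
    have h2 := congrArg ZMod.val h
    rw [hρv', hρv'] at h2
    exact Fin.ext (by omega)
  set G : Matrix (Fin w) (Fin w) ℝ := fun i i' => M (ρ i) (ρ' i') with hG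
  have hGT : ∀ i i', |G i i' - Tm lam N w i i'| ≤ η := by
    intro i i'
    have hi := i.2
    have hi' := i'.2
    have h2 := entry_approx (L := L) (s := 1) h0.le h1 hS (i + i' + 1) (P + w - 1 - i) N (by omega) (by omega)
    have h3 : P + w - 1 - (i : ℕ) + ((i : ℕ) + i' + 1) = P + w + i' := by omega
    rw [h3] at h2
    exact h2
  have hG1 : ∀ i i', |G i i'| ≤ 1 := by
    intro i i'
    open scoped Matrix.Norms.L2Operator in
    exact (entry_le M (ρ i) (ρ' i')).trans (norm_orth hM)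
  have hT1 : ∀ i i', |Tm lam N w i i'| ≤ 2 := by
    intro i i'
    have h2 := hGT i i'
    have h3 := hG1 i i'
    have h4 : |Tm lam N w i i'| ≤ |G i i'| + |G i i' - Tm lam N w i i'| := by
      have := abs_sub_abs_le_abs_sub (Tm lam N w i i') (G i i')
      rw [abs_sub_comm] at this
      linarith
    linarith
  have hdd := det_diff G (Tm lam N w) 2 η (by norm_num) (fun i j => (hG1 i j).trans (by norm_num)) hT1 hGT
  have hTd := Tm_det h0 h1 (N := N) (w := w) hN
  rw [← hθ] at hTd
  have hGdet : θ ^ (w ^ 2) / 2 ≤ |G.det| := by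
    have h2 := abs_le.1 (hdd.trans hη)
    have h3 : θ ^ (w ^ 2) / 2 ≤ G.det := by linarith [h2.1]
    exact h3.trans (le_abs_self _)
  have hGne : G.det ≠ 0 := by
    intro h
    rw [h, abs_zero] at hGdet
    have : 0 < θ ^ (w ^ 2) := pow_pos hθ0 _
    linarith
  obtain ⟨u, v, s, huu, hvv, huv, hs0, hsp⟩ := svd_block G hGne
  set U : Fin w → EuclideanSpace ℝ (ZMod L) := fun i => emb ρ (u i) with hU
  set V : Fin w → EuclideanSpace ℝ (ZMod L) := fun i => emb ρ' (v i) with hV
  set φ : EuclideanSpace ℝ (ZMod L) → EuclideanSpace ℝ (ZMod L) := fun v => WithLp.toLp 2 (M *ᵥ v.ofLp) with hφ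
  have hUU : ∀ i j, ⟪U i, U j⟫_ℝ = if i = j then 1 else 0 := fun i j => by
    rw [hU]; simp only []; rw [emb_inner hρi, huu]
  have hVV : ∀ i j, ⟪V i, V j⟫_ℝ = if i = j then 1 else 0 := fun i j => by
    rw [hV]; simp only []; rw [emb_inner hρi', hvv]
  have hUV : ∀ i j, ⟪U i, φ (V j)⟫_ℝ = if i = j then s i else 0 := fun i j => by
    rw [← huv]
    exact emb_mat ρ ρ' M (u i) (v j)
  have hs1 : ∀ i, s i ≤ 1 := by
    intro i
    have h2 := hUV i i
    rw [if_pos rfl] at h2
    rw [← h2]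
    refine (real_inner_le_norm _ _).trans ?_
    have h3 : ‖U i‖ = 1 := by
      have := hUU i i
      rw [if_pos rfl, real_inner_self_eq_norm_sq] at this
      nlinarith [norm_nonneg (U i)]
    have h4 : ‖φ (V i)‖ = 1 := by
      have h5 : ⟪φ (V i), φ (V i)⟫_ℝ = 1 := by
        rw [inner_dot]
        show (M *ᵥ (V i).ofLp) ⬝ᵥ (M *ᵥ (V i).ofLp) = 1
        rw [orth_ip hM, ← inner_dot, hVV, if_pos rfl]
      rw [real_inner_self_eq_norm_sq] at h5
      nlinarith [norm_nonneg (φ (V i))]
    rw [h3, h4, one_mul]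
  refine ⟨fun T => wd (ga ZMod.val) (T.1.toList.map U), fun T => wd (gb ZMod.val) (T.1.toList.map V),
    hex.unit, ?_, ?_, ?_, ?_, ?_, ?_⟩
  · intro T
    apply wd_unit (cliff_ga val_inj)
    intro x hx
    rw [List.mem_map] at hx
    obtain ⟨i, -, rfl⟩ := hx
    rw [hUU, if_pos rfl]
  · intro T
    apply wd_unit (cliff_gb val_inj)
    intro x hx
    rw [List.mem_map] at hx
    obtain ⟨i, -, rfl⟩ := hx
    rw [hVV, if_pos rfl]
  · intro T
    apply word_loc (pos := (ZMod.val : ZMod L → ℕ)) (fun _ => 1) (p := intv P w) (q := intv P w) (fun j hj => hj)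
    · intro j hj
      unfold intv at hj
      by_cases hjP : j.val < P
      · left
        intro i hi
        unfold intv at hi
        omega
      · right
        intro i hi
        unfold intv at hi
        omega
    · intro x hx j hj
      rw [List.mem_map] at hx
      obtain ⟨i, -, rfl⟩ := hx
      apply emb_supp
      intro i' hh
      apply hj
      unfold intv
      rw [hh, hρv]
      have := i'.2
      constructor <;> omega
    · rw [List.length_map, Finset.length_toList, T.2]; exact hk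
  · intro T
    apply word_loc (pos := (ZMod.val : ZMod L → ℕ)) (fun a => -Complex.I * z a) (p := intv (P + w) w) (q := fun j => ¬ intv P w j)
    · intro j hj
      unfold intv at hj ⊢
      omega
    · intro j hj
      left
      intro i hi
      unfold intv at hi hj
      omega
    · intro x hx j hj
      rw [List.mem_map] at hx
      obtain ⟨i, -, rfl⟩ := hx
      apply emb_supp
      intro i' hh
      apply hj
      unfold intv
      rw [hh, hρv']
      have := i'.2
      constructor <;> omega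
    · rw [List.length_map, Finset.length_toList, T.2]; exact hk
  · intro T
    have h2 := hex.wick_diag U V s (fun i j hij => by rw [hUU, if_neg hij]) (fun i => by
      rw [hUV, if_pos rfl]) (fun i j hij => by rw [hUV, if_neg hij]) T.1.toList T.1.nodup_toList
    rw [h2, Finset.prod_map_toList]
    have h3 : |∏ i ∈ T.1, s i| = ∏ i ∈ T.1, s i := abs_of_nonneg (Finset.prod_nonneg fun i _ => (hs0 i).le)
    rw [h3]
    refine hGdet.trans ?_
    rw [← hsp, ← Finset.prod_mul_prod_compl T.1]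
    calc (∏ i ∈ T.1, s i) * ∏ i ∈ T.1ᶜ, s i ≤ (∏ i ∈ T.1, s i) * 1 := by
          apply mul_le_mul_of_nonneg_left _ (Finset.prod_nonneg fun i _ => (hs0 i).le)
          exact Finset.prod_le_one (fun i _ => (hs0 i).le) fun i _ => hs1 i
      _ = _ := mul_one _
  · intro T T' hTT
    obtain ⟨i, hi, hi'⟩ : ∃ i, i ∈ T.1 ∧ i ∉ T'.1 := by
      by_contra hall
      push Not at hall
      apply hTT
      apply Subtype.ext
      apply Finset.eq_of_subset_of_card_le hall
      rw [T.2, T'.2]
    apply hex.wick_off U V (fun i j hij => by rw [hUU, if_neg hij]) (fun i j hij => by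
      rw [hUV, if_neg hij]) T.1.toList T'.1.toList T.1.nodup_toList _ i (Finset.mem_toList.2 hi)
      (fun hh => hi' (Finset.mem_toList.1 hh))
    rw [Finset.length_toList, Finset.length_toList, T.2, T'.2]
    exact Even.add_self _

end rowdata

end Pool.Agent.K6.H5.PL
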