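import Pool.Agent.K6.H5.PL.Box
import Pool.Agent.K6.H5.PL.Row

/-! Decoupled rows on the torus: Hamiltonian, ground state and gap. -/

set_option autoImplicit false
set_option linter.unusedSectionVars false

open scoped BigOperators Matrix InnerProductSpace
open Finset Matrix Complex Pool.Agent.TH235.PP

namespace Pool.Agent.K6.H5.PL

section lft

variable {Y J : Type*} [Fintype Y] [DecidableEq Y] [Fintype J] [DecidableEq J]

/-- the operator `X` acting on the row `r` -/
noncomputable def lft (r : Y) (X : Matrix (J → Fin 2) (J → Fin 2) ℂ) :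
    Matrix (Y × J → Fin 2) (Y × J → Fin 2) ℂ := tens (Function.update (fun _ => 1) r X)

lemma lft_ap (r : Y) (X : Matrix (J → Fin 2) (J → Fin 2) ℂ) (s t : Y × J → Fin 2) :
    lft r X s t = X (row s r) (row t r) * ∏ r' ∈ Finset.univ.erase r,
      (1 : Matrix (J → Fin 2) (J → Fin 2) ℂ) (row s r') (row t r') := by
  unfold lft
  rw [tens_ap, ← Finset.mul_prod_erase _ _ (Finset.mem_univ r), Function.update_self]
  congr 1
  refine Finset.prod_congr rfl fun r' hr' => ?_
  rw [Function.update_of_ne (Finset.ne_of_mem_erase hr')]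

lemma lft_add (r : Y) (X X' : Matrix (J → Fin 2) (J → Fin 2) ℂ) :
    lft r (X + X') = lft r X + lft r X' := by
  ext s t
  rw [Matrix.add_apply, lft_ap, lft_ap, lft_ap, Matrix.add_apply]
  ring

lemma lft_smul (r : Y) (c : ℂ) (X : Matrix (J → Fin 2) (J → Fin 2) ℂ) :
    lft r (c • X) = c • lft r X := by
  ext s t
  rw [Matrix.smul_apply, lft_ap, lft_ap, Matrix.smul_apply]
  simp only [smul_eq_mul]
  ring

lemma lft_zero (r : Y) : lft r (0 : Matrix (J → Fin 2) (J → Fin 2) ℂ) = 0 := by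
  have := lft_smul r 0 (0 : Matrix (J → Fin 2) (J → Fin 2) ℂ)
  rwa [zero_smul, zero_smul] at this

lemma lft_neg (r : Y) (X : Matrix (J → Fin 2) (J → Fin 2) ℂ) : lft r (-X) = -lft r X := by
  rw [← neg_one_smul ℂ X, lft_smul, neg_one_smul]

lemma lft_sub (r : Y) (X X' : Matrix (J → Fin 2) (J → Fin 2) ℂ) :
    lft r (X - X') = lft r X - lft r X' := by
  rw [sub_eq_add_neg, lft_add, lft_neg, ← sub_eq_add_neg]

lemma lft_one (r : Y) : lft r (1 : Matrix (J → Fin 2) (J → Fin 2) ℂ) = 1 := by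
  unfold lft
  rw [← tens_one]
  congr 1
  exact Function.update_eq_self r _

lemma lft_sum {ι : Type*} (r : Y) (s : Finset ι) (f : ι → Matrix (J → Fin 2) (J → Fin 2) ℂ) :
    lft r (∑ i ∈ s, f i) = ∑ i ∈ s, lft r (f i) := by
  classical
  induction s using Finset.induction_on with
  | empty => simp [lft_zero]
  | insert a s ha ih => rw [Finset.sum_insert ha, Finset.sum_insert ha, lft_add, ih]

lemma lft_mul (r : Y) (X X' : Matrix (J → Fin 2) (J → Fin 2) ℂ) :
    lft r (X * X') = lft r X * lft r X' := by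
  unfold lft
  rw [tens_mul]
  congr 1
  funext r'
  by_cases h : r' = r
  · subst h; simp
  · simp [h]

lemma lft_conj (r : Y) (X : Matrix (J → Fin 2) (J → Fin 2) ℂ) : (lft r X)ᴴ = lft r Xᴴ := by
  unfold lft
  rw [tens_conj]
  congr 1
  funext r'
  by_cases h : r' = r
  · subst h; simp
  · simp [h]

lemma lft_tv (r : Y) (X : Matrix (J → Fin 2) (J → Fin 2) ℂ) (x : Y → (J → Fin 2) → ℂ) :
    lft r X *ᵥ tv x = tv (Function.update x r (X *ᵥ x r)) := by
  unfold lft
  rw [tens_mulVec]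
  congr 1
  funext r'
  by_cases h : r' = r
  · subst h; simp
  · simp [h]

lemma tv_update_smul (x : Y → (J → Fin 2) → ℂ) (r : Y) (c : ℂ) :
    tv (Function.update x r (c • x r)) = c • tv x := by
  funext s
  rw [Pi.smul_apply, tv_ap, tv_ap, ← Finset.mul_prod_erase _ _ (Finset.mem_univ r),
    ← Finset.mul_prod_erase _ (fun r' => x r' (row s r')) (Finset.mem_univ r), Function.update_self,
    Pi.smul_apply, smul_eq_mul, smul_eq_mul, mul_assoc]
  congr 2
  refine Finset.prod_congr rfl fun r' hr' => ?_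
  rw [Function.update_of_ne (Finset.ne_of_mem_erase hr')]

lemma prod_one_ap (r : Y) (s t : Y × J → Fin 2) :
    (∏ r' ∈ Finset.univ.erase r, (1 : Matrix (J → Fin 2) (J → Fin 2) ℂ) (row s r') (row t r')) =
      if ∀ r', r' ≠ r → row t r' = row s r' then 1 else 0 := by
  split_ifs with h
  · apply Finset.prod_eq_one
    intro r' hr'
    rw [h r' (Finset.ne_of_mem_erase hr'), Matrix.one_apply_eq]
  · push Not at h
    obtain ⟨r', hr', h'⟩ := h
    exact Finset.prod_eq_zero (Finset.mem_erase.2 ⟨hr', Finset.mem_univ _⟩) (Matrix.one_apply_ne (Ne.symm h'))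

lemma lft_Xo (r : Y) (j : J) : lft r (Xo j) = Xo (r, j) := by
  ext s t
  rw [lft_ap, prod_one_ap]
  unfold Xo
  rw [Mon_ap, Mon_ap]
  by_cases h : t = flp (r, j) s
  · rw [if_pos h, if_pos, if_pos, mul_one]
    · intro r' hr'
      rw [h, row_flp, if_neg hr']
    · rw [h, row_flp, if_pos rfl]
  · rw [if_neg h]
    by_cases h1 : row t r = flp j (row s r)
    · rw [if_pos h1, one_mul, if_neg]
      intro hh
      apply h
      apply row_ext
      intro r'
      rw [row_flp]
      split_ifs with hr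
      · rw [hr, h1]
      · exact hh r' hr
    · rw [if_neg h1, zero_mul]

lemma lft_Zo (r : Y) (j : J) : lft r (Zo j) = Zo (r, j) := by
  ext s t
  rw [lft_ap, prod_one_ap]
  unfold Zo
  rw [Mon_ap, Mon_ap]
  by_cases h : t = s
  · rw [if_pos h, if_pos, if_pos, mul_one]
    · rfl
    · intro r' hr'
      rw [h]
    · rw [h]
  · rw [if_neg h]
    by_cases h1 : row t r = row s r
    · rw [if_pos h1, if_neg, mul_zero]
      intro hh
      apply h
      apply row_ext
      intro r'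
      by_cases hr : r' = r
      · rw [hr, h1]
      · exact hh r' hr
    · rw [if_neg h1, zero_mul]

end lft

section form

lemma psd_factor {n : Type*} [Fintype n] [DecidableEq n] {A : Matrix n n ℂ} (hA : A.IsHermitian)
    (h : ∀ x : n → ℂ, 0 ≤ (ip x (A *ᵥ x)).re) : ∃ B : Matrix n n ℂ, A = Bᴴ * B := by
  open scoped MatrixOrder ComplexOrder in
  have hp : A.PosSemidef := by
    apply Matrix.PosSemidef.of_dotProduct_mulVec_nonneg hA
    intro x
    rw [← ip_dot]
    have him : (ip x (A *ᵥ x)).im = 0 := by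
      have h1 : (starRingEnd ℂ) (ip x (A *ᵥ x)) = ip x (A *ᵥ x) := by
        rw [ip_conj, ip_adj A, hA.eq]
      exact Complex.conj_eq_iff_im.1 h1
    rw [Complex.le_def]
    exact ⟨h x, him.symm⟩
  obtain ⟨B, hB⟩ := CStarAlgebra.nonneg_iff_eq_star_mul_self.mp hp.nonneg
  exact ⟨B, hB⟩

variable {Y J : Type*} [Fintype Y] [DecidableEq Y] [Fintype J] [DecidableEq J]

/-- projection onto a vector -/
noncomputable def prj {n : Type*} (Ω : n → ℂ) : Matrix n n ℂ := fun s t => Ω s * (starRingEnd ℂ) (Ω t)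

lemma prj_mulVec {n : Type*} [Fintype n] (Ω ψ : n → ℂ) : prj Ω *ᵥ ψ = ip Ω ψ • Ω := by
  funext s
  rw [mv, Pi.smul_apply, smul_eq_mul]
  unfold prj ip
  rw [Finset.sum_mul]
  exact Finset.sum_congr rfl fun t _ => by ring

lemma prj_herm {n : Type*} [Fintype n] (Ω : n → ℂ) : (prj Ω)ᴴ = prj Ω := by
  ext s t
  rw [Matrix.conjTranspose_apply]
  unfold prj
  simp [mul_comm]

lemma prj_sq {n : Type*} [Fintype n] [DecidableEq n] (Ω : n → ℂ) (h : normSq Ω = 1) :
    prj Ω * prj Ω = prj Ω := by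
  ext s t
  rw [Matrix.mul_apply]
  have h1 := ip_self Ω
  rw [h] at h1
  unfold ip at h1
  calc ∑ u, prj Ω s u * prj Ω u t = Ω s * (∑ u, (starRingEnd ℂ) (Ω u) * Ω u) * (starRingEnd ℂ) (Ω t) := by
        rw [Finset.mul_sum, Finset.sum_mul]
        exact Finset.sum_congr rfl fun u _ => by unfold prj; ring
    _ = prj Ω s t := by rw [h1]; unfold prj; simp

lemma ip_prj {n : Type*} [Fintype n] [DecidableEq n] (Ω ψ : n → ℂ) :
    ip ψ (prj Ω *ᵥ ψ) = ((‖ip Ω ψ‖ ^ 2 : ℝ) : ℂ) := by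
  rw [prj_mulVec, ip_smul_r, ← ip_conj Ω ψ, Complex.mul_conj, Complex.normSq_eq_norm_sq]

lemma nSq_ip {n : Type*} [Fintype n] [DecidableEq n] (B : Matrix n n ℂ) (ψ : n → ℂ) :
    ip ψ ((Bᴴ * B) *ᵥ ψ) = ((normSq (B *ᵥ ψ) : ℝ) : ℂ) := by
  rw [← Matrix.mulVec_mulVec, ip_adj, conjTranspose_conjTranspose, ip_self]

theorem torus_form (h0 : Matrix (J → Fin 2) (J → Fin 2) ℂ) (hh : h0.IsHermitian)
    (Ω : (J → Fin 2) → ℂ) (hΩ : normSq Ω = 1) (E Δ : ℝ) (hΔ : 0 ≤ Δ)
    (hform : ∀ ψ : (J → Fin 2) → ℂ, E * normSq ψ + Δ * (normSq ψ - ‖ip Ω ψ‖ ^ 2) ≤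
      (ip ψ (h0 *ᵥ ψ)).re) (φ : (Y × J → Fin 2) → ℂ) :
    Fintype.card Y * E * normSq φ + Δ * (normSq φ - ‖ip (tv fun _ : Y => Ω) φ‖ ^ 2) ≤
      (ip φ ((∑ r : Y, lft r h0) *ᵥ φ)).re := by
  set P := prj Ω with hP
  obtain ⟨B, hB⟩ : ∃ B, h0 - (E : ℂ) • (1 : Matrix (J → Fin 2) (J → Fin 2) ℂ) - (Δ : ℂ) • (1 - P) = Bᴴ * B := by
    apply psd_factor
    · unfold Matrix.IsHermitian
      rw [conjTranspose_sub, conjTranspose_sub, conjTranspose_smul, conjTranspose_smul, conjTranspose_sub,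
        conjTranspose_one, hh.eq, hP, prj_herm]
      simp
    · intro x
      rw [Matrix.sub_mulVec, Matrix.sub_mulVec, Matrix.smul_mulVec, Matrix.smul_mulVec, Matrix.sub_mulVec,
        Matrix.one_mulVec, ip_sub_r, ip_sub_r, ip_smul_r, ip_smul_r, ip_sub_r, ip_self, hP, ip_prj]
      have := hform x
      simp only [Complex.sub_re, Complex.mul_re, Complex.ofReal_re, Complex.ofReal_im, Complex.sub_im]
      linarith
  have hrow : ∀ r : Y, E * normSq φ + Δ * (normSq φ - (ip φ (lft r P *ᵥ φ)).re) ≤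
      (ip φ (lft r h0 *ᵥ φ)).re := by
    intro r
    have h1 : lft r h0 = (lft r B)ᴴ * lft r B + (E : ℂ) • (1 : Matrix (Y × J → Fin 2) (Y × J → Fin 2) ℂ) +
        (Δ : ℂ) • (1 - lft r P) := by
      rw [lft_conj, ← lft_mul, ← hB, lft_sub, lft_sub, lft_smul, lft_smul, lft_sub, lft_one]
      abel
    have h2 : (ip φ (lft r h0 *ᵥ φ)).re = normSq (lft r B *ᵥ φ) + E * normSq φ +
        Δ * (normSq φ - (ip φ (lft r P *ᵥ φ)).re) := by
      rw [h1, Matrix.add_mulVec, Matrix.add_mulVec, ip_add_r, ip_add_r, nSq_ip, Matrix.smul_mulVec,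
        Matrix.smul_mulVec, Matrix.one_mulVec, Matrix.sub_mulVec, Matrix.one_mulVec, ip_smul_r, ip_smul_r,
        ip_sub_r, ip_self]
      simp
    rw [h2]
    linarith [nSq_nonneg (lft r B *ᵥ φ)]
  -- union bound for the projections
  set Q : Finset Y → Matrix (Y × J → Fin 2) (Y × J → Fin 2) ℂ := fun T =>
    tens fun r => if r ∈ T then P else 1 with hQ
  have hQh : ∀ T, (Q T)ᴴ = Q T := by
    intro T
    rw [hQ]
    simp only []
    rw [tens_conj]
    congr 1
    funext r
    split_ifs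
    · rw [hP, prj_herm]
    · rw [conjTranspose_one]
  have hQins : ∀ (T : Finset Y) (a : Y), a ∉ T → Q (insert a T) = Q T * lft a P ∧
      lft a P * Q T = Q T * lft a P := by
    intro T a ha
    constructor
    · rw [hQ]
      simp only []
      unfold lft
      rw [tens_mul]
      congr 1
      funext r
      by_cases hr : r = a
      · subst hr
        simp [ha]
      · simp [hr]
    · rw [hQ]
      simp only []
      unfold lft
      rw [tens_mul, tens_mul]
      congr 1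
      funext r
      by_cases hr : r = a
      · subst hr
        simp [ha]
      · simp [hr]
  have hlP : ∀ a : Y, lft a P * lft a P = lft a P := by
    intro a
    rw [← lft_mul, hP, prj_sq Ω hΩ]
  have hQQ : ∀ T, Q T * Q T = Q T := by
    intro T
    rw [hQ]
    simp only []
    rw [tens_mul]
    congr 1
    funext r
    split_ifs
    · rw [hP, prj_sq Ω hΩ]
    · rw [Matrix.one_mul]
  have hunion : ∀ T : Finset Y, normSq φ - (ip φ (Q T *ᵥ φ)).re ≤
      ∑ a ∈ T, (normSq φ - (ip φ (lft a P *ᵥ φ)).re) := by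
    intro T
    induction T using Finset.induction_on with
    | empty =>
      have : Q ∅ = 1 := by
        rw [hQ]
        simp only [Finset.notMem_empty, if_false]
        exact tens_one
      rw [this, Matrix.one_mulVec, ip_self]
      simp
    | insert a T ha ih =>
      rw [Finset.sum_insert ha]
      obtain ⟨h1, h2⟩ := hQins T a ha
      set N := (1 : Matrix (Y × J → Fin 2) (Y × J → Fin 2) ℂ) - lft a P with hN
      have hNh : Nᴴ = N := by rw [hN, conjTranspose_sub, conjTranspose_one, lft_conj, hP, prj_herm]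
      have hNN : N * N = N := by
        rw [hN, Matrix.sub_mul, Matrix.mul_sub, Matrix.mul_sub, hlP]
        simp
      have hNQ : N * Q T = Q T * N := by
        rw [hN, Matrix.sub_mul, Matrix.mul_sub, h2, Matrix.one_mul, Matrix.mul_one]
      -- ip φ (Q_T N φ) = normSq (Q_T N φ) ≤ normSq (N φ)
      have h3 : Q T * N = (Q T * N)ᴴ * (Q T * N) := by
        rw [conjTranspose_mul, hNh, hQh, Matrix.mul_assoc, ← Matrix.mul_assoc (Q T), hQQ,
          ← Matrix.mul_assoc, hNQ, Matrix.mul_assoc, hNN]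
      have h4 : ip φ ((Q T * N) *ᵥ φ) = ((normSq ((Q T * N) *ᵥ φ) : ℝ) : ℂ) := by
        conv_lhs => rw [h3]
        exact nSq_ip _ _
      have h5 : ip φ (N *ᵥ φ) = ((normSq (N *ᵥ φ) : ℝ) : ℂ) := by
        conv_lhs => rw [show N = Nᴴ * N by rw [hNh, hNN]]
        exact nSq_ip _ _
      have h6 : normSq ((Q T * N) *ᵥ φ) ≤ normSq (N *ᵥ φ) := by
        have e1 : (Q T * N) *ᵥ φ = Q T *ᵥ (N *ᵥ φ) := by rw [Matrix.mulVec_mulVec]
        rw [e1]
        set x := N *ᵥ φ
        have e2 : ip x (Q T *ᵥ x) = ((normSq (Q T *ᵥ x) : ℝ) : ℂ) := by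
          conv_lhs => rw [show Q T = (Q T)ᴴ * Q T by rw [hQh, hQQ]]
          exact nSq_ip _ _
        have e3 := ip_cs x (Q T *ᵥ x)
        rw [e2, Complex.norm_real, Real.norm_eq_abs, abs_of_nonneg (nSq_nonneg _)] at e3
        have e4 : normSq (Q T *ᵥ x) ^ 2 ≤ normSq x * normSq (Q T *ᵥ x) := by
          calc normSq (Q T *ᵥ x) ^ 2 ≤ (Real.sqrt (normSq x) * Real.sqrt (normSq (Q T *ᵥ x))) ^ 2 :=
                pow_le_pow_left₀ (nSq_nonneg _) e3 2
            _ = _ := by rw [mul_pow, Real.sq_sqrt (nSq_nonneg _), Real.sq_sqrt (nSq_nonneg _)]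
        rcases (nSq_nonneg (Q T *ᵥ x)).lt_or_eq with h7 | h7
        · rw [pow_two] at e4
          exact le_of_mul_le_mul_right e4 h7
        · rw [← h7]; exact nSq_nonneg _
      have h7 : (ip φ (Q (insert a T) *ᵥ φ)).re = (ip φ (Q T *ᵥ φ)).re - normSq ((Q T * N) *ᵥ φ) := by
        have : Q (insert a T) = Q T - Q T * N := by
          rw [h1, hN, Matrix.mul_sub, Matrix.mul_one]; abel
        rw [this, Matrix.sub_mulVec, ip_sub_r, h4, Complex.sub_re, Complex.ofReal_re]
      have h8 : normSq φ - (ip φ (lft a P *ᵥ φ)).re = normSq (N *ᵥ φ) := by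
        have : (ip φ (N *ᵥ φ)).re = normSq φ - (ip φ (lft a P *ᵥ φ)).re := by
          rw [hN, Matrix.sub_mulVec, Matrix.one_mulVec, ip_sub_r, ip_self, Complex.sub_re, Complex.ofReal_re]
        rw [← this, h5, Complex.ofReal_re]
      rw [h7, h8]
      linarith
  have hQuniv : (ip φ (Q Finset.univ *ᵥ φ)).re = ‖ip (tv fun _ : Y => Ω) φ‖ ^ 2 := by
    have : Q Finset.univ = prj (tv fun _ : Y => Ω) := by
      rw [hQ]
      simp only [Finset.mem_univ, if_true]
      ext s t
      rw [tens_ap, hP]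
      unfold prj
      rw [tv_ap, tv_ap, map_prod, ← Finset.prod_mul_distrib]
    rw [this, ip_prj, Complex.ofReal_re]
  have hfin := hunion Finset.univ
  rw [hQuniv] at hfin
  rw [Matrix.sum_mulVec, ip_sum_r, Complex.re_sum]
  calc Fintype.card Y * E * normSq φ + Δ * (normSq φ - ‖ip (tv fun _ : Y => Ω) φ‖ ^ 2)
      ≤ Fintype.card Y * E * normSq φ + Δ * ∑ a : Y, (normSq φ - (ip φ (lft a P *ᵥ φ)).re) := by
        have := mul_le_mul_of_nonneg_left hfin hΔ
        linarith
    _ = ∑ r : Y, (E * normSq φ + Δ * (normSq φ - (ip φ (lft r P *ᵥ φ)).re)) := by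
        rw [Finset.sum_add_distrib, Finset.sum_const, Finset.card_univ, nsmul_eq_mul, ← Finset.mul_sum]
        ring
    _ ≤ _ := Finset.sum_le_sum fun r _ => hrow r

theorem gapped_of_form {n : Type*} [Fintype n] [DecidableEq n] (H : Matrix n n ℂ)
    (hH : H.IsHermitian) (Ψ : n → ℂ) (hΨ : normSq Ψ = 1) (E Δ : ℝ) (hΔ : 0 < Δ)
    (hE : H *ᵥ Ψ = (E : ℂ) • Ψ)
    (hform : ∀ φ : n → ℂ, E * normSq φ + Δ * (normSq φ - ‖ip Ψ φ‖ ^ 2) ≤ (ip φ (H *ᵥ φ)).re) :
    IsGappedGround H Δ Ψ := by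
  refine ⟨E, hE, ?_, ?_⟩
  · intro φ hφ
    have h1 := hform φ
    rw [hφ, ip_smul_r, ip_self] at h1
    have h2 : ((E : ℂ) * (normSq φ : ℂ)).re = E * normSq φ := by
      rw [← Complex.ofReal_mul, Complex.ofReal_re]
    rw [h2] at h1
    have h3 : normSq φ - ‖ip Ψ φ‖ ^ 2 ≤ 0 := by
      by_contra hh
      push Not at hh
      nlinarith [mul_pos hΔ hh]
    refine ⟨ip Ψ φ, ?_⟩
    have h4 : normSq (φ - ip Ψ φ • Ψ) = normSq φ - ‖ip Ψ φ‖ ^ 2 := by
      have e1 := ip_self (φ - ip Ψ φ • Ψ)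
      rw [ip_sub_l, ip_sub_r, ip_sub_r, ip_self, ip_smul_r, ip_smul_l, ip_smul_l, ip_smul_r, ip_self, hΨ] at e1
      have e2 : ip Ψ φ * ip φ Ψ = ((‖ip Ψ φ‖ ^ 2 : ℝ) : ℂ) := by
        rw [← ip_conj Ψ φ, Complex.mul_conj, Complex.normSq_eq_norm_sq]
      have e3 : (starRingEnd ℂ) (ip Ψ φ) * ip Ψ φ = ((‖ip Ψ φ‖ ^ 2 : ℝ) : ℂ) := by
        rw [mul_comm, Complex.mul_conj, Complex.normSq_eq_norm_sq]
      have e4 : ((normSq (φ - ip Ψ φ • Ψ) : ℝ) : ℂ) = ((normSq φ - ‖ip Ψ φ‖ ^ 2 : ℝ) : ℂ) := by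
        rw [← e1]
        push_cast at e2 e3 ⊢
        linear_combination -e2
      exact_mod_cast e4
    have h5 : normSq (φ - ip Ψ φ • Ψ) = 0 := le_antisymm (h4 ▸ h3) (nSq_nonneg _)
    have h6 : φ - ip Ψ φ • Ψ = 0 := by
      funext s
      unfold Pool.Agent.TH235.PP.normSq at h5
      rw [Finset.sum_eq_zero_iff_of_nonneg (fun _ _ => by positivity)] at h5
      have := h5 s (Finset.mem_univ s)
      rw [pow_eq_zero_iff (by norm_num), norm_eq_zero] at this
      exact this
    exact sub_eq_zero.1 h6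
  · intro E' φ hφ0 hφ
    by_cases hEE : E' = E
    · exact Or.inl hEE
    right
    have h1 : ip Ψ φ = 0 := by
      have e1 : ip Ψ (H *ᵥ φ) = ip (H *ᵥ Ψ) φ := by rw [ip_adj, hH.eq]
      rw [hφ, hE, ip_smul_r, ip_smul_l, Complex.conj_ofReal] at e1
      have e2 : ((E' - E : ℝ) : ℂ) * ip Ψ φ = 0 := by push_cast; linear_combination e1
      rcases mul_eq_zero.1 e2 with h | h
      · exfalso
        apply hEE
        have : E' - E = 0 := by exact_mod_cast h
        linarith
      · exact h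
    have h2 := hform φ
    rw [hφ, ip_smul_r, ip_self, h1, norm_zero] at h2
    have h3 : ((E' : ℂ) * (normSq φ : ℂ)).re = E' * normSq φ := by
      rw [← Complex.ofReal_mul, Complex.ofReal_re]
    rw [h3] at h2
    have h4 : 0 < normSq φ := by
      rcases (nSq_nonneg φ).lt_or_eq with h | h
      · exact h
      · exfalso
        apply hφ0
        funext s
        have h5 := h.symm
        unfold Pool.Agent.TH235.PP.normSq at h5
        rw [Finset.sum_eq_zero_iff_of_nonneg (fun _ _ => by positivity)] at h5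
        have := h5 s (Finset.mem_univ s)
        rw [pow_eq_zero_iff (by norm_num), norm_eq_zero] at this
        exact this
    have h5 : (E + Δ) * normSq φ ≤ E' * normSq φ := by nlinarith
    exact le_of_mul_le_mul_right h5 h4

end form

end Pool.Agent.K6.H5.PL
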