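import Pool.Agent.K6.H5.PL.JW

/-! Diagonalisation of quadratic forms in the Majorana operators. -/

set_option autoImplicit false
set_option linter.unusedSectionVars false

open scoped BigOperators Matrix InnerProductSpace
open Finset Matrix Complex

namespace Pool.Agent.K6.H5.PL

variable {J : Type*} [Fintype J] [DecidableEq J]

lemma anti_swap {n : Type*} [Fintype n] {A B : Matrix n n ℂ} (h : A * B = -(B * A)) :
    B * A = -(A * B) := by rw [h, neg_neg]

/-- joint rotation of both kinds of Majorana operators -/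
theorem rot2 {pos : J → ℕ} (hpos : Function.Injective pos)
    (O1 O2 : EuclideanSpace ℝ J ≃ₗᵢ[ℝ] EuclideanSpace ℝ J) :
    ∃ (U : Matrix (J → Fin 2) (J → Fin 2) ℂ) (s : ℝ), Uᴴ * U = 1 ∧ U * Uᴴ = 1 ∧
      s = LinearMap.det O1.toLinearEquiv.toLinearMap * LinearMap.det O2.toLinearEquiv.toLinearMap ∧
      s * s = 1 ∧
      (∀ v, U * cl (ga pos) v = (s : ℂ) • (cl (ga pos) (O1 v) * U)) ∧
      (∀ v, U * cl (gb pos) v = (s : ℂ) • (cl (gb pos) (O2 v) * U)) ∧
      U * Par J = (s : ℂ) • (Par J * U) := by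
  obtain ⟨U1, s1, a1, a2, a3, a4, a5, a6⟩ := rot (cliff_ga hpos) O1
  obtain ⟨U2, s2, b1, b2, b3, b4, b5, b6⟩ := rot (cliff_gb hpos) O2
  have hab : ∀ v, U2 * cl (ga pos) v = (s2 : ℂ) • (cl (ga pos) v * U2) := by
    intro v
    apply b6
    intro k
    apply anti_swap
    exact cl_anti_of (fun j => gb_ga hpos k j) v
  have hba : ∀ v, U1 * cl (gb pos) v = (s1 : ℂ) • (cl (gb pos) v * U1) := by
    intro v
    apply a6
    intro k
    apply anti_swap
    exact cl_anti_of (fun j => ga_gb hpos k j) v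
  refine ⟨U1 * U2, s1 * s2, ?_, ?_, by rw [a3, b3], by linear_combination s2 * s2 * a4 + b4, ?_, ?_, ?_⟩
  · rw [conjTranspose_mul, Matrix.mul_assoc, ← Matrix.mul_assoc U1ᴴ, a1, Matrix.one_mul, b1]
  · rw [conjTranspose_mul, Matrix.mul_assoc, ← Matrix.mul_assoc U2, b2, Matrix.one_mul, a2]
  · intro v
    rw [Matrix.mul_assoc, hab, mul_smul_comm, ← Matrix.mul_assoc, a5, smul_mul_assoc, smul_smul,
      Matrix.mul_assoc]
    congr 1
    push_cast; ring
  · intro v
    rw [Matrix.mul_assoc, b5, mul_smul_comm, ← Matrix.mul_assoc, hba, smul_mul_assoc, smul_smul,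
      Matrix.mul_assoc]
    congr 1
    push_cast; ring
  · rw [Matrix.mul_assoc, b6 _ (fun k => Par_G pos k _), mul_smul_comm, ← Matrix.mul_assoc,
      a6 _ (fun k => Par_G pos k _), smul_mul_assoc, smul_smul, Matrix.mul_assoc]
    congr 1
    push_cast; ring

/-- quadratic form in the Majorana operators -/
noncomputable def Qf (pos : J → ℕ) (A : Matrix J J ℝ) : Matrix (J → Fin 2) (J → Fin 2) ℂ :=
  (-I) • ∑ j, ∑ k, ((A j k : ℝ) : ℂ) • (ga pos j * gb pos k)

lemma Qf_svd {pos : J → ℕ} (A : Matrix J J ℝ) (u v : J → EuclideanSpace ℝ J) (ε : J → ℝ)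
    (hA : ∀ j k, A j k = ∑ m, ε m * (u m j * v m k)) :
    Qf pos A = ∑ m, ((ε m : ℝ) : ℂ) • ((-I) • (cl (ga pos) (u m) * cl (gb pos) (v m))) := by
  unfold Qf
  have h : ∀ m, cl (ga pos) (u m) * cl (gb pos) (v m) =
      ∑ j, ∑ k, (((u m j * v m k : ℝ)) : ℂ) • (ga pos j * gb pos k) := by
    intro m
    unfold cl
    rw [Finset.sum_mul_sum]
    refine Finset.sum_congr rfl fun j _ => Finset.sum_congr rfl fun k _ => ?_
    rw [smul_mul_smul_comm]
    congr 1
    push_cast; rfl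
  calc (-I) • ∑ j, ∑ k, ((A j k : ℝ) : ℂ) • (ga pos j * gb pos k)
      = (-I) • ∑ j, ∑ k, ∑ m, ((ε m : ℝ) : ℂ) • ((((u m j * v m k : ℝ)) : ℂ) • (ga pos j * gb pos k)) := by
        congr 1
        refine Finset.sum_congr rfl fun j _ => Finset.sum_congr rfl fun k _ => ?_
        rw [hA j k]
        push_cast
        rw [Finset.sum_smul]
        refine Finset.sum_congr rfl fun m _ => ?_
        rw [smul_smul]
    _ = (-I) • ∑ m, ((ε m : ℝ) : ℂ) • (cl (ga pos) (u m) * cl (gb pos) (v m)) := by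
        congr 1
        have e1 : ∀ j : J, (∑ k, ∑ m, ((ε m : ℝ) : ℂ) • ((((u m j * v m k : ℝ)) : ℂ) • (ga pos j * gb pos k))) =
            ∑ m, ∑ k, ((ε m : ℝ) : ℂ) • ((((u m j * v m k : ℝ)) : ℂ) • (ga pos j * gb pos k)) :=
          fun j => Finset.sum_comm
        rw [Finset.sum_congr rfl fun j _ => e1 j, Finset.sum_comm]
        refine Finset.sum_congr rfl fun m _ => ?_
        rw [h m, Finset.smul_sum]
        refine Finset.sum_congr rfl fun j _ => ?_
        rw [Finset.smul_sum]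
    _ = _ := by
        rw [Finset.smul_sum]
        refine Finset.sum_congr rfl fun m _ => ?_
        rw [smul_comm]

/-- the vector with all spins up -/
def vac0 (J : Type*) [DecidableEq J] [Fintype J] : (J → Fin 2) → ℂ := Pi.single 0 1

lemma gb_vac0 (pos : J → ℕ) (j : J) : gb pos j *ᵥ vac0 J = I • (ga pos j *ᵥ vac0 J) := by
  funext σ
  rw [Pi.smul_apply]
  unfold gb ga G vac0
  rw [Mon_mulVec, Mon_mulVec]
  by_cases h : flp j σ = 0
  · have h1 : σ j = 1 := by
      have h2 := congrFun h j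
      rw [flp_same, Pi.zero_apply] at h2
      generalize σ j = a at h2
      fin_cases a
      · simp at h2
      · rfl
    rw [h, h1]
    simp [z]
    ring
  · rw [Pi.single_eq_of_ne h]
    simp

lemma cl_gb_vac0 (pos : J → ℕ) (v : EuclideanSpace ℝ J) :
    cl (gb pos) v *ᵥ vac0 J = I • (cl (ga pos) v *ᵥ vac0 J) := by
  unfold cl
  rw [Matrix.sum_mulVec, Matrix.sum_mulVec, Finset.smul_sum]
  refine Finset.sum_congr rfl fun j _ => ?_
  rw [Matrix.smul_mulVec, Matrix.smul_mulVec, gb_vac0, smul_comm]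

lemma Par_vac0 : Par J *ᵥ vac0 J = vac0 J := by
  funext σ
  unfold Par vac0
  rw [Mon_mulVec]
  by_cases h : σ = 0
  · subst h; simp [z]
  · rw [Pi.single_eq_of_ne h, mul_zero]

/-- the vacuum and the spectrum of a quadratic form -/
theorem vac_exists {pos : J → ℕ} (hpos : Function.Injective pos) (A : Matrix J J ℝ)
    (O1 O2 : EuclideanSpace ℝ J ≃ₗᵢ[ℝ] EuclideanSpace ℝ J) (ε : J → ℝ)
    (hA : ∀ j k, A j k = ∑ m, ε m * (O1 (EuclideanSpace.single m 1) j * O2 (EuclideanSpace.single m 1) k))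
    (hdet : LinearMap.det O1.toLinearEquiv.toLinearMap * LinearMap.det O2.toLinearEquiv.toLinearMap = 1) :
    ∃ U : Matrix (J → Fin 2) (J → Fin 2) ℂ, Uᴴ * U = 1 ∧ U * Uᴴ = 1 ∧
      Qf pos A * U = U * Mon (fun σ => ∑ m, ((ε m : ℝ) : ℂ) * z (σ m)) (fun σ => σ) ∧
      U * Par J = Par J * U ∧
      ∀ v, cl (gb pos) (O2 v) *ᵥ (U *ᵥ vac0 J) = I • (cl (ga pos) (O1 v) *ᵥ (U *ᵥ vac0 J)) := by
  obtain ⟨U, s, h1, h2, h3, h4, h5, h6, h7⟩ := rot2 hpos O1 O2
  rw [hdet] at h3
  subst h3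
  simp only [Complex.ofReal_one, one_smul] at h5 h6 h7
  refine ⟨U, h1, h2, ?_, h7, ?_⟩
  · rw [Qf_svd A _ _ ε hA, Finset.sum_mul]
    have hz : Mon (fun σ : J → Fin 2 => ∑ m, ((ε m : ℝ) : ℂ) * z (σ m)) (fun σ => σ) =
        ∑ m, ((ε m : ℝ) : ℂ) • Zo m := by
      ext σ τ
      rw [Matrix.sum_apply]
      have e : ∀ m, (((ε m : ℝ) : ℂ) • Zo m) σ τ = if τ = σ then ((ε m : ℝ) : ℂ) * z (σ m) else 0 := by
        intro m
        unfold Zo
        rw [Mon_smul]
        rfl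
      rw [Finset.sum_congr rfl fun m _ => e m]
      unfold Mon
      by_cases h : τ = σ
      · simp [h]
      · simp [h]
    rw [hz, Finset.mul_sum]
    refine Finset.sum_congr rfl fun m _ => ?_
    rw [mul_smul_comm, smul_mul_assoc, Zo_eq (pos := pos), mul_smul_comm, smul_mul_assoc]
    congr 2
    rw [Matrix.mul_assoc, ← h6, ← Matrix.mul_assoc, ← h5, Matrix.mul_assoc, cl_single, cl_single]
  · intro v
    rw [Matrix.mulVec_mulVec, Matrix.mulVec_mulVec, ← h6, ← h5, ← Matrix.mulVec_mulVec,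
      ← Matrix.mulVec_mulVec, cl_gb_vac0, Matrix.mulVec_smul]

end Pool.Agent.K6.H5.PL
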