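import Pool.Agent.K6.H5.PL.Form

/-! Expectation values of products of Majorana operators in the ground state. -/

set_option autoImplicit false
set_option linter.unusedSectionVars false

open scoped BigOperators Matrix InnerProductSpace
open Finset Matrix Complex Pool.Agent.TH235.PP

namespace Pool.Agent.K6.H5.PL

variable {n K : Type*} [Fintype n] [DecidableEq n] [Fintype K] [DecidableEq K]

/-- the product of the Clifford elements of a list of vectors -/
noncomputable def wd (e : K → Matrix n n ℂ) (l : List (EuclideanSpace ℝ K)) : Matrix n n ℂ :=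
  (l.map (cl e)).prod

lemma wd_nil (e : K → Matrix n n ℂ) : wd e [] = 1 := rfl

lemma wd_cons (e : K → Matrix n n ℂ) (x : EuclideanSpace ℝ K) (l : List (EuclideanSpace ℝ K)) :
    wd e (x :: l) = cl e x * wd e l := by
  unfold wd; rw [List.map_cons, List.prod_cons]

lemma wd_append (e : K → Matrix n n ℂ) (l l' : List (EuclideanSpace ℝ K)) :
    wd e (l ++ l') = wd e l * wd e l' := by
  unfold wd; rw [List.map_append, List.prod_append]

lemma wd_single (e : K → Matrix n n ℂ) (x : EuclideanSpace ℝ K) : wd e [x] = cl e x := by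
  rw [wd_cons, wd_nil, Matrix.mul_one]

lemma wd_anti {e : K → Matrix n n ℂ} {N : Matrix n n ℂ} (l : List (EuclideanSpace ℝ K))
    (hN : ∀ x ∈ l, N * cl e x = -(cl e x * N)) :
    N * wd e l = (-1 : ℂ) ^ l.length • (wd e l * N) := by
  induction l with
  | nil => rw [wd_nil]; simp
  | cons x l ih =>
    rw [wd_cons, ← Matrix.mul_assoc, hN x (by simp), Matrix.neg_mul, Matrix.mul_assoc,
      ih (fun y hy => hN y (by simp [hy])), List.length_cons, mul_smul_comm, ← Matrix.mul_assoc,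
      ← neg_smul]
    congr 1
    ring

/-- expectation value -/
noncomputable def om (Ω : n → ℂ) (y : Matrix n n ℂ) : ℂ := ip Ω (y *ᵥ Ω)

lemma om_add (Ω : n → ℂ) (x y : Matrix n n ℂ) : om Ω (x + y) = om Ω x + om Ω y := by
  unfold om; rw [Matrix.add_mulVec, ip_add_r]

lemma om_smul (Ω : n → ℂ) (c : ℂ) (y : Matrix n n ℂ) : om Ω (c • y) = c * om Ω y := by
  unfold om; rw [Matrix.smul_mulVec, ip_smul_r]

lemma om_neg (Ω : n → ℂ) (y : Matrix n n ℂ) : om Ω (-y) = -om Ω y := by
  rw [← neg_one_smul ℂ y, om_smul]; ring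

/-- The data: two anticommuting Clifford systems and a vector exchanging them. -/
structure Exch (e e' : K → Matrix n n ℂ) (Ω : n → ℂ)
    (φ : EuclideanSpace ℝ K → EuclideanSpace ℝ K) : Prop where
  c1 : Cliff e
  c2 : Cliff e'
  anti : ∀ k l, e' k * e l = -(e l * e' k)
  ex : ∀ v, cl e' v *ᵥ Ω = I • (cl e (φ v) *ᵥ Ω)
  surj : Function.Surjective φ
  unit : normSq Ω = 1

section
variable {e e' : K → Matrix n n ℂ} {Ω : n → ℂ} {φ : EuclideanSpace ℝ K → EuclideanSpace ℝ K}

lemma Exch.anti_cl (h : Exch e e' Ω φ) (v x : EuclideanSpace ℝ K) :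
    cl e' v * cl e x = -(cl e x * cl e' v) := by
  apply cl_anti_of
  intro k
  have : e k * cl e' v = -(cl e' v * e k) := by
    apply cl_anti_of
    intro l
    rw [h.anti, neg_neg]
  rw [this, neg_neg]

lemma Exch.one (h : Exch e e' Ω φ) : om Ω 1 = 1 := by
  unfold om
  rw [Matrix.one_mulVec, ip_self, h.unit]; simp

/-- cyclicity -/
lemma Exch.cyc (h : Exch e e' Ω φ) (x : EuclideanSpace ℝ K) (l : List (EuclideanSpace ℝ K))
    (hl : Odd l.length) : om Ω (cl e x * wd e l) = om Ω (wd e l * cl e x) := by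
  obtain ⟨v, rfl⟩ := h.surj x
  have h1 : cl e' v * wd e l = -(wd e l * cl e' v) := by
    rw [wd_anti l (fun y _ => h.anti_cl v y), hl.neg_one_pow, neg_one_smul]
  -- right action
  have h2 : om Ω (wd e l * cl e' v) = I * om Ω (wd e l * cl e (φ v)) := by
    unfold om
    rw [← Matrix.mulVec_mulVec, h.ex, Matrix.mulVec_smul, ip_smul_r, Matrix.mulVec_mulVec]
  have h3 : om Ω (cl e' v * wd e l) = -I * om Ω (cl e (φ v) * wd e l) := by
    unfold om
    rw [← Matrix.mulVec_mulVec, ip_adj, cl_herm h.c2, h.ex, ip_smul_l, ← Matrix.mulVec_mulVec,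
      ip_adj (cl e (φ v)), cl_herm h.c1]
    simp
  have h4 : om Ω (cl e' v * wd e l) = -om Ω (wd e l * cl e' v) := by rw [h1, om_neg]
  rw [h2, h3] at h4
  have h5 : I * (om Ω (cl e (φ v) * wd e l) - om Ω (wd e l * cl e (φ v))) = 0 := by
    linear_combination -h4
  rcases mul_eq_zero.1 h5 with h6 | h6
  · exact absurd h6 I_ne_zero
  · exact sub_eq_zero.1 h6

lemma Exch.orth_comm (h : Exch e e' Ω φ) (x : EuclideanSpace ℝ K) (l : List (EuclideanSpace ℝ K))
    (hx : ∀ y ∈ l, ⟪x, y⟫_ℝ = 0) : cl e x * wd e l = (-1 : ℂ) ^ l.length • (wd e l * cl e x) := by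
  apply wd_anti
  intro y hy
  have := cl_anti h.c1 x y
  rw [hx y hy] at this
  simp only [mul_zero, Complex.ofReal_zero, zero_smul] at this
  exact eq_neg_of_add_eq_zero_left this

lemma Exch.zero (h : Exch e e' Ω φ) (x : EuclideanSpace ℝ K) (l l' : List (EuclideanSpace ℝ K))
    (hx : ∀ y ∈ l ++ l', ⟪x, y⟫_ℝ = 0) (hl : Odd (l ++ l').length) :
    om Ω (wd e (l ++ x :: l')) = 0 := by
  have h1 : wd e (l ++ x :: l') = (-1 : ℂ) ^ l.length • (cl e x * wd e (l ++ l')) := by
    rw [wd_append, wd_append, wd_cons, ← Matrix.mul_assoc, ← Matrix.mul_assoc,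
      h.orth_comm x l (fun y hy => hx y (by simp [hy])), smul_mul_assoc, smul_smul, ← pow_add,
      ← two_mul, pow_mul]
    simp
  have h2 := h.cyc x (l ++ l') hl
  have h3 := h.orth_comm x (l ++ l') hx
  rw [hl.neg_one_pow, neg_one_smul] at h3
  have h4 : om Ω (cl e x * wd e (l ++ l')) = -om Ω (wd e (l ++ l') * cl e x) := by
    rw [h3, om_neg]
  rw [← h2] at h4
  have h5 : om Ω (cl e x * wd e (l ++ l')) = 0 := by
    have : (2 : ℂ) * om Ω (cl e x * wd e (l ++ l')) = 0 := by linear_combination h4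
    simpa using this
  rw [h1, om_smul, h5, mul_zero]

lemma Exch.red (h : Exch e e' Ω φ) (x y : EuclideanSpace ℝ K) (l : List (EuclideanSpace ℝ K))
    (hx : ∀ y ∈ l, ⟪x, y⟫_ℝ = 0) (hl : Even l.length) :
    om Ω (wd e (x :: (l ++ [y]))) = ((⟪x, y⟫_ℝ : ℝ) : ℂ) * om Ω (wd e l) := by
  have hodd : Odd (l ++ [y]).length := by
    rw [List.length_append, List.length_singleton]; exact hl.add_one
  have h1 := h.cyc x (l ++ [y]) hodd
  rw [wd_cons]
  have h2 : wd e (l ++ [y]) * cl e x = ((2 * ⟪x, y⟫_ℝ : ℝ) : ℂ) • wd e l - cl e x * wd e (l ++ [y]) := by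
    rw [wd_append, wd_single, Matrix.mul_assoc]
    have h3 := cl_anti h.c1 x y
    have h4 : cl e y * cl e x = ((2 * ⟪x, y⟫_ℝ : ℝ) : ℂ) • (1 : Matrix n n ℂ) - cl e x * cl e y := by
      rw [← h3]; abel
    have h5 := h.orth_comm x l hx
    rw [hl.neg_one_pow, one_smul] at h5
    rw [h4, Matrix.mul_sub, mul_smul_comm, Matrix.mul_one, ← Matrix.mul_assoc, ← Matrix.mul_assoc, h5]
  rw [h2, sub_eq_add_neg, om_add, om_smul, om_neg] at h1
  have h6 : (2 : ℂ) * om Ω (cl e x * wd e (l ++ [y])) = (2 : ℂ) * (((⟪x, y⟫_ℝ : ℝ) : ℂ) * om Ω (wd e l)) := by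
    push_cast at h1
    linear_combination h1
  exact mul_left_cancel₀ (by norm_num) h6

/-- moving the primed operators to the vacuum -/
lemma Exch.transfer (h : Exch e e' Ω φ) (l : List (EuclideanSpace ℝ K)) :
    ∃ p : ℂ, ‖p‖ = 1 ∧ wd e' l *ᵥ Ω = p • (wd e (l.map φ).reverse *ᵥ Ω) := by
  induction l with
  | nil => exact ⟨1, by simp, by simp [wd_nil]⟩
  | cons v l ih =>
    obtain ⟨p, hp, hl⟩ := ih
    refine ⟨p * ((-1) ^ (l.map φ).reverse.length * I), ?_, ?_⟩
    · rw [norm_mul, norm_mul, hp, norm_pow, norm_neg, norm_one, one_pow, Complex.norm_I]; norm_num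
    · rw [wd_cons, ← Matrix.mulVec_mulVec, hl, Matrix.mulVec_smul, Matrix.mulVec_mulVec,
        wd_anti _ (fun y _ => h.anti_cl v y), Matrix.smul_mulVec, ← Matrix.mulVec_mulVec, h.ex,
        Matrix.mulVec_smul, Matrix.mulVec_mulVec, smul_smul, smul_smul, List.map_cons,
        List.reverse_cons, wd_append, wd_single]
      congr 1
      ring

lemma Exch.wick_aux (h : Exch e e' Ω φ) {ι : Type*} (u f : ι → EuclideanSpace ℝ K)
    (g : ι → ℝ) (hu : ∀ i j, i ≠ j → ⟪u i, u j⟫_ℝ = 0) (hg : ∀ i, ⟪u i, f i⟫_ℝ = g i)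
    (hg0 : ∀ i j, i ≠ j → ⟪u i, f j⟫_ℝ = 0) (S : List ι) (hS : S.Nodup) :
    om Ω (wd e (S.map u ++ (S.map f).reverse)) = (((S.map g).prod : ℝ) : ℂ) := by
  induction S with
  | nil => simp [wd_nil, h.one]
  | cons i S ih =>
    rw [List.nodup_cons] at hS
    have h1 : (i :: S).map u ++ ((i :: S).map f).reverse =
        u i :: ((S.map u ++ (S.map f).reverse) ++ [f i]) := by simp
    rw [h1, h.red, ih hS.2, hg, List.map_cons, List.prod_cons]
    · push_cast; rfl
    · intro y hy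
      rw [List.mem_append, List.mem_reverse, List.mem_map, List.mem_map] at hy
      rcases hy with ⟨j, hj, rfl⟩ | ⟨j, hj, rfl⟩
      · exact hu i j (fun hh => hS.1 (hh ▸ hj))
      · exact hg0 i j (fun hh => hS.1 (hh ▸ hj))
    · rw [List.length_append, List.length_reverse, List.length_map, List.length_map]
      exact Even.add_self _

/-- diagonal expectation values -/
theorem Exch.wick_diag (h : Exch e e' Ω φ) {ι : Type*} (u v : ι → EuclideanSpace ℝ K)
    (g : ι → ℝ) (hu : ∀ i j, i ≠ j → ⟪u i, u j⟫_ℝ = 0) (hg : ∀ i, ⟪u i, φ (v i)⟫_ℝ = g i)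
    (hg0 : ∀ i j, i ≠ j → ⟪u i, φ (v j)⟫_ℝ = 0) (S : List ι) (hS : S.Nodup) :
    ‖om Ω (wd e (S.map u) * wd e' (S.map v))‖ = |(S.map g).prod| := by
  obtain ⟨p, hp, h1⟩ := h.transfer (S.map v)
  have h2 : om Ω (wd e (S.map u) * wd e' (S.map v)) =
      p * om Ω (wd e (S.map u ++ (S.map fun i => φ (v i)).reverse)) := by
    unfold om
    rw [← Matrix.mulVec_mulVec, h1, Matrix.mulVec_smul, ip_smul_r, Matrix.mulVec_mulVec, wd_append,
      List.map_map]
    rfl
  rw [h2, h.wick_aux u (fun i => φ (v i)) g hu hg hg0 S hS, norm_mul, hp, one_mul, Complex.norm_real,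
    Real.norm_eq_abs]

/-- off-diagonal expectation values -/
theorem Exch.wick_off (h : Exch e e' Ω φ) {ι : Type*} (u v : ι → EuclideanSpace ℝ K)
    (hu : ∀ i j, i ≠ j → ⟪u i, u j⟫_ℝ = 0)
    (hg0 : ∀ i j, i ≠ j → ⟪u i, φ (v j)⟫_ℝ = 0) (S T : List ι) (hS : S.Nodup)
    (hST : Even (S.length + T.length)) (i : ι) (hi : i ∈ S) (hi' : i ∉ T) :
    om Ω (wd e (S.map u) * wd e' (T.map v)) = 0 := by
  obtain ⟨p, hp, h1⟩ := h.transfer (T.map v)
  obtain ⟨S1, S2, rfl⟩ := List.append_of_mem hi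
  have h2 : om Ω (wd e ((S1 ++ i :: S2).map u) * wd e' (T.map v)) =
      p * om Ω (wd e (S1.map u ++ u i :: (S2.map u ++ (T.map fun i => φ (v i)).reverse))) := by
    unfold om
    rw [← Matrix.mulVec_mulVec, h1, Matrix.mulVec_smul, ip_smul_r, Matrix.mulVec_mulVec, ← wd_append,
      List.map_map]
    simp only [List.map_append, List.map_cons, List.append_assoc, List.cons_append]
    rfl
  rw [h2, h.zero, mul_zero]
  · intro y hy
    have hnd : i ∉ S1 ++ S2 := by
      have := hS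
      rw [List.nodup_append] at this
      obtain ⟨h3, h4, h5⟩ := this
      rw [List.nodup_cons] at h4
      intro hh
      rw [List.mem_append] at hh
      rcases hh with hh | hh
      · exact h5 i hh i (by simp) rfl
      · exact h4.1 hh
    simp only [List.mem_append, List.mem_map, List.mem_reverse] at hy
    rcases hy with ⟨j, hj, rfl⟩ | ⟨j, hj, rfl⟩ | ⟨j, hj, rfl⟩
    · exact hu i j (fun hh => hnd (by rw [hh]; simp [hj]))
    · exact hu i j (fun hh => hnd (by rw [hh]; simp [hj]))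
    · exact hg0 i j (fun hh => hi' (hh ▸ hj))
  · simp only [List.length_append, List.length_map, List.length_cons, List.length_reverse] at hST ⊢
    rcases hST with ⟨r, hr⟩
    refine ⟨r - 1, ?_⟩
    omega

end

end Pool.Agent.K6.H5.PL
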